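import Pool.Agent.H11.SC6.Prim7

/-!
# QP-CHR8: the two primitive characters modulo `8`

`(ZMod 8)ˣ = {1, 3, 5, 7}`; `e = 1`: `χ(3) = χ(5) = -1`, `χ(7) = 1`; `e = -1`: `χ(3) = 1`, `χ(5) = χ(7) = -1`.  Take Mathlib's `ZMod.χ₈`, `ZMod.χ₈'` (values in `ℤ`) and map them to
`ℂ` (`MulChar.ringHomComp` with `Int.castRingHom ℂ`; it is a `DirichletCharacter ℂ 8`), values by `decide`/`simp`/`rfl`-like (`ZMod.χ₈_apply`).
Primitive: the conductor divides `8`, it is not `1` (`χ ≠ 1`); if it divides `4` then `χ 5 = χ₀ 1 = 1` (see `chi4_exists` in `Prim7.lean`: `factorsThrough_conductor`,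
`changeLevel_eq_cast_of_dvd`), but `χ 5 = -1`.
-/

set_option autoImplicit false

namespace H25.QP

open Complex

theorem chr8 (e : ℂ) (he : e = 1 ∨ e = -1) : ∃ χ : DirichletCharacter ℂ 8, χ (-1) = e ∧ χ 5 = -1 := by
  rcases he with rfl | rfl
  · refine ⟨ZMod.χ₈.ringHomComp (Int.castRingHom ℂ), ?_, ?_⟩
    · rw [MulChar.ringHomComp_apply]
      have h : ZMod.χ₈ (-1) = 1 := by decide
      rw [h, map_one]
    · rw [MulChar.ringHomComp_apply]
      have h : ZMod.χ₈ 5 = -1 := by decide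
      rw [h, map_neg, map_one]
  · refine ⟨ZMod.χ₈'.ringHomComp (Int.castRingHom ℂ), ?_, ?_⟩
    · rw [MulChar.ringHomComp_apply]
      have h : ZMod.χ₈' (-1) = -1 := by decide
      rw [h, map_neg, map_one]
    · rw [MulChar.ringHomComp_apply]
      have h : ZMod.χ₈' 5 = -1 := by decide
      rw [h, map_neg, map_one]

/-- the unit `5` -/
private def u5 : (ZMod 8)ˣ := ⟨5, 5, by decide, by decide⟩

private lemma u5_val : ((u5 : (ZMod 8)ˣ) : ZMod 8) = 5 := rfl

theorem chr8_ne {χ : DirichletCharacter ℂ 8} (h5 : χ 5 = -1) : χ ≠ 1 := by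
  rintro rfl
  have h : IsUnit (5 : ZMod 8) := ⟨u5, u5_val⟩
  rw [MulChar.one_apply h] at h5
  norm_num at h5

theorem chr8_prim {χ : DirichletCharacter ℂ 8} (h5 : χ 5 = -1) : χ.IsPrimitive := by
  have h2 := χ.conductor_dvd_level
  have h3 : χ.conductor = 1 ∨ χ.conductor = 2 ∨ χ.conductor = 4 ∨ χ.conductor = 8 := by
    have h4 := Nat.le_of_dvd (by norm_num) h2
    interval_cases h6 : χ.conductor <;> simp_all
  have h4 := χ.factorsThrough_conductor
  rcases h3 with h3 | h3 | h3 | h3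
  · exact absurd (DirichletCharacter.eq_one_iff_conductor_eq_one.2 h3) (chr8_ne h5)
  · exfalso
    rw [h3] at h4
    have h5' := h4.eq_changeLevel
    have h6 := DirichletCharacter.changeLevel_eq_cast_of_dvd h4.χ₀ h4.dvd u5
    rw [← h5', u5_val, h5] at h6
    have h8 : (ZMod.cast (5 : ZMod 8) : ZMod 2) = 1 := by decide
    rw [h8, map_one] at h6
    norm_num at h6
  · exfalso
    rw [h3] at h4
    have h5' := h4.eq_changeLevel
    have h6 := DirichletCharacter.changeLevel_eq_cast_of_dvd h4.χ₀ h4.dvd u5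
    rw [← h5', u5_val, h5] at h6
    have h8 : (ZMod.cast (5 : ZMod 8) : ZMod 4) = 1 := by decide
    rw [h8, map_one] at h6
    norm_num at h6
  · exact h3

theorem chr8_add4 {χ : DirichletCharacter ℂ 8} (h5 : χ 5 = -1) (x y : ℤ) (hx : Odd x) (hy : Odd y) :
    χ ((x + 4 * y : ℤ) : ZMod 8) = -χ (x : ZMod 8) := by
  obtain ⟨m, rfl⟩ := hx
  obtain ⟨n, rfl⟩ := hy
  have h1 : (((2 * m + 1) + 4 * (2 * n + 1) : ℤ) : ZMod 8) = 5 * ((2 * m + 1 : ℤ) : ZMod 8) := by
    have h8 : (8 : ZMod 8) = 0 := by decide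
    push_cast
    linear_combination (n - m : ZMod 8) * h8
  rw [h1, map_mul, h5]
  ring

end H25.QP
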