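import Pool.Agent.H25.QP.PRul
import Pool.Agent.H25.QP.Chr8
import Pool.Agent.H11.SC6.Calc57

/-!
# QP-CAL8: the values at the cusps of the two types, `q = 8`

Induction on `n` as in `calc57_aux` (`Pool/Agent/H11/SC6/Calc57.lean`): `Plus j c (χ c)` for `c` odd, `(j, c) = 1`, `c² ≤ n`, and `Minus j (8c) (ηp conj (χ j))` for `(j, 8c) = 1`, `8c² ≤ n`.
`χ(-1) = e` (`e = ± 1`, so `conj e = e`, `e * e = 1`), `ηm = ηp e`, `‖ηp‖ = 1`; `χ(x + 4y) = -χ(x)` for odd `x`, `y` (`chr8_add4`).
PLUS, `c ≥ 3` odd (`c = 1`: `plus_zero`, `plus_per`): `j = j0 + m c`, `2|j0| ≤ c` (`small_rep`), `j0 ≠ 0`.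
 (W) `8 j0² < c²`: `rule2` with `Minus (sign j0 · c) (8 |j0|)` (size `8 j0² < c²`), as in `calc57_aux`: `ηp conj (ηp conj χ(sign j0 c)) = χ(c)` for `j0 > 0`,
 `ηm conj (ηp conj χ(-c)) = e χ(-c) = χ(c)` for `j0 < 0`.
 (P) `8 j0² ≥ c²`: `j1 = j0` if `j0 > 0`, `j1 = j0 + c` if `j0 < 0` (`plus_per`), `d = 2 j1 - c`, `|d| = c - 2|j0|` odd, `0 < 4|d| < 2c` (`8 j0² ≥ c²` gives `20 |j0| ≥ 7 c`, so
 `|d| ≤ (3/10) c`).  `s = -sign d`, `c2 = c + 4 s d = c - 4|d|`, `j2 = j1 + 2 s d = j1 - 2|d|`; `c2` is odd, `|c2| < c`, `(j2, c2) = 1` (`2 j2 - c2 = d`; `j2 = j1 + 2sd`, `c2 = c + 4sd`,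
 the matrix has determinant `1`: `(1 + 4s) j2 - 2s c2 = j1·((1+4s)² - 16 s²) ..`; explicitly `j1 = (1 - 4s) j2 + 2s c2`, `c = -8s j2 + (1 + 4s) c2`, so a common divisor of `j2`, `c2`
 divides `j1`, `c`).  Induction: `Plus (sign c2 · j2) |c2| (χ |c2|)`, `prule1`: `-(1 or e) χ(|c2|) = -χ(c2) = χ(c)` (`χ(|c2|) = e χ(c2)` if `c2 < 0`; `c2 = c + 4(sd)`, `sd` odd).
MINUS, `j` odd, `(j, c) = 1`: `j = j0 + m 8c`, `|j0| ≤ 4c`, `j0` odd, so `|j0| < 4c`.
 (W) `j0² < 8c²`: `rule1` with `Plus (sign j0 · c) |j0| (χ |j0|)` (size `j0² < 8c²`), as in `calc57_aux`.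
 (P) `j0² ≥ 8c²` (so `5|j0| ≥ 14 c`): `j1 = j0` or `j0 + 8c`, `0 < j1 < 8c`, `d = 2 j1 - 8c = 2 t`, `t = j1 - 4c` odd, `|t| = 4c - |j0|`, `s = -sign t`, `C2 = 8c + 4 s d = 8 (c - |t|)`,
 `j2 = j1 + 2 s d = j1 - 4|t|`; `c - |t| = |j0| - 3c`, `-c/5 ≤ |j0| - 3c < c`.
 If `|j0| = 3c`: `c ∣ j0`, `(j0, c) = 1` give `c = 1`, `|j0| = 3`, `j1 = 3` or `5`: `E.three`, `E.five` (`ηp conj χ(3) = ηp χ(-5) = -e ηp = -ηm`, `ηp conj χ(5) = -ηp`).
 Otherwise `c2' = c - |t| ≠ 0`, `|c2'| < c`, `(j2, 8 c2') = 1` (`j1 = (1 - 4s) j2 + 2 s C2`, `8c = -8 s j2 + (1 + 4s) C2`), induction: `Minus (sign c2' · j2) (8 |c2'|) (ηp conj χ(sign c2' · j2))`,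
 `prule2` (`c` there is `8c`, `c2` there is `8 c2'`): `-(1 or e) ηp conj χ(sign c2' j2) = -ηp conj χ(j2) = ηp conj χ(j1)` (`j2 = j1 + 4 (s t)`, `s t` odd).
-/

set_option autoImplicit false

namespace H25.QP

open Complex Filter Topology Pool.Agent.H11.Selberg Pool.Agent.H11.SC Pool.Agent.H39.Pol Pool.Agent.H11.SC6

variable {b : ℕ → ℂ} {M : ℕ} {θ : ℝ} {ρ ηp ηm e : ℂ}

private theorem odd_of_cop {j : ℤ} (h : IsCoprime j 8) : j % 2 = 1 := by
  by_contra h0
  have h1 : (2 : ℤ) ∣ j := by omega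
  have h2 : IsUnit (2 : ℤ) := h.isUnit_of_dvd' h1 (by norm_num)
  rw [Int.isUnit_iff] at h2
  omega

private theorem cop_of_odd {j : ℤ} (h : j % 2 = 1) : IsCoprime j 8 := by
  have h1 : IsCoprime j 2 := ⟨1, -(j / 2), by omega⟩
  have h2 : IsCoprime j ((2 : ℤ) ^ 3) := h1.pow_right
  norm_num at h2
  exact h2

private theorem natAbs_cast_pos {z : ℤ} (h : 0 < z) : ((z.natAbs : ℕ) : ZMod 8) = (z : ZMod 8) := by
  have h7 : ((z.natAbs : ℕ) : ℤ) = z := by omega
  have h8 := congrArg (fun z : ℤ => (z : ZMod 8)) h7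
  simpa using h8

private theorem natAbs_cast_neg {z : ℤ} (h : z < 0) : ((z.natAbs : ℕ) : ZMod 8) = -(z : ZMod 8) := by
  have h7 : ((z.natAbs : ℕ) : ℤ) = -z := by omega
  have h8 := congrArg (fun z : ℤ => (z : ZMod 8)) h7
  simpa using h8

private theorem sign_exists (d : ℤ) : ∃ s : ℤ, (s = 1 ∨ s = -1) ∧ s * d = -(d.natAbs : ℤ) := by
  rcases lt_or_ge d 0 with h | h
  · exact ⟨1, Or.inl rfl, by omega⟩
  · exact ⟨-1, Or.inr rfl, by omega⟩

private theorem calc8_aux (E : Dat8 b M θ ρ ηp ηm e) (χ : DirichletCharacter ℂ 8) (h1 : χ (-1) = e) (h5 : χ 5 = -1) (n : ℕ) :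
    (∀ (c : ℕ) (j : ℤ), 1 ≤ c → Nat.Coprime c 8 → IsCoprime j c → c ^ 2 ≤ n → Plus b M θ ρ j c (χ (c : ZMod 8))) ∧
    (∀ (c : ℕ) (j : ℤ), 1 ≤ c → IsCoprime j ((8 * c : ℕ) : ℤ) → 8 * c ^ 2 ≤ n →
      Minus b 8 M θ ρ j (8 * c) (ηp * (starRingEnd ℂ) (χ (j : ZMod 8)))) := by
  have np := unit_conj E.dat.hp
  have ee := E.he
  have ec : (starRingEnd ℂ) e = e := by
    rcases mul_self_eq_one_iff.1 ee with h | h <;> rw [h] <;> simp
  have neg := E.hη
  have hneg : ∀ x : ZMod 8, χ (-x) = e * χ x := by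
    intro x
    rw [← h1, ← map_mul, neg_one_mul]
  induction n with
  | zero =>
    refine ⟨fun c j hc _ _ h => ?_, fun c j hc _ h => ?_⟩
    · have : 1 ≤ c ^ 2 := Nat.one_le_pow _ _ hc
      omega
    · have h1 : 1 ≤ c ^ 2 := Nat.one_le_pow _ _ hc
      omega
  | succ n ih =>
    obtain ⟨ihP, ihM⟩ := ih
    refine ⟨fun c j hc hcq hjc hn => ?_, fun c j hc hjc hn => ?_⟩
    · obtain ⟨j0, mm, hj, hj0⟩ := small_rep j c hc
      rw [hj]
      refine plus_per j0 c hc _ mm ?_
      have hcop : IsCoprime j0 (c : ℤ) := by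
        have e1 : j0 = j + (-mm) * c := by rw [hj]; ring
        rw [e1]
        exact (IsCoprime.add_mul_right_left_iff).2 hjc
      have hcq' : IsCoprime ((c : ℕ) : ℤ) ((8 : ℕ) : ℤ) := Nat.isCoprime_iff_coprime.2 hcq
      have hcodd : (c : ℤ) % 2 = 1 := odd_of_cop (by exact_mod_cast hcq')
      rcases Nat.eq_or_lt_of_le hc with h1 | h1
      · rw [← h1] at hj0 ⊢
        have h2 : j0 = 0 := by omega
        rw [h2]
        have e1 : χ (((1 : ℕ) : ZMod 8)) = 1 := by simp
        rw [e1]
        exact plus_zero E.dat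
      · have hj00 : j0 ≠ 0 := by
          rintro rfl
          have h2 := isCoprime_zero_left.1 hcop
          rw [Int.isUnit_iff] at h2
          omega
        have hna : 1 ≤ j0.natAbs := Int.natAbs_pos.2 hj00
        by_cases hW : 8 * j0.natAbs ^ 2 < c ^ 2
        · have hlt : 8 * j0.natAbs ^ 2 ≤ n := by omega
          have hsc : IsCoprime (j0.sign * (c : ℤ)) ((8 * j0.natAbs : ℕ) : ℤ) := by
            refine sign_cop hj00 ?_
            have a2 := abs_cop hcop.symm
            push_cast at a2 ⊢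
            exact IsCoprime.mul_right hcq' a2
          have h5' := ihM j0.natAbs (j0.sign * c) hna hsc hlt
          have h6 := rule2 E.dat (by norm_num) j0 c hj00 hc (by omega) _ h5'
          convert h6 using 1
          rw [map_mul, conj_conj]
          rcases lt_or_gt_of_ne hj00 with h0 | h0
          · rw [Int.sign_eq_neg_one_of_neg h0, if_neg (not_lt.2 h0.le)]
            have e1 : (((-1 * (c : ℤ) : ℤ)) : ZMod 8) = -((c : ℕ) : ZMod 8) := by push_cast; ring
            rw [e1, hneg, neg]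
            linear_combination (-χ (c : ZMod 8) * e * e) * np - χ (c : ZMod 8) * ee
          · rw [Int.sign_eq_one_of_pos h0, one_mul, if_pos h0, Int.cast_natCast]
            linear_combination (-χ (c : ZMod 8)) * np
        · -- the parabolic step
          obtain ⟨j1, t, hj1, hd1, hd2⟩ : ∃ j1 t : ℤ, j0 = j1 + t * c ∧
              (2 * j1 - c).natAbs = c - 2 * j0.natAbs ∧ 2 * j1 - c ≠ 0 := by
            rcases lt_or_gt_of_ne hj00 with h0 | h0
            · exact ⟨j0 + c, -1, by ring, by omega, by omega⟩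
            · exact ⟨j0, 0, by ring, by omega, by omega⟩
          have hcop1 : IsCoprime j1 (c : ℤ) := by
            have e1 : j1 = j0 + (-t) * c := by rw [hj1]; ring
            rw [e1]
            exact (IsCoprime.add_mul_right_left_iff).2 hcop
          rw [hj1]
          refine plus_per j1 c hc _ t ?_
          have h9 : 7 * c ≤ 20 * j0.natAbs := by
            by_contra h10
            push Not at hW h10
            nlinarith
          obtain ⟨s, hs, hsd⟩ := sign_exists (2 * j1 - c)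
          have hd5 : 1 ≤ (2 * j1 - (c : ℤ)).natAbs := Int.natAbs_pos.2 hd2
          obtain ⟨c2, hc2⟩ : ∃ c2 : ℤ, c2 = c + 4 * s * (2 * j1 - c) := ⟨_, rfl⟩
          obtain ⟨j2, hj2⟩ : ∃ j2 : ℤ, j2 = j1 + 2 * s * (2 * j1 - c) := ⟨_, rfl⟩
          have hc2' : c2 = c + 4 * -((2 * j1 - (c : ℤ)).natAbs : ℤ) := by
            rw [hc2, ← hsd]
            ring
          have hc20 : c2 ≠ 0 := by omega
          have hc2lt : c2.natAbs < c := by omega
          have hc2odd : c2 % 2 = 1 := by omega
          have hjc2 : IsCoprime j2 c2 := by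
            obtain ⟨u, v, huv⟩ := hcop1
            refine ⟨u * (1 - 4 * s) - 8 * s * v, 2 * s * u + (1 + 4 * s) * v, ?_⟩
            rw [hj2, hc2]
            linear_combination huv
          have hsc : IsCoprime (c2.sign * j2) ((c2.natAbs : ℕ) : ℤ) := sign_cop hc20 (abs_cop hjc2)
          have hcn : Nat.Coprime c2.natAbs 8 := by
            have h11 := cop_of_odd hc2odd
            have h12 := Int.isCoprime_iff_gcd_eq_one.1 h11
            simpa [Int.gcd, Nat.Coprime] using h12
          have hsq : c2.natAbs ^ 2 ≤ n := by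
            have := Nat.pow_lt_pow_left hc2lt (n := 2) (by norm_num)
            omega
          have h5' := ihP c2.natAbs (c2.sign * j2) (Int.natAbs_pos.2 hc20) hcn hsc hsq
          have h6 := prule1 E j1 c hc s hs hd2 c2 j2 hc2 hj2 hc20 _ h5'
          convert h6 using 1
          have hodd : Odd (s * (2 * j1 - (c : ℤ))) := by
            rw [Int.odd_iff]
            rcases hs with rfl | rfl <;> omega
          have e2 : χ (c2 : ZMod 8) = -χ (c : ZMod 8) := by
            have h13 := chr8_add4 h5 (c : ℤ) (s * (2 * j1 - c)) (Int.odd_iff.2 hcodd) hodd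
            rw [← mul_assoc, ← hc2] at h13
            rw [h13]
            simp
          rcases lt_or_gt_of_ne hc20 with h0 | h0
          · rw [if_neg (not_lt.2 h0.le), natAbs_cast_neg h0, hneg, e2]
            linear_combination (-χ (c : ZMod 8)) * ee
          · rw [if_pos h0, natAbs_cast_pos h0, e2]
            ring
    · have hqc : 1 ≤ 8 * c := by omega
      obtain ⟨j0, mm, hj, hj0⟩ := small_rep j (8 * c) hqc
      have hcop : IsCoprime j0 ((8 * c : ℕ) : ℤ) := by
        have e1 : j0 = j + (-mm) * ((8 * c : ℕ) : ℤ) := by rw [hj]; ring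
        rw [e1]
        exact (IsCoprime.add_mul_right_left_iff).2 hjc
      have h80 : (8 : ZMod 8) = 0 := by decide
      have echi : (j : ZMod 8) = (j0 : ZMod 8) := by
        rw [hj]
        push_cast
        rw [h80]
        ring
      rw [echi, hj]
      refine minus_per j0 (8 * c) hqc _ mm ?_
      have hj00 : j0 ≠ 0 := by
        rintro rfl
        have h2 := isCoprime_zero_left.1 hcop
        rw [Int.isUnit_iff] at h2
        omega
      have hna : 1 ≤ j0.natAbs := Int.natAbs_pos.2 hj00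
      have hcop' : IsCoprime j0 ((8 : ℤ) * c) := by
        have : ((8 * c : ℕ) : ℤ) = 8 * c := by push_cast; ring
        rwa [this] at hcop
      have hcq1 : IsCoprime j0 (8 : ℤ) := hcop'.of_mul_right_left
      have hcc1 : IsCoprime j0 (c : ℤ) := hcop'.of_mul_right_right
      have hjodd : j0 % 2 = 1 := odd_of_cop hcq1
      by_cases hW : j0.natAbs ^ 2 < 8 * c ^ 2
      · have hlt : j0.natAbs ^ 2 ≤ n := by omega
        have hcn : Nat.Coprime j0.natAbs 8 := by
          have := Int.isCoprime_iff_gcd_eq_one.1 hcq1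
          simpa [Int.gcd, Nat.Coprime] using this
        have hsc : IsCoprime (j0.sign * (c : ℤ)) ((j0.natAbs : ℕ) : ℤ) :=
          sign_cop hj00 (abs_cop hcc1.symm)
        have h5' := ihP j0.natAbs (j0.sign * c) hna hcn hsc hlt
        have h6 := rule1 E.dat (by norm_num) j0 c hj00 hc (by omega) _ h5'
        convert h6 using 1
        rcases lt_or_gt_of_ne hj00 with h0 | h0
        · rw [if_neg (not_lt.2 h0.le), neg, natAbs_cast_neg h0, hneg, map_mul, ec]
          linear_combination (-(ηp * (starRingEnd ℂ) (χ (j0 : ZMod 8)))) * ee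
        · rw [if_pos h0, natAbs_cast_pos h0]
      · -- the parabolic step
        have h9 : 14 * c ≤ 5 * j0.natAbs := by
          by_contra h10
          push Not at hW h10
          nlinarith
        by_cases h3c : j0.natAbs = 3 * c
        · -- the terminal case
          have hc1 : c = 1 := by
            have hdv : (c : ℤ) ∣ j0 := by
              rw [← Int.dvd_natAbs, h3c]
              exact ⟨3, by push_cast; ring⟩
            have h10 := hcc1.isUnit_of_dvd' hdv dvd_rfl
            rw [Int.isUnit_iff] at h10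
            omega
          subst hc1
          have h10 : j0 = 3 ∨ j0 = -3 := by omega
          have h35 : χ (3 : ZMod 8) = -e := by
            have : (3 : ZMod 8) = -5 := by decide
            rw [this, hneg, h5]
            ring
          rcases h10 with rfl | rfl
          · have h11 := E.three
            convert h11 using 1
            rw [Int.cast_ofNat, h35, map_neg, ec, neg]
            ring
          · have h11 := minus_per (b := b) (q := 8) (M := M) (θ := θ) (ρ := ρ) 5 8 (by norm_num) _ (-1) E.five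
            norm_num at h11 ⊢
            convert h11 using 1
            have : χ (-3 : ZMod 8) = -1 := by
              rw [hneg, h35]
              linear_combination -ee
            rw [this]
            simp
        · obtain ⟨j1, t, hj1, hd1, hd2⟩ : ∃ j1 t : ℤ, j0 = j1 + t * ((8 * c : ℕ) : ℤ) ∧
              (j1 - 4 * c).natAbs = 4 * c - j0.natAbs ∧ j1 - 4 * c ≠ 0 := by
            rcases lt_or_gt_of_ne hj00 with h0 | h0
            · exact ⟨j0 + 8 * c, -1, by push_cast; ring, by omega, by omega⟩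
            · exact ⟨j0, 0, by ring, by omega, by omega⟩
          have hj1odd : j1 % 2 = 1 := by
            push_cast at hj1
            have h10 : j0 = j1 + 2 * (t * (4 * c)) := by rw [hj1]; ring
            omega
          have hcop1 : IsCoprime j1 ((8 * c : ℕ) : ℤ) := by
            have e1 : j1 = j0 + (-t) * ((8 * c : ℕ) : ℤ) := by rw [hj1]; ring
            rw [e1]
            exact (IsCoprime.add_mul_right_left_iff).2 hcop
          have echi1 : (j0 : ZMod 8) = (j1 : ZMod 8) := by
            rw [hj1]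
            push_cast
            rw [h80]
            ring
          rw [echi1, hj1]
          refine minus_per j1 (8 * c) hqc _ t ?_
          obtain ⟨s, hs, hsd⟩ := sign_exists (j1 - 4 * c)
          have hd5 : 1 ≤ (j1 - 4 * (c : ℤ)).natAbs := Int.natAbs_pos.2 hd2
          obtain ⟨c2, hc2⟩ : ∃ c2 : ℤ, c2 = c + s * (j1 - 4 * c) := ⟨_, rfl⟩
          obtain ⟨j2, hj2⟩ : ∃ j2 : ℤ, j2 = j1 + 4 * (s * (j1 - 4 * c)) := ⟨_, rfl⟩
          have hc20 : c2 ≠ 0 := by
            rw [hsd] at hc2
            omega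
          have hc2lt : c2.natAbs < c := by
            rw [hsd] at hc2
            omega
          have hj2odd : j2 % 2 = 1 := by omega
          have hjc2 : IsCoprime j2 (8 * c2) := by
            obtain ⟨u, v, huv⟩ := hcop1
            refine ⟨u * (1 - 4 * s) - 8 * s * v, 2 * s * u + (1 + 4 * s) * v, ?_⟩
            rw [hj2, hc2]
            push_cast at huv
            linear_combination huv
          have hsign : (8 * c2).sign = c2.sign := by
            rw [Int.sign_mul]
            exact one_mul _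
          have habs : (8 * c2).natAbs = 8 * c2.natAbs := by
            rw [Int.natAbs_mul]
            rfl
          have h820 : 8 * c2 ≠ 0 := by omega
          have hsc : IsCoprime (c2.sign * j2) ((8 * c2.natAbs : ℕ) : ℤ) := by
            rw [← habs, ← hsign]
            exact sign_cop h820 (abs_cop hjc2)
          have hsq : 8 * c2.natAbs ^ 2 ≤ n := by
            have := Nat.pow_lt_pow_left hc2lt (n := 2) (by norm_num)
            omega
          have h5' := ihM c2.natAbs (c2.sign * j2) (Int.natAbs_pos.2 hc20) hsc hsq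
          rw [← habs, ← hsign] at h5'
          have h6 := prule2 E j1 (8 * c) hqc s hs (by push_cast; omega) (8 * c2) j2
            (by rw [hc2]; push_cast; ring) (by rw [hj2]; push_cast; ring) h820 _ h5'
          convert h6 using 1
          have hodd : Odd (s * (j1 - 4 * (c : ℤ))) := by
            rw [Int.odd_iff]
            rcases hs with rfl | rfl <;> omega
          have e2 : χ (j2 : ZMod 8) = -χ (j1 : ZMod 8) := by
            have h13 := chr8_add4 h5 j1 (s * (j1 - 4 * c)) (Int.odd_iff.2 hj1odd) hodd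
            rw [← hj2] at h13
            exact h13
          rw [hsign]
          rcases lt_or_gt_of_ne hc20 with h0 | h0
          · rw [Int.sign_eq_neg_one_of_neg h0, if_neg (by omega)]
            have e1 : (((-1 * j2 : ℤ)) : ZMod 8) = -(j2 : ZMod 8) := by push_cast; ring
            rw [e1, hneg, e2, map_mul, map_neg, ec]
            linear_combination (-(ηp * (starRingEnd ℂ) (χ (j1 : ZMod 8)))) * ee
          · rw [Int.sign_eq_one_of_pos h0, one_mul, if_pos (by omega), e2, map_neg]
            ring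

theorem calc8 (E : Dat8 b M θ ρ ηp ηm e) (χ : DirichletCharacter ℂ 8) (h1 : χ (-1) = e) (h5 : χ 5 = -1) :
    (∀ (c : ℕ) (j : ℤ), 1 ≤ c → Nat.Coprime c 8 → IsCoprime j c → Plus b M θ ρ j c (χ (c : ZMod 8))) ∧
    (∀ (c : ℕ) (j : ℤ), 1 ≤ c → IsCoprime j ((8 * c : ℕ) : ℤ) →
      Minus b 8 M θ ρ j (8 * c) (ηp * (starRingEnd ℂ) (χ (j : ZMod 8)))) :=
  ⟨fun c j h2 h3 h4 => (calc8_aux E χ h1 h5 (c ^ 2)).1 c j h2 h3 h4 le_rfl,
    fun c j h2 h3 => (calc8_aux E χ h1 h5 (8 * c ^ 2)).2 c j h2 h3 le_rfl⟩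

end H25.QP
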