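import Pool.Agent.H25.QP.Df

/-!
# QP-CASA: no pole if the Euler factor at `2` is `1`

`hrel` with `c1 = c2 = 0`: `f(ξ + i/2) = -f(ξ)`.  `half_neg`: `CL.unshift` (`VCusp.lean`) and `CL.smul'`, `CL.congr'`.
`no_pole_A`: values (`D.zero`, `rule1`, `rule2` of `H39/Pol/Rules.lean`, `q = 8`; `plus_per`, `minus_per`), `X = 2^(1+2iθ)`:
(a) value `-ρ` at `1/2`: `Plus 1 2 (-X)` (`Plus` at denominator `2`: `ρ x 2^(-(1+2iθ))`); shift: `Plus (-1) 2 (-X)`.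
(b) `rule1` (`j = 2`, `c' = 1`; `j = -2`): `Minus 2 8 (ηp conj (-X))`, `Minus (-2) 8 (ηm conj (-X))`.  `half_neg` for `-2/8 + 1/2 = 2/8`: `Minus 2 8 (-(ηm conj (-X)))`;
`minus_unique`: `ηp = -ηm` (`X ≠ 0`).
(c) `minus_per`: `Minus (-6) 8 (ηp conj (-X))`; `rule2` (`j = -1`, `c = 6`: `j.sign * c = -6`, `q * |j| = 8`): `Plus (-1) 6 (ηm conj (ηp conj (-X))) = Plus (-1) 6 (-(ηm conj ηp X))`.
 `half_neg` for `-1/6 + 1/2 = 1/3`: value at `1/3`: `ρ ηm conj ηp X 6^(-(1+2iθ)) = ρ ηm conj ηp 3^(-(1+2iθ))` (`6^(-z) = 2^(-z) 3^(-z)`): `Plus 1 3 (ηm conj ηp)`.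
(d) `rule1` (`j = 3`, `c' = 1`): `Minus 3 8 (ηp conj (ηm conj ηp)) = Minus 3 8 (ηp ηp conj ηm)`.
(e) `rule1` (`j = -1`, `c' = 1`; `Plus (-1) 1 1` by `plus_per`): `Minus (-1) 8 ηm`; `half_neg` for `-1/8 + 1/2 = 3/8`: `Minus 3 8 (-ηm)`.
(f) `minus_unique`: `ηp ηp conj ηm = -ηm`; with `ηp = -ηm`: `ηm ηm conj ηm = -ηm`, i.e. `ηm = -ηm`, `ηm = 0`: contradiction to `‖ηm‖ = 1`.
-/

set_option autoImplicit false

namespace H25.QP

open Complex Filter Topology Pool.Agent.H11.Selberg Pool.Agent.H11.SC Pool.Agent.H39.Pol Pool.Agent.H11.SC6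

theorem half_neg {b : ℕ → ℂ} (hrel : HRel b 0 0) {M : ℕ} {κ : ℂ} {β : ℝ} {v : ℂ} (h : CL (gs b 3) M κ β v) :
    CL (gs b 3) M κ (β + 1 / 2) (-v) := by
  have h1 : CL (fun ξ => gs b 3 (ξ + ((1 / 2 : ℝ) : ℂ) * I)) M κ β (-v) := by
    have h2 := CL.smul' h (-1)
    rw [neg_one_mul] at h2
    refine CL.congr' h2 (fun ξ hξ => ?_)
    rw [hrel ξ hξ]
    ring
  have h3 := CL.unshift h1
  have e : 1 / 2 + β = β + 1 / 2 := by ring
  rw [e] at h3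
  exact h3

private theorem minus_half {b : ℕ → ℂ} (hrel : HRel b 0 0) {q M : ℕ} {θ : ℝ} {ρ : ℂ} (j j' : ℤ) (c : ℕ)
    (hc : 1 ≤ c) (hj : 2 * j' = 2 * j + c) (x : ℂ) (h : Minus b q M θ ρ j c x) :
    Minus b q M θ ρ j' c (-x) := by
  unfold Minus at h ⊢
  have h1 := half_neg hrel h
  have hcr : (c : ℝ) ≠ 0 := by
    have : 0 < c := hc
    exact_mod_cast this.ne'
  have hj' : 2 * (j' : ℝ) = 2 * j + c := by exact_mod_cast hj
  have e : ((j : ℝ) / c + 1 / 2) = (j' : ℝ) / c := by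
    field_simp
    linarith
  rw [e] at h1
  have e2 : (starRingEnd ℂ) ρ * -x * ((Real.sqrt q / c : ℝ) : ℂ) * (((c : ℝ) ^ 2 / q : ℝ) : ℂ) ^ (θ * I) =
      -((starRingEnd ℂ) ρ * x * ((Real.sqrt q / c : ℝ) : ℂ) * (((c : ℝ) ^ 2 / q : ℝ) : ℂ) ^ (θ * I)) := by ring
  rw [e2]
  exact h1

theorem no_pole_A {b : ℕ → ℂ} {M : ℕ} {θ : ℝ} {ρ ηp ηm : ℂ} (D : Dat b 8 M θ ρ ηp ηm) (hrel : HRel b 0 0) : False := by
  have hX0 : (2 : ℂ) ^ (1 + 2 * θ * I : ℂ) ≠ 0 := by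
    rw [Ne, cpow_eq_zero_iff]
    rintro ⟨h, -⟩
    norm_num at h
  obtain ⟨X, hX⟩ : ∃ X : ℂ, X = (2 : ℂ) ^ (1 + 2 * θ * I : ℂ) := ⟨_, rfl⟩
  rw [← hX] at hX0
  have hXi : X * (2 : ℂ) ^ (-(1 + 2 * θ * I) : ℂ) = 1 := by
    rw [hX, ← cpow_add _ _ (by norm_num : (2 : ℂ) ≠ 0)]
    simp
  -- the value at 1/2
  have a1 : Plus b M θ ρ 1 2 (-X) := by
    unfold Plus
    have h1 := half_neg hrel D.zero
    have e1 : (0 : ℝ) + 1 / 2 = ((1 : ℤ) : ℝ) / ((2 : ℕ) : ℝ) := by norm_num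
    have e2 : ρ * -X * ((2 : ℕ) : ℂ) ^ (-(1 + 2 * θ * I) : ℂ) = -ρ := by
      have e3 : ((2 : ℕ) : ℂ) = 2 := by norm_num
      rw [e3]
      linear_combination (-ρ) * hXi
    rw [← e1, e2]
    exact h1
  have a2 : Plus b M θ ρ (-1) 2 (-X) := by
    have h1 := plus_per 1 2 (by norm_num) (-X) (-1) a1
    have e : (1 : ℤ) + (-1) * ((2 : ℕ) : ℤ) = -1 := by norm_num
    rw [e] at h1
    exact h1
  have b1 : Minus b 8 M θ ρ 2 8 (ηp * (starRingEnd ℂ) (-X)) := by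
    have h1 := rule1 D (by norm_num) 2 1 (by norm_num) le_rfl (by norm_num) (-X) (by
      have e : ((2 : ℤ).sign * ((1 : ℕ) : ℤ)) = 1 := by norm_num
      have e' : (2 : ℤ).natAbs = 2 := rfl
      rw [e, e']
      exact a1)
    rw [if_pos (by norm_num)] at h1
    exact h1
  have b2 : Minus b 8 M θ ρ (-2) 8 (ηm * (starRingEnd ℂ) (-X)) := by
    have h1 := rule1 D (by norm_num) (-2) 1 (by norm_num) le_rfl (by norm_num) (-X) (by
      have e : ((-2 : ℤ).sign * ((1 : ℕ) : ℤ)) = -1 := rfl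
      have e' : (-2 : ℤ).natAbs = 2 := rfl
      rw [e, e']
      exact a2)
    rw [if_neg (by norm_num)] at h1
    exact h1
  have b3 : Minus b 8 M θ ρ 2 8 (-(ηm * (starRingEnd ℂ) (-X))) :=
    minus_half hrel (-2) 2 8 (by norm_num) (by norm_num) _ b2
  have hηp : ηp = -ηm := by
    have h1 := minus_unique D (by norm_num) 2 8 (by norm_num) _ _ b1 b3
    have h2 : (starRingEnd ℂ) (-X) ≠ 0 := (map_ne_zero _).2 (neg_ne_zero.2 hX0)
    have h3 : ηp * (starRingEnd ℂ) (-X) = (-ηm) * (starRingEnd ℂ) (-X) := by rw [h1]; ring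
    exact mul_right_cancel₀ h2 h3
  have c1 : Minus b 8 M θ ρ (-6) 8 (ηp * (starRingEnd ℂ) (-X)) := by
    have h1 := minus_per 2 8 (by norm_num) _ (-1) b1
    have e : (2 : ℤ) + (-1) * ((8 : ℕ) : ℤ) = -6 := by norm_num
    rw [e] at h1
    exact h1
  have c2 : Plus b M θ ρ (-1) 6 (ηm * (starRingEnd ℂ) (ηp * (starRingEnd ℂ) (-X))) := by
    have h1 := rule2 D (by norm_num) (-1) 6 (by norm_num) (by norm_num) (by norm_num)
      (ηp * (starRingEnd ℂ) (-X)) (by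
        have e : ((-1 : ℤ).sign * ((6 : ℕ) : ℤ)) = -6 := rfl
        have e' : 8 * (-1 : ℤ).natAbs = 8 := rfl
        rw [e, e']
        exact c1)
    rw [if_neg (by norm_num)] at h1
    exact h1
  have c3 : Plus b M θ ρ 1 3 (ηm * (starRingEnd ℂ) ηp) := by
    unfold Plus at c2 ⊢
    have h1 := half_neg hrel c2
    have e1 : ((-1 : ℤ) : ℝ) / ((6 : ℕ) : ℝ) + 1 / 2 = ((1 : ℤ) : ℝ) / ((3 : ℕ) : ℝ) := by norm_num
    have e6 : ((6 : ℕ) : ℂ) ^ (-(1 + 2 * θ * I) : ℂ) =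
        (2 : ℂ) ^ (-(1 + 2 * θ * I) : ℂ) * ((3 : ℕ) : ℂ) ^ (-(1 + 2 * θ * I) : ℂ) := by
      have e7 : ((6 : ℕ) : ℂ) = ((2 : ℝ) : ℂ) * ((3 : ℝ) : ℂ) := by
        push_cast
        norm_num
      have e8 : (2 : ℂ) = ((2 : ℝ) : ℂ) := by push_cast; rfl
      have e9 : ((3 : ℕ) : ℂ) = ((3 : ℝ) : ℂ) := by push_cast; rfl
      rw [e7, e9, mul_cpow_ofReal_nonneg (by norm_num) (by norm_num), ← e8]
    have e2 : -(ρ * (ηm * (starRingEnd ℂ) (ηp * (starRingEnd ℂ) (-X))) *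
        ((6 : ℕ) : ℂ) ^ (-(1 + 2 * θ * I) : ℂ)) =
        ρ * (ηm * (starRingEnd ℂ) ηp) * ((3 : ℕ) : ℂ) ^ (-(1 + 2 * θ * I) : ℂ) := by
      rw [e6, map_mul, conj_conj]
      linear_combination (ρ * (ηm * (starRingEnd ℂ) ηp) * ((3 : ℕ) : ℂ) ^ (-(1 + 2 * θ * I) : ℂ)) * hXi
    rw [e1, e2] at h1
    exact h1
  have d1 : Minus b 8 M θ ρ 3 8 (ηp * (starRingEnd ℂ) (ηm * (starRingEnd ℂ) ηp)) := by
    have h1 := rule1 D (by norm_num) 3 1 (by norm_num) le_rfl (by norm_num) (ηm * (starRingEnd ℂ) ηp) (by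
      have e : ((3 : ℤ).sign * ((1 : ℕ) : ℤ)) = 1 := rfl
      have e' : (3 : ℤ).natAbs = 3 := rfl
      rw [e, e']
      exact c3)
    rw [if_pos (by norm_num)] at h1
    exact h1
  have f1 : Plus b M θ ρ (-1) 1 1 := by
    have h1 := plus_per 0 1 le_rfl 1 (-1) (plus_zero D)
    have e : (0 : ℤ) + (-1) * ((1 : ℕ) : ℤ) = -1 := by norm_num
    rw [e] at h1
    exact h1
  have f2 : Minus b 8 M θ ρ (-1) 8 (ηm * (starRingEnd ℂ) 1) := by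
    have h1 := rule1 D (by norm_num) (-1) 1 (by norm_num) le_rfl (by norm_num) 1 (by
      have e : ((-1 : ℤ).sign * ((1 : ℕ) : ℤ)) = -1 := rfl
      have e' : (-1 : ℤ).natAbs = 1 := rfl
      rw [e, e']
      exact f1)
    rw [if_neg (by norm_num)] at h1
    exact h1
  have f3 : Minus b 8 M θ ρ 3 8 (-(ηm * (starRingEnd ℂ) 1)) :=
    minus_half hrel (-1) 3 8 (by norm_num) (by norm_num) _ f2
  have h1 := minus_unique D (by norm_num) 3 8 (by norm_num) _ _ d1 f3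
  rw [map_one, mul_one, map_mul, conj_conj, hηp] at h1
  have hn : (starRingEnd ℂ) ηm * ηm = 1 := by
    rw [mul_comm, mul_conj, normSq_eq_norm_sq, D.hm]
    norm_num
  have h2 : ηm = 0 := by
    have h3 : (2 : ℂ) * ηm = 0 := by linear_combination h1 - ηm * hn
    exact (mul_eq_zero.1 h3).resolve_left (by norm_num)
  have h3 := D.hm
  rw [h2, norm_zero] at h3
  exact zero_ne_one h3

end H25.QP
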