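import Pool.Agent.H25.QP.Df
import Pool.Agent.H25.QE.Rel

/-!
# QP-R4: the relation at `± 1/4` in the variable `ξ`

`rel4` of `H25/QE/Rel.lean` (`f(z + 1/4) + f(z - 1/4) = ∑_k l4_k 8^k f(2^k z)`) for `c = (1, c_1, 0, 0, ..)`, `α = -c_1`, `a 2 = α` (`hl.inv 1`): `l4_0 = 2 - 2 = 0`,
`l4_1 = -2 c_1 - 4 α = -2α`, `l4_2 = -2 c_2 - 4 α c_1 = 4α²`, `l4_k = 0` for `k ≥ 3` (`hasSum_sum_of_ne_finset_zero`/`HasSum.unique`, `range 3`); `8 · (-2α) = -16α`,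
`64 · 4α² = 256 α²`; `ff a z = gs a 3 (-(I z))`, `z = I ξ` (see `half_rel`, `H11/SC6/HalfRel.lean`): `-(I (z + 1/4)) = ξ - i/4`, `-(I (z - 1/4)) = ξ + i/4`.
-/

set_option autoImplicit false

namespace H25.QP

open Complex Filter Topology Pool.Agent.H11.Selberg Pool.Agent.H11.SC Pool.Agent.H39.Pol Pool.Agent.H11.SC6

/-- the relation at `± 1/4` -/
def Rel4 (b : ℕ → ℂ) (α : ℂ) : Prop := ∀ ξ : ℂ, 0 < ξ.re →
  gs b 3 (ξ + ((1 / 4 : ℝ) : ℂ) * I) + gs b 3 (ξ + ((-1 / 4 : ℝ) : ℂ) * I) =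
    -16 * α * gs b 3 (2 * ξ) + 256 * α ^ 2 * gs b 3 (4 * ξ)

theorem rel4_of {b c : ℕ → ℂ} (hl : H25.QE.Loc2 b c)
    (ha : ∃ C : ℝ, ∀ n : ℕ, 1 ≤ n → ‖b n‖ ≤ C * (n : ℝ) ^ (1 : ℝ)) (h2 : ∀ k : ℕ, 2 ≤ k → c k = 0) :
    Rel4 b (-c 1) := by
  intro ξ hξ
  have hz : 0 < (I * ξ).im := by
    simpa using hξ
  have hc0 : c 0 = 1 := by
    have h := hl.inv 0
    simpa [hl.one] using h
  have hb2 : b 2 = -c 1 := by
    have h := hl.inv 1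
    rw [Finset.sum_range_succ, Finset.sum_range_succ, Finset.sum_range_zero] at h
    simp [hl.one, hc0] at h
    linear_combination h
  have h := H25.QE.rel4 hl ha (I * ξ) hz
  have l0 : H25.QE.l4 c (b 2) 0 = 0 := by
    simp [H25.QE.l4, hc0]
  have l1 : H25.QE.l4 c (b 2) 1 = 2 * c 1 := by
    simp [H25.QE.l4, hc0, hb2]
    ring
  have l2 : H25.QE.l4 c (b 2) 2 = 4 * c 1 ^ 2 := by
    simp [H25.QE.l4, hb2, h2 2 le_rfl]
    ring
  have l3 : ∀ k : ℕ, 3 ≤ k → H25.QE.l4 c (b 2) k = 0 := by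
    intro k hk
    have hk0 : k ≠ 0 := by omega
    simp [H25.QE.l4, hk0, h2 k (by omega), h2 (k - 1) (by omega)]
  have hI : I * I = -1 := Complex.I_mul_I
  have e1 : -(I * (I * ξ + 1 / 4)) = ξ + ((-1 / 4 : ℝ) : ℂ) * I := by
    push_cast
    linear_combination -ξ * hI
  have e2 : -(I * (I * ξ - 1 / 4)) = ξ + ((1 / 4 : ℝ) : ℂ) * I := by
    push_cast
    linear_combination -ξ * hI
  have e3 : -(I * (((2 ^ 1 : ℕ) : ℂ) * (I * ξ))) = 2 * ξ := by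
    push_cast
    linear_combination -(2 * ξ) * hI
  have e4 : -(I * (((2 ^ 2 : ℕ) : ℂ) * (I * ξ))) = 4 * ξ := by
    push_cast
    linear_combination -(4 * ξ) * hI
  have hs : HasSum (fun k : ℕ => H25.QE.l4 c (b 2) k *
      (((2 ^ k : ℕ) : ℂ) ^ 3 * ff b (((2 ^ k : ℕ) : ℂ) * (I * ξ)))) (∑ k ∈ Finset.range 3,
      H25.QE.l4 c (b 2) k * (((2 ^ k : ℕ) : ℂ) ^ 3 * ff b (((2 ^ k : ℕ) : ℂ) * (I * ξ)))) :=
    hasSum_sum_of_ne_finset_zero (fun k hk => by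
      rw [Finset.mem_range, not_lt] at hk
      rw [l3 k hk, zero_mul])
  have hu := h.unique hs
  rw [Finset.sum_range_succ, Finset.sum_range_succ, Finset.sum_range_succ, Finset.sum_range_zero,
    l0, l1, l2] at hu
  unfold ff at hu
  beta_reduce at hu
  rw [e1, e2, e3, e4] at hu
  push_cast at hu ⊢
  linear_combination hu

end H25.QP
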