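import Pool.Agent.H25.QP.Scl
import Pool.Agent.H39.Pol.RRL
import Pool.Agent.H25.QP.R4

/-!
# QP-CASB: the Euler factor at `2` of a function with a pole

`Rel4`: see R4.lean.
`alpha_one`: put `α' = α 2^(-iθ)`, `κ0 = 2^(1+2iθ)`.  `cl_half` (Scl): value `ρ (α' - 1)` at `1/2`: `Plus 1 2 x`, `x = κ0 (α' - 1)`; also `Plus (-1) 2 x` (`plus_per`).
`rule1` (`j = ± 2`, `c' = 1`): `Minus 2 8 (ηp conj x)`, `Minus (-2) 8 (ηm conj x)`.  `RR.of_minus`, `RR.add`: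
`y ↦ f(y + i/4) + f(y - i/4)` has `RR .. 0 w`, `w = conj ρ (ηp + ηm) conj x (√8/8) (8²/8)^(iθ)`.  By `Rel4` and `RR.of_plus D.zero`, `RR.scale` (`2`, `4`), `RR.smul`, `RR.add` it has
`RR .. v 0`, `v = ρ (-16 α 2^(-(4+iθ)) + 256 α² 4^(-(4+iθ))) = ρ (-α' + α'²) = ρ α' (α' - 1)`.  `RR.unique_sum`: `v = w`.  Norms (`‖α'‖ = 1`, `‖κ0‖ = 2`, `√8/8 = 1/(2√2)`):
`‖α' - 1‖ = ‖ηp + ηm‖ ‖α' - 1‖/√2`.  `ηm = ηp`: `‖ηp + ηm‖ = 2`, `ηm = -ηp`: `0`; in both cases `‖ηp + ηm‖ ≠ √2`, so `α' = 1`.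
-/

set_option autoImplicit false

namespace H25.QP

open Complex Filter Topology Pool.Agent.H11.Selberg Pool.Agent.H11.SC Pool.Agent.H39.Pol Pool.Agent.H11.SC6

private theorem casb_norm (c : ℝ) (hc : 0 < c) (θ : ℝ) : ‖((c : ℝ) : ℂ) ^ (-(θ * I))‖ = 1 := by
  have h1 := norm_cpow_I c hc (-θ)
  have e5 : (((-θ : ℝ) : ℂ) * I) = -((θ : ℂ) * I) := by push_cast; ring
  rw [e5] at h1
  exact h1

theorem alpha_one {b : ℕ → ℂ} {M : ℕ} {θ : ℝ} {ρ ηp ηm : ℂ} (D : Dat b 8 M θ ρ ηp ηm) (α : ℂ) (hα : ‖α‖ = 1)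
    (hrel : HRel b (-α) 0) (h4 : Rel4 b α) (he : ηm = ηp ∨ ηm = -ηp) :
    α * ((2 : ℝ) : ℂ) ^ (-(θ * I)) = 1 := by
  obtain ⟨t, ht⟩ : ∃ t : ℂ, t = ((2 : ℝ) : ℂ) ^ (-(θ * I)) := ⟨_, rfl⟩
  have htn : ‖t‖ = 1 := by
    rw [ht]
    exact casb_norm 2 (by norm_num) θ
  have h2c : ((2 : ℝ) : ℂ) ≠ 0 := by norm_num
  -- the value at 1/2
  have hh := cl_half α hrel D.zero
  rw [← ht] at hh ⊢
  obtain ⟨κ, hκ⟩ : ∃ κ : ℂ, κ = ((2 : ℕ) : ℂ) ^ (-(1 + 2 * θ * I) : ℂ) := ⟨_, rfl⟩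
  have hκn : ‖κ‖ = 1 / 2 := by
    have h1 : κ = ((2 : ℝ) : ℂ) ^ (-(1 + 2 * θ * I) : ℂ) := by
      rw [hκ]
      norm_num
    rw [h1, norm_cpow_eq_rpow_re_of_pos (by norm_num)]
    simp
    norm_num
  have hκ0 : κ ≠ 0 := by
    intro h0
    rw [h0, norm_zero] at hκn
    norm_num at hκn
  obtain ⟨x, hx⟩ : ∃ x : ℂ, x = (α * t - 1) / κ := ⟨_, rfl⟩
  have hxn : ‖x‖ = 2 * ‖α * t - 1‖ := by
    rw [hx, norm_div, hκn]
    ring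
  have hP1 : Plus b M θ ρ 1 2 x := by
    unfold Plus
    have e1 : ρ * x * ((2 : ℕ) : ℂ) ^ (-(1 + 2 * θ * I) : ℂ) = ρ * (α * t - 1) := by
      rw [← hκ, hx]
      field_simp
    have e2 : ((1 : ℤ) : ℝ) / ((2 : ℕ) : ℝ) = 1 / 2 := by norm_num
    rw [e1, e2]
    exact hh
  have hP2 : Plus b M θ ρ (-1) 2 x := by
    have h1 := plus_per (b := b) (M := M) (θ := θ) (ρ := ρ) 1 2 (by norm_num) x (-1) hP1
    norm_num at h1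
    exact h1
  have hM1 := rule1 D (by norm_num) 2 1 (by norm_num) (by norm_num) (by norm_num) x (by
    have e : (2 : ℤ).sign * ((1 : ℕ) : ℤ) = 1 := rfl
    rw [e]
    exact hP1)
  have hM2 := rule1 D (by norm_num) (-2) 1 (by norm_num) (by norm_num) (by norm_num) x (by
    have e : (-2 : ℤ).sign * ((1 : ℕ) : ℤ) = -1 := rfl
    rw [e]
    exact hP2)
  unfold Minus at hM1 hM2
  obtain ⟨w, hw⟩ : ∃ w : ℂ, w = ((Real.sqrt (8 : ℕ) / (8 * 1 : ℕ) : ℝ) : ℂ) *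
    ((((8 * 1 : ℕ) : ℝ) ^ 2 / (8 : ℕ) : ℝ) : ℂ) ^ (θ * I) := ⟨_, rfl⟩
  have hR1 := RR.of_minus hM1
  have hR2 := RR.of_minus hM2
  have hR := hR1.add hR2
  -- the other side
  have hZ : RR (fun y : ℝ => gs b 3 (y : ℂ)) M θ ρ 0 := by
    refine (RR.of_plus D.zero).congr fun y _ => ?_
    simp
  have hZ2 := (hZ.scale 2 (by norm_num)).smul (-16 * α)
  have hZ4 := (hZ.scale 4 (by norm_num)).smul (256 * α ^ 2)
  have hZs := hZ2.add hZ4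
  have hRR : RR (fun y : ℝ => gs b 3 (y + ((((2 : ℤ) : ℝ) / ((8 * 1 : ℕ) : ℝ) : ℝ) : ℂ) * I) +
      gs b 3 (y + ((((-2 : ℤ) : ℝ) / ((8 * 1 : ℕ) : ℝ) : ℝ) : ℂ) * I)) M θ
      (-16 * α * (ρ * ((2 : ℝ) : ℂ) ^ (-(4 + θ * I))) + 256 * α ^ 2 * (ρ * ((4 : ℝ) : ℂ) ^ (-(4 + θ * I))))
      (-16 * α * (0 * ((2 : ℝ) : ℂ) ^ (-(4 - θ * I))) + 256 * α ^ 2 * (0 * ((4 : ℝ) : ℂ) ^ (-(4 - θ * I)))) := by
    refine hZs.congr fun y hy => ?_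
    have h5 := h4 (y : ℂ) (by simpa using hy)
    have e1 : ((((2 : ℤ) : ℝ) / ((8 * 1 : ℕ) : ℝ) : ℝ) : ℂ) = ((1 / 4 : ℝ) : ℂ) := by
      norm_num
    have e2 : ((((-2 : ℤ) : ℝ) / ((8 * 1 : ℕ) : ℝ) : ℝ) : ℂ) = ((-1 / 4 : ℝ) : ℂ) := by
      norm_num
    rw [e1, e2, h5]
    push_cast
    ring
  have hun := hR.unique_sum hRR
  -- the constants
  have e2 : ((2 : ℝ) : ℂ) ^ (-(4 + θ * I)) = t / 16 := by
    have h1 : (-(4 + θ * I) : ℂ) = -((4 : ℕ) : ℂ) + -(θ * I) := by push_cast; ring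
    rw [h1, cpow_add _ _ h2c, cpow_neg, cpow_natCast, ← ht]
    norm_num
    ring
  have e4 : ((4 : ℝ) : ℂ) ^ (-(4 + θ * I)) = t ^ 2 / 256 := by
    have h1 : ((4 : ℝ) : ℂ) = ((2 : ℝ) : ℂ) * ((2 : ℝ) : ℂ) := by norm_num
    rw [h1, mul_cpow_ofReal_nonneg (by norm_num) (by norm_num), e2]
    ring
  rw [e2, e4] at hun
  have hv : -16 * α * (ρ * (t / 16)) + 256 * α ^ 2 * (ρ * (t ^ 2 / 256)) = ρ * ((α * t) * (α * t - 1)) := by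
    ring
  rw [hv] at hun
  have hif1 : (if (0 : ℤ) < 2 then ηp else ηm) = ηp := if_pos (by norm_num)
  have hif2 : (if (0 : ℤ) < -2 then ηp else ηm) = ηm := if_neg (by norm_num)
  rw [hif1, hif2] at hun
  have hfin : (starRingEnd ℂ) ρ * ((ηp + ηm) * (starRingEnd ℂ) x) * w = ρ * ((α * t) * (α * t - 1)) := by
    rw [hw]
    linear_combination hun
  have hn := congrArg norm hfin
  have hwn : ‖w‖ = Real.sqrt 8 / 8 := by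
    rw [hw, norm_mul, Complex.norm_real]
    have h1 : ‖((((8 * 1 : ℕ) : ℝ) ^ 2 / (8 : ℕ) : ℝ) : ℂ) ^ (θ * I)‖ = 1 := norm_cpow_I _ (by norm_num) θ
    rw [h1, mul_one, Real.norm_of_nonneg (by positivity)]
    norm_num
  have hρ : 0 < ‖ρ‖ := norm_pos_iff.2 D.rho0
  have hαt : ‖α * t‖ = 1 := by rw [norm_mul, hα, htn, mul_one]
  rw [norm_mul, norm_mul, norm_mul, norm_mul, norm_mul, hwn, hαt, one_mul, RCLike.norm_conj, RCLike.norm_conj, hxn] at hn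
  by_contra hne
  have hpos : 0 < ‖α * t - 1‖ := norm_pos_iff.2 (sub_ne_zero.2 hne)
  have h5 : ‖ηp + ηm‖ * Real.sqrt 8 = 4 := by
    have h6 : (‖ρ‖ * ‖α * t - 1‖) * (‖ηp + ηm‖ * Real.sqrt 8) = (‖ρ‖ * ‖α * t - 1‖) * 4 := by
      linear_combination 4 * hn
    exact mul_left_cancel₀ (mul_pos hρ hpos).ne' h6
  have h8 : Real.sqrt 8 ^ 2 = 8 := Real.sq_sqrt (by norm_num)
  rcases he with h6 | h6
  · rw [h6, ← two_mul, norm_mul, D.hp] at h5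
    have h7 : Real.sqrt 8 = 2 := by
      norm_num at h5
      linarith
    rw [h7] at h8
    norm_num at h8
  · rw [h6, add_neg_cancel, norm_zero, zero_mul] at h5
    norm_num at h5

end H25.QP
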