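import Pool.Agent.H25.QP.Prm8

/-!
# QP-CLS8: the elements with a pole, degree `2`, integer conductor at most `8`
-/

set_option autoImplicit false

namespace H25.QP

open Complex Pool.Agent.H11.Selberg Pool.Agent.H39.Pol Pool.Agent.H11.SC7 Pool.Agent.H11.SC6

/-- `F` with a pole at `s = 1`, degree `2`, integer conductor `N ≤ 8`: `F(s) = ζ(s) L(s + iτ, χ)`, `χ` primitive modulo `N` -/
theorem pole_factor8 (a : ℕ → ℂ) (F : ℂ → ℂ) (hS : IsSelberg a F)
    (hpole : ¬ ∃ G : ℂ → ℂ, Differentiable ℂ G ∧ ∀ s, s ≠ 1 → G s = F s)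
    (Q : ℝ) (r : ℕ) (lam : Fin r → ℝ) (mu : Fin r → ℂ) (ε : ℂ)
    (hQ : 0 < Q) (hlam : ∀ j, 0 < lam j) (hmu : ∀ j, 0 ≤ (mu j).re) (hε : ‖ε‖ = 1)
    (hfe : ∀ s : ℂ, 0 < s.re → s.re < 1 →
      completed Q lam mu F s =
        ε * (starRingEnd ℂ) (completed Q lam mu F (1 - (starRingEnd ℂ) s)))
    (hdeg : 2 * ∑ j, lam j = 2) (N : ℕ) (hN : N ≤ 8)
    (hcond : (2 * Real.pi) ^ 2 * Q ^ 2 * ∏ j, (lam j) ^ (2 * lam j) = N) :
    ∃ (_ : NeZero N) (χ : DirichletCharacter ℂ N) (τ : ℝ), χ.IsPrimitive ∧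
      (χ ≠ 1 ∨ (N = 1 ∧ τ = 0)) ∧
      ∀ s : ℂ, 1 < s.re → F s = riemannZeta s * χ.LFunction (s + τ * I) := by
  have hN0 : N ≠ 0 := by
    rintro rfl
    have h1 : 0 < (2 * Real.pi) ^ 2 * Q ^ 2 * ∏ j, (lam j) ^ (2 * lam j) := by
      have h2 : 0 < ∏ j, (lam j) ^ (2 * lam j) :=
        Finset.prod_pos (fun j _ => Real.rpow_pos_of_pos (hlam j) _)
      have := Real.pi_pos
      positivity
    rw [hcond] at h1
    norm_num at h1
  haveI : NeZero N := ⟨hN0⟩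
  refine ⟨inferInstance, ?_⟩
  have hcases : (N = 1 ∨ N = 2 ∨ N = 3 ∨ N = 4) ∨ (N = 5 ∨ N = 6 ∨ N = 7) ∨ N = 8 := by omega
  rcases hcases with h | h | h
  · obtain ⟨τ, h2, h1, hc⟩ := pole_coeff a F hS hpole Q r lam mu ε hQ hlam hmu hε hfe hdeg N h hcond
    rcases h with rfl | rfl | rfl | rfl
    · have hτ := h1 rfl
      subst hτ
      refine ⟨1, 0, DirichletCharacter.isPrimitive_one_level_one, Or.inr ⟨rfl, rfl⟩, ?_⟩
      exact factor_zeta_L a F hS (1 : DirichletCharacter ℂ 1) 0 (fun p hp k => by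
        rw [hc p hp k]
        refine Finset.sum_congr rfl (fun i _ => ?_)
        congr 2
        unfold chq
        rw [if_pos rfl]
        have h1 : ((p : ℕ) : ZMod 1) = 1 := Subsingleton.elim _ _
        rw [h1, map_one])
    · exact absurd rfl h2
    · obtain ⟨χ, hχ, hχc⟩ := chi3_exists
      exact ⟨χ, τ, prime_primitive Nat.prime_three χ hχ, Or.inl hχ,
        factor_zeta_L a F hS χ τ (fun p hp k => by rw [hc p hp k, hχc p hp])⟩
    · obtain ⟨χ, hχ, hχp, hχc⟩ := chi4_exists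
      exact ⟨χ, τ, hχp, Or.inl hχ,
        factor_zeta_L a F hS χ τ (fun p hp k => by rw [hc p hp k, hχc p hp])⟩
  · obtain ⟨τ, χ, h6, hχ, hc⟩ :=
      pole_coeff567 a F hS hpole Q r lam mu ε hQ hlam hmu hε hfe hdeg N h hcond
    have hp : N.Prime := by
      rcases h with rfl | rfl | rfl
      · norm_num
      · exact absurd rfl h6
      · norm_num
    exact ⟨χ, τ, prime_primitive hp χ hχ, Or.inl hχ, factor_zeta_L a F hS χ τ hc⟩
  · subst h
    obtain ⟨τ, χ, h1, h2, hc⟩ := pole_coeff8 a F hS hpole Q r lam mu ε hQ hlam hmu hε hfe hdeg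
      (by rw [hcond]; norm_num)
    exact ⟨χ, τ, h2, Or.inl h1, factor_zeta_L a F hS χ τ hc⟩

end H25.QP
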