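import Pool.Agent.H25.QP.Df

/-!
# QP-D8: the data for `q = 8`; the rest of the proof (arithmetic) uses only this structure
-/

set_option autoImplicit false

namespace H25.QP

open Complex Filter Topology Pool.Agent.H11.Selberg Pool.Agent.H11.SC Pool.Agent.H39.Pol Pool.Agent.H11.SC6

/-- `Dat` together with the parabolic step at `1/2` and the values at `3/8`, `5/8` -/
structure Dat8 (b : ℕ → ℂ) (M : ℕ) (θ : ℝ) (ρ ηp ηm e : ℂ) : Prop where
  dat : Dat b 8 M θ ρ ηp ηm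
  he : e * e = 1
  hη : ηm = ηp * e
  par : ∀ (β τ s : ℝ) (v : ℂ), (s = 1 ∨ s = -1) → β ≠ 0 → 1 + 8 * s * β ≠ 0 →
    CL (gs b 3) M (4 + τ * I) (1 / 2 + β) v →
    CL (gs b 3) M (4 + τ * I) (1 / 2 + β / (1 + 8 * s * β))
      (-((if 0 < 1 + 8 * s * β then 1 else e) * ((|1 / (1 + 8 * s * β)| : ℝ) : ℂ) *
        (((1 / (1 + 8 * s * β)) ^ 2 : ℝ) : ℂ) ^ (τ * I) * v))
  five : Minus b 8 M θ ρ 5 8 (-ηp)
  three : Minus b 8 M θ ρ 3 8 (-ηm)

end H25.QP
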