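import Pool.Agent.H11.SC6.DatV
import Pool.Agent.H11.SC6.Con5

/-!
# QP-DF: conductor `8` with a pole (definitions)

`ξ = -iz`, `f ξ = gs b 3 ξ`, inversion `f(ξ) ≈ ω ((√8 ξ)^7)⁻¹ conj (f (1/(8 conj ξ)))` (`Inv2`, `StepR`; `ω = ωp` for `Im ξ ≥ 0`, `ωm` for `Im ξ ≤ 0`),
`ηp = I ωp`, `ηm = -(I ωm)`.  Euler factor at `2`: `1/(1 - α X)`, `|α| = 1`: `HRel b (-α) 0`:
`f(ξ + i/2) = -f(ξ) + 16 α f(2ξ)`.
`fh ξ = f(ξ + i/2)`, `dh ξ = f(ξ + i/2) - f(ξ)`; `dh (ξ + i/2) = -dh ξ`.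
`Near f g ω β`: `f(ξ) ≈ ω ((4ξ)^7)⁻¹ conj (g (1/(16 conj ξ)))` for `ξ` close to `iβ`, error `O((Re ξ)^(-13/4))`.
-/

set_option autoImplicit false

namespace H25.QP

open Complex Filter Topology Pool.Agent.H11.Selberg Pool.Agent.H11.SC Pool.Agent.H39.Pol Pool.Agent.H11.SC6

/-- the function near the cusp `1/2` -/
noncomputable def fh (b : ℕ → ℂ) (ξ : ℂ) : ℂ := gs b 3 (ξ + ((1 / 2 : ℝ) : ℂ) * I)

/-- the difference -/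
noncomputable def dh (b : ℕ → ℂ) (ξ : ℂ) : ℂ := gs b 3 (ξ + ((1 / 2 : ℝ) : ℂ) * I) - gs b 3 ξ

/-- approximate inversion of modulus `16` from `g` to `f` near `iβ` -/
def Near (f g : ℂ → ℂ) (ω : ℂ) (β : ℝ) : Prop :=
  ∃ C : ℝ, 0 ≤ C ∧ ∀ᶠ ξ in 𝓝 ((β : ℂ) * I), 0 < ξ.re →
    ‖f ξ - ω * ((((Real.sqrt 16 : ℝ) : ℂ) * ξ) ^ 7)⁻¹ *
      (starRingEnd ℂ) (g (1 / (((16 : ℝ) : ℂ) * (starRingEnd ℂ) ξ)))‖ ≤ C * ξ.re ^ (-(13 / 4) : ℝ)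

theorem dh_half (b : ℕ → ℂ) (ξ : ℂ) : dh b (ξ + ((1 / 2 : ℝ) : ℂ) * I) = -dh b ξ := by
  unfold dh
  have h1 : ξ + ((1 / 2 : ℝ) : ℂ) * I + ((1 / 2 : ℝ) : ℂ) * I = ξ + I := by
    push_cast
    ring
  rw [h1, gs_per]
  ring

theorem dh_half' (b : ℕ → ℂ) (ξ : ℂ) : dh b (ξ - ((1 / 2 : ℝ) : ℂ) * I) = -dh b ξ := by
  have h := dh_half b (ξ - ((1 / 2 : ℝ) : ℂ) * I)
  rw [sub_add_cancel] at h
  rw [h, neg_neg]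

theorem CL.congr' {f g : ℂ → ℂ} {M : ℕ} {κ : ℂ} {β : ℝ} {v : ℂ} (h : CL f M κ β v)
    (hfg : ∀ ξ : ℂ, 0 < ξ.re → f ξ = g ξ) : CL g M κ β v := by
  intro R hR
  refine (h R hR).congr' ?_
  filter_upwards [self_mem_nhdsWithin] with ξ hξ
  rw [hfg ξ hξ.1]

theorem CL.smul' {f : ℂ → ℂ} {M : ℕ} {κ : ℂ} {β : ℝ} {v : ℂ} (h : CL f M κ β v) (c : ℂ) :
    CL (fun ξ => c * f ξ) M κ β (c * v) := by
  intro R hR
  refine ((h R hR).const_mul c).congr (fun ξ => ?_)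
  ring

theorem CL.add' {f g : ℂ → ℂ} {M : ℕ} {κ : ℂ} {β : ℝ} {v w : ℂ} (h : CL f M κ β v) (h' : CL g M κ β w) :
    CL (fun ξ => f ξ + g ξ) M κ β (v + w) := by
  intro R hR
  refine ((h R hR).add (h' R hR)).congr (fun ξ => ?_)
  ring

/-- `D(ξ + i/2) = -D(ξ)` at the cusps -/
theorem CL.dh_add {b : ℕ → ℂ} {M : ℕ} {κ : ℂ} {β : ℝ} {v : ℂ} (h : CL (dh b) M κ β v) :
    CL (dh b) M κ (β + 1 / 2) (-v) := by
  have h1 : CL (fun ξ => dh b (ξ + ((1 / 2 : ℝ) : ℂ) * I)) M κ β (-v) := by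
    have h2 := CL.smul' h (-1)
    rw [neg_one_mul] at h2
    refine CL.congr' h2 (fun ξ _ => ?_)
    rw [dh_half]
    ring
  have h3 := CL.unshift h1
  have e : 1 / 2 + β = β + 1 / 2 := by ring
  rw [e] at h3
  exact h3

theorem CL.dh_sub {b : ℕ → ℂ} {M : ℕ} {κ : ℂ} {β : ℝ} {v : ℂ} (h : CL (dh b) M κ β v) :
    CL (dh b) M κ (β - 1 / 2) (-v) := by
  have h1 : CL (fun ξ => dh b (ξ + ((-(1 / 2) : ℝ) : ℂ) * I)) M κ β (-v) := by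
    have h2 := CL.smul' h (-1)
    rw [neg_one_mul] at h2
    refine CL.congr' h2 (fun ξ _ => ?_)
    have e : ξ + ((-(1 / 2) : ℝ) : ℂ) * I = ξ - ((1 / 2 : ℝ) : ℂ) * I := by
      push_cast
      ring
    rw [e, dh_half']
    ring
  have h3 := CL.unshift h1
  have e : -(1 / 2) + β = β - 1 / 2 := by ring
  rw [e] at h3
  exact h3

end H25.QP
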