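import Pool.Agent.H25.QP.Df

/-!
# QP-NI: the inverse of an approximate inversion

Put `ξ = 1/(16 conj ζ)` (`ζ` near `i/(16β)`, `ξ` near `iβ`; the map is continuous at `i/(16β)` and `Re ξ = Re ζ/(16 ‖ζ‖²) > 0`).  The hypothesis at `ξ`,
`conj ζ = 1/(16 ξ)`, `ζ = 1/(16 conj ξ)`, `√16 = 4`: `‖f ξ - ω ((4ξ)^7)⁻¹ conj (g ζ)‖ ≤ C (Re ξ)^(-13/4)`.  Conjugate and multiply by `(conj ω)⁻¹ (4 conj ξ)^7`:
`‖g ζ - (conj ω)⁻¹ (4 conj ξ)^7 conj (f ξ)‖ ≤ C ‖ω‖⁻¹ ‖4ξ‖^7 (Re ξ)^(-13/4)`, `4 conj ξ = 1/(4 ζ)`, so `(4 conj ξ)^7 = ((4ζ)^7)⁻¹`; `‖4ξ‖^7` is bounded and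
`(Re ξ)^(-13/4) = (16‖ζ‖²)^(13/4) (Re ζ)^(-13/4) ≤ C' (Re ζ)^(-13/4)`.
-/

set_option autoImplicit false

namespace H25.QP

open Complex Filter Topology Pool.Agent.H11.Selberg Pool.Agent.H11.SC Pool.Agent.H39.Pol Pool.Agent.H11.SC6

theorem near_inv {f g : ℂ → ℂ} {ω : ℂ} {β : ℝ} (hω : ω ≠ 0) (hβ : β ≠ 0) (h : Near f g ω β) :
    Near g f ((starRingEnd ℂ) ω)⁻¹ (1 / (16 * β)) := by
  obtain ⟨C, hC, hev⟩ := h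
  have h4 : Real.sqrt 16 = 4 := by
    rw [show (16 : ℝ) = 4 ^ 2 by norm_num]
    exact Real.sqrt_sq (by norm_num)
  obtain ⟨ζ0, hζ0⟩ : ∃ ζ0 : ℂ, ζ0 = ((1 / (16 * β) : ℝ) : ℂ) * I := ⟨_, rfl⟩
  have hβc : (β : ℂ) ≠ 0 := by exact_mod_cast hβ
  have hne : ζ0 ≠ 0 := by
    rw [hζ0]
    refine mul_ne_zero ?_ I_ne_zero
    push_cast
    exact div_ne_zero one_ne_zero (mul_ne_zero (by norm_num) hβc)
  have hI : I * I = -1 := Complex.I_mul_I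
  have hinv : Tendsto (fun ζ : ℂ => 1 / (((16 : ℝ) : ℂ) * (starRingEnd ℂ) ζ)) (𝓝 ζ0) (𝓝 ((β : ℂ) * I)) := by
    have h1 : (β : ℂ) * I = 1 / (((16 : ℝ) : ℂ) * (starRingEnd ℂ) ζ0) := by
      rw [hζ0, map_mul, Complex.conj_ofReal, Complex.conj_I]
      push_cast
      field_simp
      linear_combination hI
    rw [h1]
    have hcne : ((16 : ℝ) : ℂ) * (starRingEnd ℂ) ζ0 ≠ 0 :=
      mul_ne_zero (by norm_num) ((map_ne_zero _).2 hne)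
    exact (tendsto_const_nhds.div (tendsto_const_nhds.mul (Complex.continuous_conj.tendsto ζ0)) hcne)
  obtain ⟨F, hF⟩ : ∃ F : ℂ → ℝ, F = fun ζ => ‖ω‖⁻¹ * ‖(4 * ζ) ^ 7‖⁻¹ * (C * (16 * ‖ζ‖ ^ 2) ^ (13 / 4 : ℝ)) :=
    ⟨_, rfl⟩
  have hFc : ContinuousAt F ζ0 := by
    rw [hF]
    have h1 : ContinuousAt (fun ζ : ℂ => ‖(4 * ζ) ^ 7‖⁻¹) ζ0 := by
      refine ContinuousAt.inv₀ (by fun_prop) ?_
      exact norm_ne_zero_iff.2 (pow_ne_zero _ (mul_ne_zero (by norm_num) hne))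
    have h2 : ContinuousAt (fun ζ : ℂ => (16 * ‖ζ‖ ^ 2) ^ (13 / 4 : ℝ)) ζ0 := by
      refine ContinuousAt.rpow_const (by fun_prop) (Or.inr (by norm_num))
    exact (continuousAt_const.mul h1).mul (continuousAt_const.mul h2)
  have hF0 : 0 ≤ F ζ0 := by
    rw [hF]
    positivity
  refine ⟨F ζ0 + 1, by linarith, ?_⟩
  rw [← hζ0]
  filter_upwards [hinv.eventually hev, hFc.eventually_lt_const (lt_add_one (F ζ0))] with ζ h1 h2 hre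
  have hz : ζ ≠ 0 := by
    intro h0
    rw [h0, Complex.zero_re] at hre
    exact lt_irrefl _ hre
  have hn : 0 < ‖ζ‖ := norm_pos_iff.2 hz
  have hcz : (starRingEnd ℂ) ζ ≠ 0 := (map_ne_zero _).2 hz
  obtain ⟨ξ, hξ⟩ : ∃ ξ : ℂ, ξ = 1 / (((16 : ℝ) : ℂ) * (starRingEnd ℂ) ζ) := ⟨_, rfl⟩
  rw [← hξ] at h1 ⊢
  have hnc : (‖ζ‖ : ℂ) ≠ 0 := by exact_mod_cast hn.ne'
  have hξ1 : ξ = ((1 / (16 * ‖ζ‖ ^ 2) : ℝ) : ℂ) * ζ := by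
    have h5 : ζ * (starRingEnd ℂ) ζ = (‖ζ‖ : ℂ) ^ 2 := Complex.mul_conj' ζ
    rw [hξ]
    push_cast
    field_simp
    linear_combination -h5
  have hξre : ξ.re = ζ.re / (16 * ‖ζ‖ ^ 2) := by
    rw [hξ1, Complex.re_ofReal_mul]
    ring
  have hξpos : 0 < ξ.re := by
    rw [hξre]
    positivity
  have hcξ : (starRingEnd ℂ) ξ = 1 / (16 * ζ) := by
    rw [hξ, map_div₀, map_one, map_mul, Complex.conj_conj, Complex.conj_ofReal]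
    push_cast
    rfl
  have hback : 1 / (((16 : ℝ) : ℂ) * (starRingEnd ℂ) ξ) = ζ := by
    rw [hcξ]
    push_cast
    field_simp
  have h3 := h1 hξpos
  rw [hback, h4] at h3
  rw [h4]
  have hcω : (starRingEnd ℂ) ω ≠ 0 := (map_ne_zero _).2 hω
  have hid : g ζ - ((starRingEnd ℂ) ω)⁻¹ * ((((4 : ℝ) : ℂ) * ζ) ^ 7)⁻¹ * (starRingEnd ℂ) (f ξ) =
      -(((starRingEnd ℂ) ω)⁻¹ * ((4 * ζ) ^ 7)⁻¹) * (starRingEnd ℂ) (f ξ - ω * ((((4 : ℝ) : ℂ) * ξ) ^ 7)⁻¹ *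
        (starRingEnd ℂ) (g ζ)) := by
    rw [map_sub, map_mul, map_mul, map_inv₀, map_pow, map_mul, Complex.conj_conj, Complex.conj_ofReal, hcξ]
    push_cast
    field_simp
    ring
  rw [hid, norm_mul, norm_neg, norm_mul, norm_inv, norm_inv, Complex.norm_conj, Complex.norm_conj]
  have h5 : ξ.re ^ (-(13 / 4) : ℝ) = (16 * ‖ζ‖ ^ 2) ^ (13 / 4 : ℝ) * ζ.re ^ (-(13 / 4) : ℝ) := by
    rw [hξre, Real.div_rpow hre.le (by positivity), Real.rpow_neg (show 0 ≤ 16 * ‖ζ‖ ^ 2 by positivity),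
      div_inv_eq_mul, mul_comm]
  rw [h5] at h3
  calc ‖ω‖⁻¹ * ‖(4 * ζ) ^ 7‖⁻¹ * ‖f ξ - ω * ((((4 : ℝ) : ℂ) * ξ) ^ 7)⁻¹ * (starRingEnd ℂ) (g ζ)‖
      ≤ ‖ω‖⁻¹ * ‖(4 * ζ) ^ 7‖⁻¹ * (C * ((16 * ‖ζ‖ ^ 2) ^ (13 / 4 : ℝ) * ζ.re ^ (-(13 / 4) : ℝ))) :=
        mul_le_mul_of_nonneg_left h3 (by positivity)
    _ = F ζ * ζ.re ^ (-(13 / 4) : ℝ) := by
        rw [hF]
        ring
    _ ≤ (F ζ0 + 1) * ζ.re ^ (-(13 / 4) : ℝ) :=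
        mul_le_mul_of_nonneg_right h2.le (Real.rpow_nonneg hre.le _)

end H25.QP
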