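import Pool.Agent.H25.QP.Nr
import Pool.Agent.H25.QP.Ni

/-!
# QP-NA: the inversions of modulus `16` at every `iβ`, `β ≠ 0`

`|β| ≤ 1/2`: `near_one`, `near_two`.  `|β| > 1/2`: `β' = 1/(16β)` has the same sign, `|β'| < 1/8`; `near_inv` (Ni) for `near_two` (resp. `near_one`) at `β'`
(`1/(16 β') = β`), and `(conj ω')⁻¹`: `ω' = -(α √2) ω`: `(conj ω')⁻¹ = -(α/√2) ω` (`‖α‖ = ‖ω‖ = 1`, `(conj z)⁻¹ = z` for `‖z‖ = 1`), resp. `ω' = -(α/√2) ω`: `-(α √2) ω`.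
-/

set_option autoImplicit false

namespace H25.QP

open Complex Filter Topology Pool.Agent.H11.Selberg Pool.Agent.H11.SC Pool.Agent.H39.Pol Pool.Agent.H11.SC6

private theorem na_sqrt {z : ℂ} (hz : ‖z‖ = 1) : ((starRingEnd ℂ) z)⁻¹ = z := by
  have h1 : z * (starRingEnd ℂ) z = 1 := by
    rw [Complex.mul_conj', hz]
    norm_num
  exact inv_eq_of_mul_eq_one_left h1

private theorem na_pos {β : ℝ} : (0 < 1 / (16 * β)) ↔ 0 < β := by
  rw [one_div, inv_pos]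
  constructor
  · intro h
    linarith
  · intro h
    linarith

private theorem na_beta {β : ℝ} (hβ1 : ¬ |β| ≤ 1 / 2) : |1 / (16 * β)| ≤ 1 / 2 := by
  push Not at hβ1
  rw [abs_div, abs_one, abs_mul, abs_of_pos (show (0 : ℝ) < 16 by norm_num), div_le_div_iff₀ (by linarith) (by norm_num)]
  linarith

theorem near_one_all {b : ℕ → ℂ} {sq : ℝ} {M : ℕ} {θ : ℝ} {ωp ωm : ℂ} {Rp Rm : Polynomial ℂ} {C : ℝ}
    (h : Inv2 b sq M θ ωp ωm Rp Rm C) (hsq : sq ^ 2 = 8) (α : ℂ) (hα : ‖α‖ = 1) (hrel : HRel b (-α) 0)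
    (β : ℝ) (hβ : β ≠ 0) :
    Near (fh b) (dh b) (-(α / ((Real.sqrt 2 : ℝ) : ℂ)) * (if 0 < β then ωp else ωm)) β := by
  by_cases hβ1 : |β| ≤ 1 / 2
  · exact near_one h hsq α hα hrel β hβ hβ1
  · have hβ' : 1 / (16 * β) ≠ 0 := div_ne_zero one_ne_zero (mul_ne_zero (by norm_num) hβ)
    have h1 := near_two h hsq α hα hrel (1 / (16 * β)) hβ' (na_beta hβ1)
    simp only [na_pos] at h1
    obtain ⟨w, hw⟩ : ∃ w : ℂ, w = if 0 < β then ωp else ωm := ⟨_, rfl⟩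
    have hwn : ‖w‖ = 1 := by
      rw [hw]
      split_ifs
      · exact h.hp
      · exact h.hm
    rw [← hw] at h1 ⊢
    have hs : ((Real.sqrt 2 : ℝ) : ℂ) ≠ 0 := by
      have : Real.sqrt 2 ≠ 0 := (Real.sqrt_pos.2 (by norm_num)).ne'
      exact_mod_cast this
    have hα0 : α ≠ 0 := norm_ne_zero_iff.1 (by rw [hα]; exact one_ne_zero)
    have hw0 : w ≠ 0 := norm_ne_zero_iff.1 (by rw [hwn]; exact one_ne_zero)
    have h2 := near_inv (mul_ne_zero (neg_ne_zero.2 (mul_ne_zero hα0 hs)) hw0) hβ' h1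
    have e1 : 1 / (16 * (1 / (16 * β))) = β := by
      field_simp
    have e2 : ((starRingEnd ℂ) (-(α * ((Real.sqrt 2 : ℝ) : ℂ)) * w))⁻¹ = -(α / ((Real.sqrt 2 : ℝ) : ℂ)) * w := by
      rw [map_mul, map_neg, map_mul, Complex.conj_ofReal, mul_inv, inv_neg, mul_inv, na_sqrt hα, na_sqrt hwn]
      rfl
    rw [e1, e2] at h2
    exact h2

theorem near_two_all {b : ℕ → ℂ} {sq : ℝ} {M : ℕ} {θ : ℝ} {ωp ωm : ℂ} {Rp Rm : Polynomial ℂ} {C : ℝ}
    (h : Inv2 b sq M θ ωp ωm Rp Rm C) (hsq : sq ^ 2 = 8) (α : ℂ) (hα : ‖α‖ = 1) (hrel : HRel b (-α) 0)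
    (β : ℝ) (hβ : β ≠ 0) :
    Near (dh b) (fh b) (-(α * ((Real.sqrt 2 : ℝ) : ℂ)) * (if 0 < β then ωp else ωm)) β := by
  by_cases hβ1 : |β| ≤ 1 / 2
  · exact near_two h hsq α hα hrel β hβ hβ1
  · have hβ' : 1 / (16 * β) ≠ 0 := div_ne_zero one_ne_zero (mul_ne_zero (by norm_num) hβ)
    have h1 := near_one h hsq α hα hrel (1 / (16 * β)) hβ' (na_beta hβ1)
    simp only [na_pos] at h1
    obtain ⟨w, hw⟩ : ∃ w : ℂ, w = if 0 < β then ωp else ωm := ⟨_, rfl⟩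
    have hwn : ‖w‖ = 1 := by
      rw [hw]
      split_ifs
      · exact h.hp
      · exact h.hm
    rw [← hw] at h1 ⊢
    have hs : ((Real.sqrt 2 : ℝ) : ℂ) ≠ 0 := by
      have : Real.sqrt 2 ≠ 0 := (Real.sqrt_pos.2 (by norm_num)).ne'
      exact_mod_cast this
    have hα0 : α ≠ 0 := norm_ne_zero_iff.1 (by rw [hα]; exact one_ne_zero)
    have hw0 : w ≠ 0 := norm_ne_zero_iff.1 (by rw [hwn]; exact one_ne_zero)
    have h2 := near_inv (mul_ne_zero (neg_ne_zero.2 (div_ne_zero hα0 hs)) hw0) hβ' h1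
    have e1 : 1 / (16 * (1 / (16 * β))) = β := by
      field_simp
    have e2 : ((starRingEnd ℂ) (-(α / ((Real.sqrt 2 : ℝ) : ℂ)) * w))⁻¹ = -(α * ((Real.sqrt 2 : ℝ) : ℂ)) * w := by
      rw [map_mul, map_neg, map_div₀, Complex.conj_ofReal, mul_inv, inv_neg, div_eq_mul_inv, mul_inv, inv_inv,
        na_sqrt hα, na_sqrt hwn]
    rw [e1, e2] at h2
    exact h2

end H25.QP
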