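import Pool.Agent.H25.QP.Df

/-!
# QP-NR: the inversions of modulus `16` near `iβ`

`ω = ωp` if `β > 0`, `ω = ωm` if `β < 0`; `sq = √8`; `f = gs b 3`, `f* = gs (cj b) 3`.
`near_one`, `near_two`: see `vhalf`/`vh_core`/`vh_step` (`Pool/Agent/H11/SC6/VHalf.lean`; only `m = 1, 2`, `c2 = 0`).  `ξ` near `iβ`, `0 < |β| ≤ 1/2`: `‖2ξ‖ ≤ 2`,
`Re (2ξ) ≤ 1`, the polar parts are bounded (hence `≤ C (Re ξ)^(-13/4)`).  With `Y = ((√8 ξ)^7)⁻¹`, `ζ = 1/(16 ξ)`: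
`f(ξ) = ω Y f*(2ζ) + O`, `f(2ξ) = ω Y/128 f*(ζ) + O`.  Conjugate relation (`hrel`, `gs_conj`, `gs_per`): `f*(ζ + i/2) = -f*(ζ) + 16 conj α f*(2ζ)`,
so (`α conj α = 1`) `f*(2ζ) = (α/16)(f*(ζ + i/2) + f*(ζ))`.
(R1) `fh ξ = f(ξ + i/2) = -f(ξ) + 16 α f(2ξ) = ω Y (-f*(2ζ) + (α/8) f*(ζ)) + O = -(α/16) ω Y (f*(ζ + i/2) - f*(ζ)) + O`.
(R2) `dh ξ = f(ξ + i/2) - f(ξ) = -2 f(ξ) + 16 α f(2ξ) = ω Y (-2 f*(2ζ) + (α/8) f*(ζ)) + O = -(α/8) ω Y f*(ζ + i/2) + O`.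
`f*(ζ) = conj (f (conj ζ))`, `f*(ζ + i/2) = conj (f (conj ζ - i/2)) = conj (f (conj ζ + i/2))` (`gs_per`), `conj ζ = 1/(16 conj ξ)`; `√16 = 4`,
`Y = ((√8 ξ)^7)⁻¹ = (√2)^7 ((4 ξ)^7)⁻¹ = 8 √2 ((4 ξ)^7)⁻¹` (`4 = √2 √8`), `(α/16) 8 √2 = α/√2`, `(α/8) 8 √2 = √2 α`.
-/

set_option autoImplicit false

namespace H25.QP

open Complex Filter Topology Pool.Agent.H11.Selberg Pool.Agent.H11.SC Pool.Agent.H39.Pol Pool.Agent.H11.SC6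

private theorem nr_conj {b : ℕ → ℂ} {α : ℂ} (hrel : HRel b (-α) 0) (ζ : ℂ) (hζ : 0 < ζ.re) :
    (starRingEnd ℂ) (gs b 3 ((starRingEnd ℂ) ζ + ((1 / 2 : ℝ) : ℂ) * I)) =
      -gs (cj b) 3 ζ + 16 * (starRingEnd ℂ) α * gs (cj b) 3 (2 * ζ) := by
  rw [hrel _ (by simpa using hζ)]
  simp only [map_sub, map_neg, map_mul, gs_conj, conj_conj, Complex.conj_ofNat, map_zero]
  ring

private theorem nr_re {x : ℝ} (hx : 0 < x) {ξ : ℂ} (hξ : 0 < ξ.re) : 0 < (1 / ((x : ℂ) * ξ)).re := by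
  rw [one_div, Complex.inv_re, re_ofReal_mul]
  have h0 : (x : ℂ) * ξ ≠ 0 := by
    refine mul_ne_zero (by exact_mod_cast hx.ne') ?_
    rintro rfl
    simp at hξ
  exact div_pos (mul_pos hx hξ) (normSq_pos.2 h0)

/-- the polar part is continuous at `ix`, `x ≠ 0` -/
private theorem nr_polar (θ : ℝ) (Rr : Polynomial ℂ) (x : ℝ) (hx : x ≠ 0) :
    ContinuousAt (fun ξ : ℂ => (2 * (Real.pi : ℂ) * ξ) ^ (-(4 + θ * I) : ℂ) *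
      Rr.eval (log (2 * (Real.pi : ℂ) * ξ))) ((x : ℂ) * I) := by
  have h1 : (2 * (Real.pi : ℂ) * ((x : ℂ) * I)) ∈ slitPlane := by
    right
    have e : (2 * (Real.pi : ℂ) * ((x : ℂ) * I)) = ((2 * Real.pi * x : ℝ) : ℂ) * I := by
      push_cast
      ring
    rw [e]
    simp [Real.pi_ne_zero, hx]
  have h2 : ContinuousAt (fun ξ : ℂ => 2 * (Real.pi : ℂ) * ξ) ((x : ℂ) * I) := by fun_prop
  refine ContinuousAt.mul ?_ ?_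
  · exact h2.cpow continuousAt_const h1
  · have h3 : ContinuousAt (fun ξ : ℂ => log (2 * (Real.pi : ℂ) * ξ)) ((x : ℂ) * I) := h2.clog h1
    exact ContinuousAt.comp (g := fun z : ℂ => Rr.eval z) (Polynomial.continuous Rr).continuousAt h3

/-- the inversion at `mξ` without polar part -/
private theorem nr_step {b : ℕ → ℂ} {sq θ : ℝ} {ω : ℂ} {Rr : Polynomial ℂ} {C : ℝ} (hC : 0 ≤ C)
    (β : ℝ) (hβ : β ≠ 0) (m : ℝ) (hm : 1 ≤ m)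
    (hstep : ∀ᶠ ξ in 𝓝 ((β : ℂ) * I), 0 < ξ.re → StepR b sq θ ω Rr C ((m : ℂ) * ξ)) :
    ∃ K : ℝ, 0 ≤ K ∧ ∀ᶠ ξ in 𝓝 ((β : ℂ) * I), 0 < ξ.re →
      ‖gs b 3 ((m : ℂ) * ξ) - ω * (((sq : ℂ) * ((m : ℂ) * ξ)) ^ 7)⁻¹ *
        gs (cj b) 3 (1 / ((sq ^ 2 : ℝ) * ((m : ℂ) * ξ)))‖ ≤ K * ξ.re ^ (-(13 / 4) : ℝ) := by
  have hm0 : (0 : ℝ) < m := by linarith
  have h1 := nr_polar θ Rr (m * β) (mul_ne_zero hm0.ne' hβ)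
  set P : ℂ → ℂ := fun ξ => (2 * (Real.pi : ℂ) * ξ) ^ (-(4 + θ * I) : ℂ) *
      Rr.eval (log (2 * (Real.pi : ℂ) * ξ)) with hP
  have h2 : ContinuousAt (fun ξ : ℂ => P ((m : ℂ) * ξ)) ((β : ℂ) * I) := by
    have h3 : ContinuousAt (fun ξ : ℂ => (m : ℂ) * ξ) ((β : ℂ) * I) := by fun_prop
    refine ContinuousAt.comp (g := P) ?_ h3
    have e : (m : ℂ) * ((β : ℂ) * I) = ((m * β : ℝ) : ℂ) * I := by push_cast; ring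
    rw [e]
    exact h1
  set K0 : ℝ := ‖P ((m : ℂ) * ((β : ℂ) * I))‖ + 1 with hK0
  have h3 : ∀ᶠ ξ in 𝓝 ((β : ℂ) * I), ‖P ((m : ℂ) * ξ)‖ < K0 :=
    h2.norm.eventually (gt_mem_nhds (lt_add_one _))
  have h4 : ∀ᶠ ξ : ℂ in 𝓝 ((β : ℂ) * I), ξ.re < 1 := by
    refine (isOpen_lt Complex.continuous_re continuous_const).mem_nhds ?_
    simp
  have hK00 : 0 ≤ K0 := by positivity
  refine ⟨K0 + C, by positivity, ?_⟩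
  filter_upwards [hstep, h3, h4] with ξ h5 h6 h7 hre
  have h8 := h5 hre
  unfold StepR at h8
  set A : ℂ := gs b 3 ((m : ℂ) * ξ) - ω * (((sq : ℂ) * ((m : ℂ) * ξ)) ^ 7)⁻¹ *
        gs (cj b) 3 (1 / ((sq ^ 2 : ℝ) * ((m : ℂ) * ξ))) with hA
  have e1 : A = (gs b 3 ((m : ℂ) * ξ) - (ω * (((sq : ℂ) * ((m : ℂ) * ξ)) ^ 7)⁻¹ *
        gs (cj b) 3 (1 / ((sq ^ 2 : ℝ) * ((m : ℂ) * ξ))) + P ((m : ℂ) * ξ))) +
          P ((m : ℂ) * ξ) := by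
    rw [hA]
    ring
  have h9 : ‖A‖ ≤ C * ((m : ℂ) * ξ).re ^ (-(13 / 4) : ℝ) + K0 := by
    rw [e1]
    refine (norm_add_le _ _).trans ?_
    exact add_le_add h8 h6.le
  have h10 : ((m : ℂ) * ξ).re ^ (-(13 / 4) : ℝ) ≤ ξ.re ^ (-(13 / 4) : ℝ) := by
    rw [re_ofReal_mul]
    refine Real.rpow_le_rpow_of_nonpos hre ?_ (by norm_num)
    nlinarith
  have h11 : (1 : ℝ) ≤ ξ.re ^ (-(13 / 4) : ℝ) :=
    Real.one_le_rpow_of_pos_of_le_one_of_nonpos hre h7.le (by norm_num)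
  calc ‖A‖ ≤ C * ((m : ℂ) * ξ).re ^ (-(13 / 4) : ℝ) + K0 := h9
    _ ≤ C * ξ.re ^ (-(13 / 4) : ℝ) + K0 * ξ.re ^ (-(13 / 4) : ℝ) := by
      refine add_le_add (mul_le_mul_of_nonneg_left h10 hC) ?_
      exact le_mul_of_one_le_right hK00 h11
    _ = _ := by ring

private theorem nr_two {b : ℕ → ℂ} {sq θ : ℝ} {ω : ℂ} {Rr : Polynomial ℂ} {C : ℝ} (hC : 0 ≤ C)
    (β : ℝ) (hβ : β ≠ 0)
    (hstep : ∀ᶠ ξ in 𝓝 ((β : ℂ) * I), ∀ m : ℝ, 1 ≤ m → m ≤ 2 → 0 < ξ.re →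
      StepR b sq θ ω Rr C ((m : ℂ) * ξ)) :
    ∃ K : ℝ, 0 ≤ K ∧ ∀ᶠ ξ in 𝓝 ((β : ℂ) * I), 0 < ξ.re →
      ‖gs b 3 ξ - ω * (((sq : ℂ) * ξ) ^ 7)⁻¹ * gs (cj b) 3 (1 / ((sq ^ 2 : ℝ) * ξ))‖ ≤
        K * ξ.re ^ (-(13 / 4) : ℝ) ∧
      ‖gs b 3 (2 * ξ) - ω * ((((sq : ℂ) * ξ) ^ 7)⁻¹ / 128) *
        gs (cj b) 3 (1 / ((sq ^ 2 : ℝ) * (2 * ξ)))‖ ≤ K * ξ.re ^ (-(13 / 4) : ℝ) := by
  obtain ⟨K1, hK1, h1⟩ := nr_step (b := b) (sq := sq) (θ := θ) (ω := ω) (Rr := Rr) hC β hβ 1 le_rfl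
    (by filter_upwards [hstep] with ξ h h0 using h 1 le_rfl (by norm_num) h0)
  obtain ⟨K2, hK2, h2⟩ := nr_step (b := b) (sq := sq) (θ := θ) (ω := ω) (Rr := Rr) hC β hβ 2
    (by norm_num) (by filter_upwards [hstep] with ξ h h0 using h 2 (by norm_num) le_rfl h0)
  refine ⟨K1 + K2, by positivity, ?_⟩
  filter_upwards [h1, h2] with ξ g1 g2 hre
  specialize g1 hre
  specialize g2 hre
  have e1 : ((1 : ℝ) : ℂ) * ξ = ξ := by simp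
  have e2 : ((2 : ℝ) : ℂ) * ξ = 2 * ξ := by norm_num
  rw [e1] at g1
  rw [e2] at g2
  have q2 : (((sq : ℂ) * (2 * ξ)) ^ 7)⁻¹ = (((sq : ℂ) * ξ) ^ 7)⁻¹ / 128 := by
    rw [show ((sq : ℂ) * (2 * ξ)) = 2 * ((sq : ℂ) * ξ) by ring, mul_pow, mul_inv]
    norm_num
    ring
  rw [q2] at g2
  have h3 : 0 ≤ ξ.re ^ (-(13 / 4) : ℝ) := Real.rpow_nonneg hre.le _
  refine ⟨g1.trans (mul_le_mul_of_nonneg_right (by linarith) h3),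
    g2.trans (mul_le_mul_of_nonneg_right (by linarith) h3)⟩

private theorem nr_all {b : ℕ → ℂ} {sq : ℝ} {M : ℕ} {θ : ℝ} {ωp ωm : ℂ} {Rp Rm : Polynomial ℂ} {C : ℝ}
    (h : Inv2 b sq M θ ωp ωm Rp Rm C) (β : ℝ) (hβ : β ≠ 0) (hβ1 : |β| ≤ 1 / 2) :
    ∃ K : ℝ, 0 ≤ K ∧ ∀ᶠ ξ in 𝓝 ((β : ℂ) * I), 0 < ξ.re →
      ‖gs b 3 ξ - (if 0 < β then ωp else ωm) * (((sq : ℂ) * ξ) ^ 7)⁻¹ *
        gs (cj b) 3 (1 / ((sq ^ 2 : ℝ) * ξ))‖ ≤ K * ξ.re ^ (-(13 / 4) : ℝ) ∧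
      ‖gs b 3 (2 * ξ) - (if 0 < β then ωp else ωm) * ((((sq : ℂ) * ξ) ^ 7)⁻¹ / 128) *
        gs (cj b) 3 (1 / ((sq ^ 2 : ℝ) * (2 * ξ)))‖ ≤ K * ξ.re ^ (-(13 / 4) : ℝ) := by
  have hn : ∀ᶠ ξ : ℂ in 𝓝 ((β : ℂ) * I), ‖ξ‖ < 1 := by
    refine (isOpen_lt continuous_norm continuous_const).mem_nhds ?_
    show ‖(β : ℂ) * I‖ < 1
    rw [norm_mul, norm_I, mul_one, Complex.norm_real, Real.norm_eq_abs]
    linarith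
  have hr : ∀ᶠ ξ : ℂ in 𝓝 ((β : ℂ) * I), ξ.re < 1 / 8 := by
    refine (isOpen_lt Complex.continuous_re continuous_const).mem_nhds ?_
    simp
  have hnm : ∀ m : ℝ, 1 ≤ m → m ≤ 2 → ∀ ξ : ℂ, ‖ξ‖ < 1 → ‖(m : ℂ) * ξ‖ ≤ 2 := by
    intro m h1 h2 ξ h3
    rw [norm_mul, Complex.norm_real, Real.norm_of_nonneg (by linarith)]
    have := norm_nonneg ξ
    nlinarith
  by_cases hb : 0 < β
  · have hi : ∀ᶠ ξ : ℂ in 𝓝 ((β : ℂ) * I), 0 < ξ.im := by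
      refine (isOpen_lt continuous_const Complex.continuous_im).mem_nhds ?_
      simpa using hb
    rw [if_pos hb]
    refine nr_two (θ := θ) (ω := ωp) (Rr := Rp) h.C0 β hβ ?_
    filter_upwards [hn, hr, hi] with ξ h1 h2 h3 m h4 h5 h6
    refine h.up _ ?_ ?_ (hnm m h4 h5 ξ h1) ?_
    · rw [re_ofReal_mul]
      exact mul_pos (by linarith) h6
    · rw [re_ofReal_mul]
      nlinarith
    · rw [im_ofReal_mul]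
      exact mul_nonneg (by linarith) h3.le
  · have hb' : β < 0 := lt_of_le_of_ne (not_lt.1 hb) hβ
    have hi : ∀ᶠ ξ : ℂ in 𝓝 ((β : ℂ) * I), ξ.im < 0 := by
      refine (isOpen_lt Complex.continuous_im continuous_const).mem_nhds ?_
      simpa using hb'
    rw [if_neg hb]
    refine nr_two (θ := θ) (ω := ωm) (Rr := Rm) h.C0 β hβ ?_
    filter_upwards [hn, hr, hi] with ξ h1 h2 h3 m h4 h5 h6
    refine h.lo _ ?_ ?_ (hnm m h4 h5 ξ h1) ?_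
    · rw [re_ofReal_mul]
      exact mul_pos (by linarith) h6
    · rw [re_ofReal_mul]
      nlinarith
    · rw [im_ofReal_mul]
      exact mul_nonpos_of_nonneg_of_nonpos (by linarith) h3.le

private theorem nr_s2 : ((Real.sqrt 2 : ℝ) : ℂ) ^ 2 = 2 := by
  rw [← ofReal_pow, Real.sq_sqrt (by norm_num)]
  norm_num

private theorem nr_s0 : ((Real.sqrt 2 : ℝ) : ℂ) ≠ 0 := by
  intro h0
  have hs2 := nr_s2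
  rw [h0] at hs2
  norm_num at hs2

/-- `((4 ξ)^7)⁻¹ = ((√8 ξ)^7)⁻¹ / (8 √2)` -/
private theorem nr_Y {sq : ℝ} (h0 : 0 < sq) (hsq : sq ^ 2 = 8) (ξ : ℂ) :
    ((((Real.sqrt 16 : ℝ) : ℂ) * ξ) ^ 7)⁻¹ = (((sq : ℂ) * ξ) ^ 7)⁻¹ / (8 * ((Real.sqrt 2 : ℝ) : ℂ)) := by
  have e1 : Real.sqrt 16 = Real.sqrt 2 * sq := by
    have h1 : Real.sqrt 16 = 4 := by
      rw [show (16 : ℝ) = 4 ^ 2 by norm_num, Real.sqrt_sq (by norm_num)]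
    have h2 : sq = Real.sqrt 8 := by
      rw [← hsq, Real.sqrt_sq h0.le]
    rw [h1, h2, ← Real.sqrt_mul (by norm_num), show (2 : ℝ) * 8 = 4 ^ 2 by norm_num,
      Real.sqrt_sq (by norm_num)]
  rw [e1, ofReal_mul, mul_assoc, mul_pow, mul_inv]
  have e2 : (((Real.sqrt 2 : ℝ) : ℂ) ^ 7) = 8 * ((Real.sqrt 2 : ℝ) : ℂ) := by
    rw [show (((Real.sqrt 2 : ℝ) : ℂ) ^ 7) =
      ((Real.sqrt 2 : ℝ) : ℂ) * (((Real.sqrt 2 : ℝ) : ℂ) ^ 2) ^ 3 by ring, nr_s2]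
    ring
  rw [e2, div_eq_mul_inv, mul_comm]

private theorem nr_zeta {sq : ℝ} (hsq : sq ^ 2 = 8) (ξ : ℂ) :
    2 * (1 / (((16 : ℝ) : ℂ) * ξ)) = 1 / ((sq ^ 2 : ℝ) * ξ) ∧
      1 / (((16 : ℝ) : ℂ) * ξ) = 1 / ((sq ^ 2 : ℝ) * (2 * ξ)) := by
  rw [hsq]
  constructor
  · push_cast
    by_cases h : ξ = 0
    · rw [h]
      simp
    · field_simp
      norm_num
  · push_cast
    congr 1
    ring

private theorem nr_fh {b : ℕ → ℂ} {α : ℂ} (hrel : HRel b (-α) 0) {sq : ℝ} (hsq : sq ^ 2 = 8) {ξ : ℂ}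
    (hξ : 0 < ξ.re) :
    (starRingEnd ℂ) (fh b (1 / (((16 : ℝ) : ℂ) * (starRingEnd ℂ) ξ))) =
      -gs (cj b) 3 (1 / ((sq ^ 2 : ℝ) * (2 * ξ))) +
        16 * (starRingEnd ℂ) α * gs (cj b) 3 (1 / ((sq ^ 2 : ℝ) * ξ)) ∧
    (starRingEnd ℂ) (dh b (1 / (((16 : ℝ) : ℂ) * (starRingEnd ℂ) ξ))) =
      -2 * gs (cj b) 3 (1 / ((sq ^ 2 : ℝ) * (2 * ξ))) +
        16 * (starRingEnd ℂ) α * gs (cj b) 3 (1 / ((sq ^ 2 : ℝ) * ξ)) := by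
  have e1 : 1 / (((16 : ℝ) : ℂ) * (starRingEnd ℂ) ξ) = (starRingEnd ℂ) (1 / (((16 : ℝ) : ℂ) * ξ)) := by
    rw [map_div₀, map_one, map_mul, conj_ofReal]
  have h1 := nr_conj hrel (1 / (((16 : ℝ) : ℂ) * ξ)) (nr_re (by norm_num) hξ)
  obtain ⟨z1, z2⟩ := nr_zeta hsq ξ
  rw [z1] at h1
  have h2 : (starRingEnd ℂ) (gs b 3 ((starRingEnd ℂ) (1 / (((16 : ℝ) : ℂ) * ξ)))) =
      gs (cj b) 3 (1 / ((sq ^ 2 : ℝ) * (2 * ξ))) := by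
    rw [gs_conj, conj_conj, z2]
  rw [e1]
  constructor
  · unfold fh
    rw [h1, z2]
  · unfold dh
    rw [map_sub, h1, h2, z2]
    ring

theorem near_one {b : ℕ → ℂ} {sq : ℝ} {M : ℕ} {θ : ℝ} {ωp ωm : ℂ} {Rp Rm : Polynomial ℂ} {C : ℝ}
    (h : Inv2 b sq M θ ωp ωm Rp Rm C) (hsq : sq ^ 2 = 8) (α : ℂ) (hα : ‖α‖ = 1) (hrel : HRel b (-α) 0)
    (β : ℝ) (hβ : β ≠ 0) (hβ1 : |β| ≤ 1 / 2) :
    Near (fh b) (dh b) (-(α / ((Real.sqrt 2 : ℝ) : ℂ)) * (if 0 < β then ωp else ωm)) β := by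
  have hαc : α * (starRingEnd ℂ) α = 1 := by
    rw [mul_conj, normSq_eq_norm_sq, hα]
    norm_num
  obtain ⟨K, hK, hev⟩ := nr_all h β hβ hβ1
  obtain ⟨ω, hω⟩ : ∃ ω : ℂ, ω = if 0 < β then ωp else ωm := ⟨_, rfl⟩
  rw [← hω] at hev ⊢
  refine ⟨17 * K, by positivity, ?_⟩
  filter_upwards [hev] with ξ hξ hre
  obtain ⟨g1, g2⟩ := hξ hre
  rw [nr_Y h.sq0 hsq, (nr_fh hrel hsq hre).2]
  unfold fh
  rw [hrel ξ hre]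
  obtain ⟨Y, hY⟩ : ∃ Y : ℂ, Y = (((sq : ℂ) * ξ) ^ 7)⁻¹ := ⟨_, rfl⟩
  obtain ⟨A1, hA1⟩ : ∃ A : ℂ, A = gs (cj b) 3 (1 / ((sq ^ 2 : ℝ) * ξ)) := ⟨_, rfl⟩
  obtain ⟨A2, hA2⟩ : ∃ A : ℂ, A = gs (cj b) 3 (1 / ((sq ^ 2 : ℝ) * (2 * ξ))) := ⟨_, rfl⟩
  rw [← hY, ← hA1] at g1
  rw [← hY, ← hA2] at g2
  rw [← hY, ← hA1, ← hA2]
  have e : -gs b 3 ξ - 16 * -α * gs b 3 (2 * ξ) - 128 * 0 * gs b 3 (4 * ξ) -
      -(α / ((Real.sqrt 2 : ℝ) : ℂ)) * ω * (Y / (8 * ((Real.sqrt 2 : ℝ) : ℂ))) *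
        (-2 * A2 + 16 * (starRingEnd ℂ) α * A1) =
      -(gs b 3 ξ - ω * Y * A1) + 16 * α * (gs b 3 (2 * ξ) - ω * (Y / 128) * A2) := by
    have e1 : -(α / ((Real.sqrt 2 : ℝ) : ℂ)) * ω * (Y / (8 * ((Real.sqrt 2 : ℝ) : ℂ))) =
        -(α * ω * Y / 16) := by
      have h2 : (8 : ℂ) * ((Real.sqrt 2 : ℝ) : ℂ) ^ 2 = 16 := by
        rw [nr_s2]
        norm_num
      have h3 := nr_s0
      rw [← h2]
      field_simp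
    rw [e1]
    linear_combination (ω * Y * A1) * hαc
  rw [e]
  refine (norm_add_le _ _).trans ?_
  rw [norm_neg, norm_mul, norm_mul, hα]
  have n16 : ‖(16 : ℂ)‖ = 16 := by norm_num
  rw [n16]
  linarith

theorem near_two {b : ℕ → ℂ} {sq : ℝ} {M : ℕ} {θ : ℝ} {ωp ωm : ℂ} {Rp Rm : Polynomial ℂ} {C : ℝ}
    (h : Inv2 b sq M θ ωp ωm Rp Rm C) (hsq : sq ^ 2 = 8) (α : ℂ) (hα : ‖α‖ = 1) (hrel : HRel b (-α) 0)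
    (β : ℝ) (hβ : β ≠ 0) (hβ1 : |β| ≤ 1 / 2) :
    Near (dh b) (fh b) (-(α * ((Real.sqrt 2 : ℝ) : ℂ)) * (if 0 < β then ωp else ωm)) β := by
  have hαc : α * (starRingEnd ℂ) α = 1 := by
    rw [mul_conj, normSq_eq_norm_sq, hα]
    norm_num
  obtain ⟨K, hK, hev⟩ := nr_all h β hβ hβ1
  obtain ⟨ω, hω⟩ : ∃ ω : ℂ, ω = if 0 < β then ωp else ωm := ⟨_, rfl⟩
  rw [← hω] at hev ⊢
  refine ⟨18 * K, by positivity, ?_⟩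
  filter_upwards [hev] with ξ hξ hre
  obtain ⟨g1, g2⟩ := hξ hre
  rw [nr_Y h.sq0 hsq, (nr_fh hrel hsq hre).1]
  unfold dh
  rw [hrel ξ hre]
  obtain ⟨Y, hY⟩ : ∃ Y : ℂ, Y = (((sq : ℂ) * ξ) ^ 7)⁻¹ := ⟨_, rfl⟩
  obtain ⟨A1, hA1⟩ : ∃ A : ℂ, A = gs (cj b) 3 (1 / ((sq ^ 2 : ℝ) * ξ)) := ⟨_, rfl⟩
  obtain ⟨A2, hA2⟩ : ∃ A : ℂ, A = gs (cj b) 3 (1 / ((sq ^ 2 : ℝ) * (2 * ξ))) := ⟨_, rfl⟩
  rw [← hY, ← hA1] at g1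
  rw [← hY, ← hA2] at g2
  rw [← hY, ← hA1, ← hA2]
  have e : -gs b 3 ξ - 16 * -α * gs b 3 (2 * ξ) - 128 * 0 * gs b 3 (4 * ξ) - gs b 3 ξ -
      -(α * ((Real.sqrt 2 : ℝ) : ℂ)) * ω * (Y / (8 * ((Real.sqrt 2 : ℝ) : ℂ))) *
        (-A2 + 16 * (starRingEnd ℂ) α * A1) =
      -2 * (gs b 3 ξ - ω * Y * A1) + 16 * α * (gs b 3 (2 * ξ) - ω * (Y / 128) * A2) := by
    have e1 : -(α * ((Real.sqrt 2 : ℝ) : ℂ)) * ω * (Y / (8 * ((Real.sqrt 2 : ℝ) : ℂ))) =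
        -(α * ω * Y / 8) := by
      have h3 := nr_s0
      field_simp
    rw [e1]
    linear_combination (2 * (ω * Y * A1)) * hαc
  rw [e]
  refine (norm_add_le _ _).trans ?_
  rw [norm_mul, norm_mul, norm_mul, hα, norm_neg]
  have n16 : ‖(16 : ℂ)‖ = 16 := by norm_num
  have n2 : ‖(2 : ℂ)‖ = 2 := by norm_num
  rw [n16, n2]
  linarith

end H25.QP
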