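import Pool.Agent.H25.QP.D8

/-!
# QP-PRUL: the parabolic step for the two types of values

See `vrule1`, `vrule2` (`Pool/Agent/H11/SC6/VRules.lean`).  `d = 2j - c`, `c2 = c + 4 s d`, `j2 = j + 2 s d`; then `2 j2 - c2 = d`.
`β2 = j2/c2 - 1/2 = d/(2 c2)`, `β = j/c - 1/2 = d/(2c)`; `j2/c2 = (sign c2 · j2)/|c2|`.  `E.par` at `β2` with `-s` (real number `-(s : ℝ)`):
`1 + 8 (-s) β2 = 1 - 4 s d/c2 = c/c2`, so `β2/(1 + 8 (-s) β2) = β`, `1/(1 + 8 (-s) β2) = c2/c`, and `0 < c/c2` iff `0 < c2`.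
`prule1` (`τ = θ`): `v = ρ x |c2|^(-(1+2iθ))`; the new value is `-(1 or e) (|c2|/c) ((c2/c)²)^(iθ) ρ x |c2|^(-(1+2iθ)) = ρ (-(1 or e) x) c^(-(1+2iθ))`.
`prule2` (`τ = -θ`): `v = conj ρ x (√8/|c2|) (c2²/8)^(iθ)`; the new value is `-(1 or e) (|c2|/c) ((c2/c)²)^(-iθ) v = conj ρ (-(1 or e) x) (√8/c) (c²/8)^(iθ)`.
-/

set_option autoImplicit false

namespace H25.QP

open Complex Filter Topology Pool.Agent.H11.Selberg Pool.Agent.H11.SC Pool.Agent.H39.Pol Pool.Agent.H11.SC6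

variable {b : ℕ → ℂ} {M : ℕ} {θ : ℝ} {ρ ηp ηm e : ℂ}

private theorem prul_comb {x : ℝ} (hx : 0 < x) (z : ℂ) :
    (x : ℂ) ^ z = cexp (Real.log x * z) := by
  rw [cpow_def_of_ne_zero (by exact_mod_cast hx.ne'), ← ofReal_log hx.le]

private theorem prul_abs (d : ℤ) : ((d.natAbs : ℕ) : ℝ) = |(d : ℝ)| := by
  rw [Nat.cast_natAbs]
  push_cast
  rfl

private theorem prul_key (j : ℤ) (c : ℕ) (hc : 1 ≤ c) (s : ℤ) (hd : 2 * j - c ≠ 0) (c2 j2 : ℤ)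
    (hc2 : c2 = c + 4 * s * (2 * j - c)) (hj2 : j2 = j + 2 * s * (2 * j - c)) (hc0 : c2 ≠ 0) :
    ∃ β : ℝ, β ≠ 0 ∧ 1 + 8 * (-(s : ℝ)) * β = c / c2 ∧
      ((c2.sign * j2 : ℤ) : ℝ) / ((c2.natAbs : ℕ) : ℝ) = 1 / 2 + β ∧
      1 / 2 + β / ((c : ℝ) / c2) = (j : ℝ) / c ∧ ((0 : ℝ) < c / c2 ↔ 0 < c2) := by
  have hcr : (0 : ℝ) < c := by exact_mod_cast hc
  have hc2r : (c2 : ℝ) ≠ 0 := by exact_mod_cast hc0
  obtain ⟨d, hdd⟩ : ∃ d : ℤ, d = 2 * j - c := ⟨_, rfl⟩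
  rw [← hdd] at hd hc2 hj2
  have hdr : (d : ℝ) ≠ 0 := by exact_mod_cast hd
  have hdd' : (d : ℝ) = 2 * j - c := by
    rw [hdd]
    push_cast
    ring
  have hc2' : (c2 : ℝ) = c + 4 * s * d := by
    rw [hc2]
    push_cast
    ring
  have hj2' : (j2 : ℝ) = j + 2 * s * d := by
    rw [hj2]
    push_cast
    ring
  refine ⟨d / (2 * c2), div_ne_zero hdr (mul_ne_zero two_ne_zero hc2r), ?_, ?_, ?_, ?_⟩
  · have h1 : 1 + 8 * (-(s : ℝ)) * (d / (2 * c2)) = (c2 - 4 * s * d) / c2 := by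
      field_simp
      ring
    rw [h1, show (c2 : ℝ) - 4 * s * d = c by rw [hc2']; ring]
  · have habs : ((c2.natAbs : ℕ) : ℝ) = ((c2.sign : ℤ) : ℝ) * c2 := by
      rw [prul_abs]
      rcases lt_or_gt_of_ne hc0 with h0 | h0
      · rw [Int.sign_eq_neg_one_of_neg h0]
        have : (c2 : ℝ) < 0 := by exact_mod_cast h0
        rw [abs_of_neg this]
        push_cast
        ring
      · rw [Int.sign_eq_one_of_pos h0]
        have : (0 : ℝ) < c2 := by exact_mod_cast h0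
        rw [abs_of_pos this]
        push_cast
        ring
    have hs0 : ((c2.sign : ℤ) : ℝ) ≠ 0 := by
      have h1 : c2.sign ≠ 0 := by
        rw [Ne, Int.sign_eq_zero_iff_zero]
        exact hc0
      exact_mod_cast h1
    rw [habs, Int.cast_mul, mul_div_mul_left _ _ hs0]
    field_simp
    linarith
  · rw [div_div_eq_mul_div, div_mul_eq_mul_div, hdd']
    field_simp
    ring
  · constructor
    · intro h0
      have h3 : (0 : ℝ) < c2 := by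
        by_contra h4
        have := div_nonpos_of_nonneg_of_nonpos hcr.le (not_lt.1 h4)
        linarith
      exact_mod_cast h3
    · intro h0
      have h3 : (0 : ℝ) < c2 := by exact_mod_cast h0
      positivity

private theorem prul_s (s : ℤ) (hs : s = 1 ∨ s = -1) : -(s : ℝ) = 1 ∨ -(s : ℝ) = -1 := by
  rcases hs with rfl | rfl
  · right
    norm_num
  · left
    norm_num

theorem prule1 (E : Dat8 b M θ ρ ηp ηm e) (j : ℤ) (c : ℕ) (hc : 1 ≤ c) (s : ℤ) (hs : s = 1 ∨ s = -1)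
    (hd : 2 * j - c ≠ 0) (c2 j2 : ℤ) (hc2 : c2 = c + 4 * s * (2 * j - c)) (hj2 : j2 = j + 2 * s * (2 * j - c))
    (hc0 : c2 ≠ 0) (x : ℂ) (h : Plus b M θ ρ (c2.sign * j2) c2.natAbs x) :
    Plus b M θ ρ j c (-((if 0 < c2 then 1 else e) * x)) := by
  obtain ⟨β, hβ0, hden, hpt, hpt2, hpos⟩ := prul_key j c hc s hd c2 j2 hc2 hj2 hc0
  have hcr : (0 : ℝ) < c := by exact_mod_cast hc
  have hc2r : (c2 : ℝ) ≠ 0 := by exact_mod_cast hc0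
  have hne : 1 + 8 * (-(s : ℝ)) * β ≠ 0 := by
    rw [hden]
    exact div_ne_zero hcr.ne' hc2r
  unfold Plus at h ⊢
  rw [hpt] at h
  have h2 := E.par β θ (-(s : ℝ)) _ (prul_s s hs) hβ0 hne h
  rw [hden, hpt2] at h2
  simp only [hpos] at h2
  convert h2 using 1
  obtain ⟨N, hN⟩ : ∃ N : ℝ, N = |(c2 : ℝ)| := ⟨_, rfl⟩
  have hN0 : 0 < N := by
    rw [hN]
    exact abs_pos.2 hc2r
  have habs : ((c2.natAbs : ℕ) : ℂ) = (N : ℂ) := by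
    rw [hN, ← prul_abs, ofReal_natCast]
  have hA : |1 / ((c : ℝ) / c2)| = N / c := by
    rw [one_div_div, abs_div, abs_of_pos hcr, hN]
  have hB : (1 / ((c : ℝ) / c2)) ^ 2 = N ^ 2 / c ^ 2 := by
    rw [one_div_div, div_pow, hN, sq_abs]
  rw [hA, hB, habs]
  have hx2 : (0 : ℝ) < N ^ 2 / c ^ 2 := by positivity
  have hNc : (N : ℂ) ≠ 0 := by exact_mod_cast hN0.ne'
  have hcc : (c : ℂ) ≠ 0 := by exact_mod_cast hcr.ne'
  have e1 : ((N ^ 2 / (c : ℝ) ^ 2 : ℝ) : ℂ) ^ (θ * I) =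
      (N : ℂ) ^ (2 * θ * I) * (c : ℂ) ^ (-(2 * θ * I)) := by
    have e5 : (c : ℂ) = ((c : ℝ) : ℂ) := by push_cast; rfl
    rw [e5, prul_comb hx2, prul_comb hN0, prul_comb hcr, ← Complex.exp_add]
    congr 1
    rw [Real.log_div (by positivity) (by positivity), Real.log_pow, Real.log_pow]
    push_cast
    ring
  have e2 : (c : ℂ) ^ (-(1 + 2 * θ * I) : ℂ) = (c : ℂ)⁻¹ * (c : ℂ) ^ (-(2 * θ * I)) := by
    have : (-(1 + 2 * θ * I) : ℂ) = -1 + -(2 * θ * I) := by ring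
    rw [this, cpow_add _ _ hcc, cpow_neg_one]
  have e3 : (N : ℂ) ^ (-(1 + 2 * θ * I) : ℂ) = (N : ℂ)⁻¹ * (N : ℂ) ^ (-(2 * θ * I)) := by
    have : (-(1 + 2 * θ * I) : ℂ) = -1 + -(2 * θ * I) := by ring
    rw [this, cpow_add _ _ hNc, cpow_neg_one]
  have e4 : (N : ℂ) ^ (2 * θ * I) * (N : ℂ) ^ (-(2 * θ * I)) = 1 := by
    rw [← cpow_add _ _ hNc]
    simp
  rw [e1, e2, e3]
  generalize (N : ℂ) ^ (2 * θ * I) = P at e4 ⊢
  generalize (N : ℂ) ^ (-(2 * θ * I)) = P' at e4 ⊢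
  generalize (c : ℂ) ^ (-(2 * θ * I)) = R
  generalize (if 0 < c2 then (1 : ℂ) else e) = η
  have e7 : ((N / c : ℝ) : ℂ) = (N : ℂ) / c := by
    push_cast
    rfl
  rw [e7]
  field_simp
  linear_combination (ρ * η * x * R) * e4

theorem prule2 (E : Dat8 b M θ ρ ηp ηm e) (j : ℤ) (c : ℕ) (hc : 1 ≤ c) (s : ℤ) (hs : s = 1 ∨ s = -1)
    (hd : 2 * j - c ≠ 0) (c2 j2 : ℤ) (hc2 : c2 = c + 4 * s * (2 * j - c)) (hj2 : j2 = j + 2 * s * (2 * j - c))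
    (hc0 : c2 ≠ 0) (x : ℂ) (h : Minus b 8 M θ ρ (c2.sign * j2) c2.natAbs x) :
    Minus b 8 M θ ρ j c (-((if 0 < c2 then 1 else e) * x)) := by
  obtain ⟨β, hβ0, hden, hpt, hpt2, hpos⟩ := prul_key j c hc s hd c2 j2 hc2 hj2 hc0
  have hcr : (0 : ℝ) < c := by exact_mod_cast hc
  have hc2r : (c2 : ℝ) ≠ 0 := by exact_mod_cast hc0
  have hne : 1 + 8 * (-(s : ℝ)) * β ≠ 0 := by
    rw [hden]
    exact div_ne_zero hcr.ne' hc2r
  unfold Minus at h ⊢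
  rw [hpt] at h
  have e0 : (4 + ((-θ : ℝ) : ℂ) * I) = 4 - θ * I := by push_cast; ring
  have h2 := E.par β (-θ) (-(s : ℝ)) _ (prul_s s hs) hβ0 hne (by rw [e0]; exact h)
  rw [hden, hpt2, e0] at h2
  simp only [hpos] at h2
  convert h2 using 1
  obtain ⟨N, hN⟩ : ∃ N : ℝ, N = |(c2 : ℝ)| := ⟨_, rfl⟩
  have hN0 : 0 < N := by
    rw [hN]
    exact abs_pos.2 hc2r
  have habs : ((c2.natAbs : ℕ) : ℝ) = N := by
    rw [hN, prul_abs]
  have hA : |1 / ((c : ℝ) / c2)| = N / c := by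
    rw [one_div_div, abs_div, abs_of_pos hcr, hN]
  have hB : (1 / ((c : ℝ) / c2)) ^ 2 = N ^ 2 / c ^ 2 := by
    rw [one_div_div, div_pow, hN, sq_abs]
  rw [hA, hB, habs]
  have hx2 : (0 : ℝ) < N ^ 2 / c ^ 2 := by positivity
  have hx3 : (0 : ℝ) < N ^ 2 / ((8 : ℕ) : ℝ) := by positivity
  have hx4 : (0 : ℝ) < (c : ℝ) ^ 2 / ((8 : ℕ) : ℝ) := by positivity
  have hNc : (N : ℂ) ≠ 0 := by exact_mod_cast hN0.ne'
  have hcc : (c : ℂ) ≠ 0 := by exact_mod_cast hcr.ne'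
  have e1 : ((N ^ 2 / (c : ℝ) ^ 2 : ℝ) : ℂ) ^ (((-θ : ℝ) : ℂ) * I) *
      ((N ^ 2 / ((8 : ℕ) : ℝ) : ℝ) : ℂ) ^ (θ * I) = (((c : ℝ) ^ 2 / ((8 : ℕ) : ℝ) : ℝ) : ℂ) ^ (θ * I) := by
    rw [prul_comb hx2, prul_comb hx3, prul_comb hx4, ← Complex.exp_add]
    congr 1
    rw [Real.log_div (by positivity) (by positivity), Real.log_div (by positivity) (by positivity),
      Real.log_div (by positivity) (by positivity)]
    push_cast
    ring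
  rw [← e1]
  generalize ((N ^ 2 / (c : ℝ) ^ 2 : ℝ) : ℂ) ^ (((-θ : ℝ) : ℂ) * I) = P
  generalize ((N ^ 2 / ((8 : ℕ) : ℝ) : ℝ) : ℂ) ^ (θ * I) = R
  generalize (if 0 < c2 then (1 : ℂ) else e) = η
  have e7 : ((N / c : ℝ) : ℂ) = (N : ℂ) / c := by
    push_cast
    rfl
  have e8 : ((Real.sqrt ((8 : ℕ) : ℝ) / c : ℝ) : ℂ) = ((Real.sqrt ((8 : ℕ) : ℝ) : ℝ) : ℂ) / c := by
    push_cast
    rfl
  have e9 : ((Real.sqrt ((8 : ℕ) : ℝ) / N : ℝ) : ℂ) = ((Real.sqrt ((8 : ℕ) : ℝ) : ℝ) : ℂ) / N := by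
    push_cast
    rfl
  rw [e7, e8, e9]
  field_simp

end H25.QP
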