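import Pool.Agent.H11.SC6.Refl

/-!
# QP-RF2: the inversion at a cusp for two functions

This is `refl_cusp` of `Pool/Agent/H11/SC6/Refl.lean` with `conj (g (1/(k conj ξ)))` in place of `conj (f (1/(k conj ξ)))` and the hypothesis
`hv` for `g`.  The proof never uses that the two functions are equal: copy it (with its private lemmas `rc_mul_cpow`, `rc_norm_cpow`, `rc_log`)
and replace `f (1 / ..)` by `g (1 / ..)`.
-/

set_option autoImplicit false

namespace H25.QP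

open Complex Filter Topology Pool.Agent.H11.Selberg Pool.Agent.H11.SC Pool.Agent.H39.Pol Pool.Agent.H11.SC6

private theorem rc_mul_cpow {x y : ℂ} (hx : 0 < x.re) (hy : 0 < y.re) (c : ℂ) :
    (x * y) ^ c = x ^ c * y ^ c := by
  have hx0 : x ≠ 0 := by
    rintro rfl
    simp at hx
  have hy0 : y ≠ 0 := by
    rintro rfl
    simp at hy
  have h1 := abs_lt.1 (Complex.abs_arg_lt_pi_div_two_iff.2 (Or.inl hx))
  have h2 := abs_lt.1 (Complex.abs_arg_lt_pi_div_two_iff.2 (Or.inl hy))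
  rw [cpow_def_of_ne_zero (mul_ne_zero hx0 hy0), cpow_def_of_ne_zero hx0, cpow_def_of_ne_zero hy0,
    Complex.log_mul hx0 hy0 ⟨by linarith [h1.1, h2.1], by linarith [h1.2, h2.2]⟩, add_mul,
    Complex.exp_add]

private theorem rc_norm_cpow (u : ℂ) (hu : u ≠ 0) (τ : ℝ) :
    ‖u ^ (4 - τ * I : ℂ)‖ ≤ ‖u‖ ^ 4 * Real.exp (Real.pi * |τ|) := by
  rw [Complex.norm_cpow_of_ne_zero hu]
  have h1 : (4 - τ * I : ℂ).re = ((4 : ℕ) : ℝ) := by simp
  have h2 : (4 - τ * I : ℂ).im = -τ := by simp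
  rw [h1, h2, Real.rpow_natCast, div_eq_mul_inv, ← Real.exp_neg]
  refine mul_le_mul_of_nonneg_left (Real.exp_le_exp.2 ?_) (by positivity)
  have h3 := Complex.abs_arg_le_pi u
  have h4 : -(arg u * -τ) ≤ |arg u| * |τ| := by
    rw [← abs_mul]
    have : -(arg u * -τ) = arg u * τ := by ring
    rw [this]
    exact le_abs_self _
  exact h4.trans (mul_le_mul_of_nonneg_right h3 (abs_nonneg _))

/-- `log (1/r) → ∞` -/
private theorem rc_log (R β : ℝ) :
    Tendsto (fun ξ : ℂ => Real.log (1 / ‖ξ - β * I‖)) (nhdsWithin (β * I) (cone R β)) atTop := by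
  have h1 : Tendsto (fun ξ : ℂ => ‖ξ - β * I‖) (nhdsWithin (β * I) (cone R β)) (𝓝[>] 0) := by
    refine tendsto_nhdsWithin_iff.2 ⟨?_, ?_⟩
    · have h2 : Continuous (fun ξ : ℂ => ‖ξ - β * I‖) := by fun_prop
      have h3 := h2.tendsto (β * I)
      rw [sub_self, norm_zero] at h3
      exact h3.mono_left nhdsWithin_le_nhds
    · filter_upwards [self_mem_nhdsWithin] with ξ hξ
      have h3 : 0 < ξ.re := hξ.1
      refine norm_pos_iff.2 (fun h0 => ?_)
      have h4 := congrArg Complex.re h0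
      simp at h4
      linarith
  have h2 : Tendsto (fun x : ℝ => Real.log (1 / x)) (𝓝[>] 0) atTop := by
    have h3 : (fun x : ℝ => Real.log (1 / x)) = fun x : ℝ => -Real.log x := by
      funext x
      rw [one_div, Real.log_inv]
    rw [h3]
    exact tendsto_neg_atBot_atTop.comp Real.tendsto_log_nhdsGT_zero
  exact h2.comp h1

theorem refl_cusp2 (f g : ℂ → ℂ) (k : ℝ) (hk : 0 < k) (M : ℕ) (ω : ℂ) (β τ C : ℝ) (v : ℂ)
    (hC : 0 ≤ C) (hβ : β ≠ 0)
    (h : ∀ᶠ ξ in 𝓝 ((β : ℂ) * I), 0 < ξ.re →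
      ‖f ξ - ω * ((((Real.sqrt k : ℝ) : ℂ) * ξ) ^ 7)⁻¹ *
        (starRingEnd ℂ) (g (1 / ((k : ℂ) * (starRingEnd ℂ) ξ)))‖ ≤ C * ξ.re ^ (-(13 / 4) : ℝ))
    (hv : CL g M (4 + τ * I) (1 / (k * β)) v) :
    CL f M (4 - τ * I) β (ω * I * ((Real.sqrt k * β : ℝ) : ℂ) *
      ((k * β ^ 2 : ℝ) : ℂ) ^ (-(τ * I)) * (starRingEnd ℂ) v) := by
  intro R hR
  set sq : ℝ := Real.sqrt k with hsqd
  have hsq : 0 < sq := Real.sqrt_pos.2 hk
  have hsk : sq ^ 2 = k := Real.sq_sqrt hk.le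
  have hq0 : 0 < k := hk
  set 𝓕 := nhdsWithin ((β : ℂ) * I) (cone R β) with h𝓕
  have hle : 𝓕 ≤ 𝓝 ((β : ℂ) * I) := nhdsWithin_le_nhds
  have hβc : (β : ℂ) ≠ 0 := by exact_mod_cast hβ
  have hqc : (k : ℂ) ≠ 0 := by exact_mod_cast hq0.ne'
  have hsqc : (sq : ℂ) ≠ 0 := by exact_mod_cast hsq.ne'
  have hβI : (β : ℂ) * I ≠ 0 := mul_ne_zero hβc I_ne_zero
  have hcone : ∀ᶠ ξ in 𝓕, ξ ∈ cone R β := self_mem_nhdsWithin
  have hlog := rc_log R β
  -- the error tends to zero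
  have herr : Tendsto (fun ξ : ℂ => (f ξ -
      ω * (((sq : ℂ) * ξ) ^ 7)⁻¹ * (starRingEnd ℂ) (g (1 / ((k : ℂ) * (starRingEnd ℂ) ξ)))) *
      (ξ - β * I) ^ (4 - τ * I : ℂ) / (((Real.log (1 / ‖ξ - β * I‖)) ^ M : ℝ) : ℂ)) 𝓕 (𝓝 0) := by
    have hb : Tendsto (fun ξ : ℂ => (C * (1 + R) ^ 4 * ξ.re ^ (3 / 4 : ℝ)) *
        Real.exp (Real.pi * |τ|)) 𝓕 (𝓝 0) := by
      have h2 : Tendsto (fun ξ : ℂ => C * (1 + R) ^ 4 * ξ.re ^ (3 / 4 : ℝ)) (𝓝 ((β : ℂ) * I))
          (𝓝 0) := by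
        have h3 : Tendsto (fun ξ : ℂ => ξ.re ^ (3 / 4 : ℝ)) (𝓝 ((β : ℂ) * I)) (𝓝 0) := by
          have h4 : Continuous (fun ξ : ℂ => ξ.re ^ (3 / 4 : ℝ)) :=
            (Real.continuous_rpow_const (by norm_num)).comp continuous_re
          have h5 := h4.tendsto (β * I)
          have h6 : ((β : ℂ) * I).re = 0 := by simp
          rwa [h6, Real.zero_rpow (by norm_num)] at h5
        have h4 := h3.const_mul (C * (1 + R) ^ 4)
        rwa [mul_zero] at h4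
      have h3 := (h2.mul_const (Real.exp (Real.pi * |τ|))).mono_left hle
      rwa [zero_mul] at h3
    refine squeeze_zero_norm' ?_ hb
    filter_upwards [hcone, h.filter_mono hle, hlog.eventually_ge_atTop 1] with ξ h1 h2 h3
    have hre : 0 < ξ.re := h1.1
    have h4 := h2 hre
    set u : ℂ := ξ - β * I with hu
    have hu0 : u ≠ 0 := by
      intro h0
      have h5 := congrArg Complex.re h0
      rw [hu] at h5
      simp at h5
      linarith
    have hur : ‖u‖ ≤ (1 + R) * ξ.re := by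
      refine (Complex.norm_le_abs_re_add_abs_im u).trans ?_
      have e1 : u.re = ξ.re := by simp [hu]
      have e2 : u.im = ξ.im - β := by simp [hu]
      rw [e1, e2, abs_of_pos hre]
      have := h1.2
      linarith
    set A : ℂ := f ξ - ω * (((sq : ℂ) * ξ) ^ 7)⁻¹ * (starRingEnd ℂ) (g (1 / ((k : ℂ) * (starRingEnd ℂ) ξ))) with hA
    have hAn : ‖A‖ ≤ C * ξ.re ^ (-(13 / 4) : ℝ) := h4
    have hL1 : (1 : ℝ) ≤ (Real.log (1 / ‖u‖)) ^ M := one_le_pow₀ h3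
    have hrp : ξ.re ^ 4 * ξ.re ^ (-(13 / 4) : ℝ) = ξ.re ^ (3 / 4 : ℝ) := by
      rw [← Real.rpow_natCast, ← Real.rpow_add hre]
      norm_num
    rw [norm_div, norm_mul, Complex.norm_real, Real.norm_of_nonneg (by linarith)]
    have h5 : ‖A‖ * ‖u ^ (4 - τ * I : ℂ)‖ / (Real.log (1 / ‖u‖)) ^ M ≤
        ‖A‖ * ‖u ^ (4 - τ * I : ℂ)‖ := div_le_self (by positivity) hL1
    refine h5.trans ?_
    have h6 := rc_norm_cpow u hu0 τ
    have h7 : 0 ≤ ξ.re ^ (-(13 / 4) : ℝ) := Real.rpow_nonneg hre.le _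
    calc ‖A‖ * ‖u ^ (4 - τ * I : ℂ)‖
        ≤ (C * ξ.re ^ (-(13 / 4) : ℝ)) * (‖u‖ ^ 4 * Real.exp (Real.pi * |τ|)) := by
          refine mul_le_mul hAn h6 (norm_nonneg _) ?_
          positivity
      _ = (C * ξ.re ^ (-(13 / 4) : ℝ) * ‖u‖ ^ 4) * Real.exp (Real.pi * |τ|) := by
          ring
      _ ≤ (C * (1 + R) ^ 4 * ξ.re ^ (3 / 4 : ℝ)) * Real.exp (Real.pi * |τ|) := by
          refine mul_le_mul_of_nonneg_right ?_ (Real.exp_pos _).le
          calc C * ξ.re ^ (-(13 / 4) : ℝ) * ‖u‖ ^ 4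
              ≤ C * ξ.re ^ (-(13 / 4) : ℝ) * ((1 + R) * ξ.re) ^ 4 := by
                refine mul_le_mul_of_nonneg_left (pow_le_pow_left₀ (norm_nonneg _) hur 4) ?_
                positivity
            _ = C * (1 + R) ^ 4 * (ξ.re ^ 4 * ξ.re ^ (-(13 / 4) : ℝ)) := by ring
            _ = _ := by rw [hrp]
  -- the reflected point
  set β' : ℝ := 1 / (k * β) with hβ'
  set R' : ℝ := ((|β| + 1) * R + 1) / |β| with hR'
  have hR'0 : 0 ≤ R' := by positivity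
  have hζ : Tendsto (fun ξ : ℂ => 1 / ((k : ℂ) * (starRingEnd ℂ) ξ)) 𝓕
      (nhdsWithin ((β' : ℂ) * I) (cone R' β')) := by
    refine tendsto_nhdsWithin_iff.2 ⟨?_, ?_⟩
    · have h1 : ContinuousAt (fun ξ : ℂ => 1 / ((k : ℂ) * (starRingEnd ℂ) ξ)) ((β : ℂ) * I) := by
        refine ContinuousAt.div continuousAt_const ?_ ?_
        · exact continuousAt_const.mul Complex.continuous_conj.continuousAt
        · exact mul_ne_zero hqc ((map_ne_zero _).2 hβI)
      have h2 := h1.tendsto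
      have e1 : 1 / ((k : ℂ) * (starRingEnd ℂ) ((β : ℂ) * I)) = (β' : ℂ) * I := by
        rw [map_mul, conj_ofReal, conj_I, hβ']
        push_cast
        field_simp
        rw [I_sq]
      rw [e1] at h2
      exact h2.mono_left hle
    · have h1 : ∀ᶠ ξ in 𝓕, ξ.re < 1 := by
        have h2 : ∀ᶠ ξ : ℂ in 𝓝 ((β : ℂ) * I), ξ.re < 1 := by
          refine (isOpen_lt Complex.continuous_re continuous_const).mem_nhds ?_
          simp
        exact h2.filter_mono hle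
      have h2 : ∀ᶠ ξ in 𝓕, |ξ.im| < |β| + 1 := by
        have h2 : ∀ᶠ ξ : ℂ in 𝓝 ((β : ℂ) * I), |ξ.im| < |β| + 1 := by
          refine (isOpen_lt Complex.continuous_im.abs continuous_const).mem_nhds ?_
          simp
        exact h2.filter_mono hle
      filter_upwards [hcone, h1, h2] with ξ hξ h3 h4
      obtain ⟨hre, him⟩ := hξ
      set D : ℝ := normSq ξ with hD
      have hD0 : 0 < D := by
        rw [hD]
        refine normSq_pos.2 ?_
        rintro rfl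
        simp at hre
      have hDe : D = ξ.re * ξ.re + ξ.im * ξ.im := by rw [hD, normSq_apply]
      have e1 : 1 / ((k : ℂ) * (starRingEnd ℂ) ξ) = ((1 / (k * D) : ℝ) : ℂ) * ξ := by
        have hξ0 : ξ ≠ 0 := by
          rintro rfl
          simp at hre
        have hξ1 : (starRingEnd ℂ) ξ ≠ 0 := (map_ne_zero _).2 hξ0
        have e2 : (D : ℂ) = ξ * (starRingEnd ℂ) ξ := by rw [hD, ← mul_conj]
        push_cast
        rw [e2]
        field_simp
      have hβp : 0 < |β| := abs_pos.2 hβ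
      rw [e1]
      refine ⟨?_, ?_⟩
      · rw [re_ofReal_mul]
        positivity
      · rw [re_ofReal_mul, im_ofReal_mul]
        have e2 : 1 / (k * D) * ξ.im - β' = (1 / (k * D)) * ((β * ξ.im - D) / β) := by
          rw [hβ']
          field_simp
        rw [e2, abs_mul, abs_of_pos (by positivity : 0 < 1 / (k * D)), abs_div]
        have e3 : |β * ξ.im - D| ≤ ((|β| + 1) * R + 1) * ξ.re := by
          have e4 : β * ξ.im - D = ξ.im * -(ξ.im - β) - ξ.re * ξ.re := by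
            rw [hDe]
            ring
          rw [e4]
          refine (abs_sub _ _).trans ?_
          rw [abs_mul, abs_neg, abs_of_nonneg (mul_self_nonneg ξ.re)]
          have e5 : |ξ.im| * |ξ.im - β| ≤ (|β| + 1) * (R * ξ.re) :=
            mul_le_mul h4.le him (abs_nonneg _) (by positivity)
          nlinarith
        have e6 : |β * ξ.im - D| / |β| ≤ R' * ξ.re := by
          rw [div_le_iff₀ hβp]
          calc |β * ξ.im - D| ≤ ((|β| + 1) * R + 1) * ξ.re := e3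
            _ = R' * ξ.re * |β| := by
              rw [hR']
              field_simp
        calc 1 / (k * D) * (|β * ξ.im - D| / |β|) ≤ 1 / (k * D) * (R' * ξ.re) :=
              mul_le_mul_of_nonneg_left e6 (by positivity)
          _ = _ := by ring
  -- the factor `gg`
  set gg : ℂ → ℂ := fun ξ => I / ((k : ℂ) * β * ξ) with hg
  have hgc : ContinuousAt gg ((β : ℂ) * I) := by
    refine ContinuousAt.div continuousAt_const (by fun_prop) ?_
    exact mul_ne_zero (mul_ne_zero hqc hβc) hβI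
  have hgv : gg ((β : ℂ) * I) = ((1 / (k * β ^ 2) : ℝ) : ℂ) := by
    rw [hg]
    push_cast
    field_simp
  have hgp : 0 < 1 / (k * β ^ 2) := by positivity
  have hgt : Tendsto gg 𝓕 (𝓝 ((1 / (k * β ^ 2) : ℝ) : ℂ)) := by
    rw [← hgv]
    exact hgc.tendsto.mono_left hle
  have hgre : ∀ᶠ ξ in 𝓕, 0 < (gg ξ).re := by
    have h1 : ∀ᶠ z : ℂ in 𝓝 ((1 / (k * β ^ 2) : ℝ) : ℂ), 0 < z.re := by
      refine (isOpen_lt continuous_const Complex.continuous_re).mem_nhds ?_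
      show 0 < (((1 / (k * β ^ 2) : ℝ) : ℂ)).re
      rw [ofReal_re]
      exact hgp
    exact hgt.eventually h1
  have hgpow : Tendsto (fun ξ => (gg ξ) ^ (4 - τ * I : ℂ)) 𝓕
      (𝓝 (((1 / (k * β ^ 2) : ℝ) : ℂ) ^ (4 - τ * I : ℂ))) := by
    refine hgt.cpow tendsto_const_nhds ?_
    exact Complex.ofReal_mem_slitPlane.2 hgp
  -- the main term with the reflected variable
  have hmain := (Complex.continuous_conj.tendsto v).comp ((hv R' hR'0).comp hζ)
  have hrw : ∀ᶠ ξ in 𝓕, (starRingEnd ℂ) (g (1 / ((k : ℂ) * (starRingEnd ℂ) ξ)) *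
      (1 / ((k : ℂ) * (starRingEnd ℂ) ξ) - β' * I) ^ (4 + τ * I : ℂ) /
        (((Real.log (1 / ‖1 / ((k : ℂ) * (starRingEnd ℂ) ξ) - β' * I‖)) ^ M : ℝ) : ℂ)) =
      (starRingEnd ℂ) (g (1 / ((k : ℂ) * (starRingEnd ℂ) ξ))) * ((ξ - β * I) ^ (4 - τ * I : ℂ) *
        (gg ξ) ^ (4 - τ * I : ℂ)) /
        (((Real.log (1 / ‖ξ - β * I‖) + Real.log (1 / ‖gg ξ‖)) ^ M : ℝ) : ℂ) := by
    filter_upwards [hcone, hgre, hζ.eventually self_mem_nhdsWithin] with ξ hξ h1 h2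
    have hre : 0 < ξ.re := hξ.1
    have hξ0 : ξ ≠ 0 := by
      rintro rfl
      simp at hre
    have hure : 0 < (ξ - β * I).re := by simpa using hre
    have hu0 : ξ - β * I ≠ 0 := by
      intro h0
      rw [h0] at hure
      simp at hure
    have hg0 : gg ξ ≠ 0 := by
      intro h0
      rw [h0] at h1
      simp at h1
    set w : ℂ := 1 / ((k : ℂ) * (starRingEnd ℂ) ξ) - β' * I with hw
    have hwre : 0 < w.re := by
      have h3 := h2.1
      rw [hw]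
      simpa using h3
    have hcw : (starRingEnd ℂ) w = (ξ - β * I) * gg ξ := by
      rw [hw, hg, map_sub, map_div₀, map_one, map_mul, map_mul, conj_ofReal, conj_ofReal,
        conj_conj, conj_I, hβ']
      push_cast
      field_simp
      linear_combination (β : ℂ) * I_sq
    have hwn : ‖w‖ = ‖ξ - β * I‖ * ‖gg ξ‖ := by
      rw [← norm_mul, ← hcw, norm_conj]
    have e1 : (starRingEnd ℂ) (w ^ (4 + τ * I : ℂ)) = (ξ - β * I) ^ (4 - τ * I : ℂ) *
        (gg ξ) ^ (4 - τ * I : ℂ) := by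
      rw [← rc_mul_cpow hure h1, ← hcw]
      have harg : w.arg ≠ Real.pi := by
        intro h3
        have h4 := (Complex.arg_eq_pi_iff.1 h3).1
        linarith
      have h5 := conj_cpow w (4 - τ * I) harg
      rw [h5]
      congr 2
      simp only [map_sub, map_mul, conj_ofReal, conj_I]
      have h4 : (starRingEnd ℂ) (4 : ℂ) = 4 := Complex.conj_ofNat 4
      rw [h4]
      ring
    have e3 : Real.log (1 / ‖w‖) = Real.log (1 / ‖ξ - β * I‖) + Real.log (1 / ‖gg ξ‖) := by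
      rw [hwn, one_div, one_div, one_div, mul_inv, Real.log_mul]
      · exact inv_ne_zero (norm_ne_zero_iff.2 hu0)
      · exact inv_ne_zero (norm_ne_zero_iff.2 hg0)
    rw [map_div₀, map_mul, conj_ofReal, e1, e3]
  have hmain2 : Tendsto (fun ξ : ℂ => (starRingEnd ℂ) (g (1 / ((k : ℂ) * (starRingEnd ℂ) ξ))) *
      ((ξ - β * I) ^ (4 - τ * I : ℂ) * (gg ξ) ^ (4 - τ * I : ℂ)) /
        (((Real.log (1 / ‖ξ - β * I‖) + Real.log (1 / ‖gg ξ‖)) ^ M : ℝ) : ℂ)) 𝓕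
      (𝓝 ((starRingEnd ℂ) v)) := by
    refine hmain.congr' ?_
    filter_upwards [hrw] with ξ hξ
    exact hξ
  -- the quotient of the logarithms
  have hq1 : Tendsto (fun ξ : ℂ => (((Real.log (1 / ‖ξ - β * I‖) + Real.log (1 / ‖gg ξ‖)) /
      Real.log (1 / ‖ξ - β * I‖) : ℝ) : ℂ) ^ M) 𝓕 (𝓝 1) := by
    have h1 : Tendsto (fun ξ : ℂ => Real.log (1 / ‖gg ξ‖)) 𝓕
        (𝓝 (Real.log (1 / ‖((1 / (k * β ^ 2) : ℝ) : ℂ)‖))) := by
      have h2 : Tendsto (fun ξ : ℂ => 1 / ‖gg ξ‖) 𝓕 (𝓝 (1 / ‖((1 / (k * β ^ 2) : ℝ) : ℂ)‖)) := by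
        refine tendsto_const_nhds.div hgt.norm ?_
        rw [Complex.norm_real, Real.norm_of_nonneg hgp.le]
        exact hgp.ne'
      refine h2.log ?_
      rw [Complex.norm_real, Real.norm_of_nonneg hgp.le]
      exact (one_div_pos.2 hgp).ne'
    have h2 := h1.div_atTop hlog
    have h3 : Tendsto (fun ξ : ℂ => (Real.log (1 / ‖ξ - β * I‖) + Real.log (1 / ‖gg ξ‖)) /
        Real.log (1 / ‖ξ - β * I‖)) 𝓕 (𝓝 1) := by
      have h4 := h2.const_add 1
      rw [add_zero] at h4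
      refine h4.congr' ?_
      filter_upwards [hlog.eventually_gt_atTop 0] with ξ hξ
      rw [add_div, div_self hξ.ne']
    have h4 := ((Complex.continuous_ofReal.tendsto 1).comp h3).pow M
    rw [ofReal_one, one_pow] at h4
    exact h4
  -- the factor `(sq ξ)^(-7)`
  have hs7 : Tendsto (fun ξ : ℂ => ω * (((sq : ℂ) * ξ) ^ 7)⁻¹) 𝓕
      (𝓝 (ω * (((sq : ℂ) * (β * I)) ^ 7)⁻¹)) := by
    have h1 : ContinuousAt (fun ξ : ℂ => ω * (((sq : ℂ) * ξ) ^ 7)⁻¹) ((β : ℂ) * I) := by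
      refine continuousAt_const.mul (ContinuousAt.inv₀ (by fun_prop) ?_)
      exact pow_ne_zero _ (mul_ne_zero hsqc hβI)
    exact h1.tendsto.mono_left hle
  have hpow0 : (((1 / (k * β ^ 2) : ℝ) : ℂ) ^ (4 - τ * I : ℂ)) ≠ 0 := by
    intro h0
    rw [cpow_eq_zero_iff] at h0
    have h1 := h0.1
    rw [ofReal_eq_zero] at h1
    exact hgp.ne' h1
  have hfin := ((hs7.mul hmain2).mul (hgpow.inv₀ hpow0)).mul hq1
  have hval : ω * (((sq : ℂ) * (β * I)) ^ 7)⁻¹ * (starRingEnd ℂ) v *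
      (((1 / (k * β ^ 2) : ℝ) : ℂ) ^ (4 - τ * I : ℂ))⁻¹ * 1 =
      ω * I * ((sq * β : ℝ) : ℂ) * ((k * β ^ 2 : ℝ) : ℂ) ^ (-(τ * I)) *
        (starRingEnd ℂ) v := by
    have hb0 : 0 < k * β ^ 2 := by positivity
    have hbc : ((k * β ^ 2 : ℝ) : ℂ) ≠ 0 := by exact_mod_cast hb0.ne'
    have e1 : (((1 / (k * β ^ 2) : ℝ) : ℂ) ^ (4 - τ * I : ℂ))⁻¹ =
        ((k * β ^ 2 : ℝ) : ℂ) ^ (4 - τ * I : ℂ) := by
      have e2 : ((1 / (k * β ^ 2) : ℝ) : ℂ) = (((k * β ^ 2 : ℝ) : ℂ))⁻¹ := by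
        push_cast
        rw [one_div]
      rw [e2, inv_cpow, inv_inv]
      rw [Complex.arg_ofReal_of_nonneg hb0.le]
      exact Real.pi_pos.ne
    have e3 : ((k * β ^ 2 : ℝ) : ℂ) ^ (4 - τ * I : ℂ) =
        ((k * β ^ 2 : ℝ) : ℂ) ^ 4 * ((k * β ^ 2 : ℝ) : ℂ) ^ (-(τ * I)) := by
      rw [sub_eq_add_neg, cpow_add _ _ hbc]
      congr 1
      exact cpow_ofNat _ 4
    have e4 : (((sq : ℂ) * (β * I)) ^ 7)⁻¹ * ((k * β ^ 2 : ℝ) : ℂ) ^ 4 =
        I * ((sq * β : ℝ) : ℂ) := by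
      have e5 : ((sq : ℂ) * (β * I)) ^ 7 ≠ 0 := pow_ne_zero _ (mul_ne_zero hsqc hβI)
      rw [inv_mul_eq_iff_eq_mul₀ e5]
      rw [← hsk]
      push_cast
      have e6 : I ^ 8 = 1 := by
        rw [show (8 : ℕ) = 4 * 2 by norm_num, pow_mul, I_pow_four, one_pow]
      linear_combination (-(sq : ℂ) ^ 8 * (β : ℂ) ^ 8) * e6
    rw [e1, e3]
    linear_combination (ω * (starRingEnd ℂ) v * ((k * β ^ 2 : ℝ) : ℂ) ^ (-(τ * I))) * e4
  rw [hval] at hfin
  have hall := herr.add hfin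
  rw [zero_add] at hall
  refine hall.congr' ?_
  filter_upwards [hcone, hgre, hlog.eventually_ge_atTop 1, hq1.eventually_ne one_ne_zero]
    with ξ hξ h1 h2 h4
  set L : ℝ := Real.log (1 / ‖ξ - β * I‖) with hL
  set L' : ℝ := Real.log (1 / ‖gg ξ‖) with hL'
  have hg0 : gg ξ ≠ 0 := by
    intro h0
    rw [h0] at h1
    simp at h1
  have hgc0 : (gg ξ) ^ (4 - τ * I : ℂ) ≠ 0 := by
    intro h0
    rw [cpow_eq_zero_iff] at h0
    exact hg0 h0.1
  have hL0 : L ≠ 0 := by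
    have h5 : (1 : ℝ) ≤ L := h2
    linarith
  have hT0 : (((L ^ M : ℝ)) : ℂ) ≠ 0 := by exact_mod_cast pow_ne_zero M hL0
  have hdp : ((((L + L') / L : ℝ) : ℂ)) ^ M = ((((L + L') ^ M : ℝ)) : ℂ) / ((L ^ M : ℝ) : ℂ) := by
    push_cast
    rw [div_pow]
  have hS0 : ((((L + L') ^ M : ℝ)) : ℂ) ≠ 0 := by
    intro h0
    apply h4
    rw [hdp, h0, zero_div]
  have key : ∀ A B X U γ S T : ℂ, γ ≠ 0 → S ≠ 0 → T ≠ 0 →
      (A - ω * X * B) * U / T + ω * X * (B * (U * γ) / S) * γ⁻¹ * (S / T) = A * U / T := by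
    intro A B X U γ S T h5 h6 h7
    field_simp
    ring
  rw [hdp]
  exact key _ _ _ _ _ _ _ hgc0 hS0 hT0

end H25.QP
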