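import Pool.Agent.H25.QP.Na
import Pool.Agent.H25.QP.Rf2

/-!
# QP-PAR: the parabolic step at the cusp `1/2`

`ηp = I ωp`, `ηm = -(I ωm)`, `ηm = ηp e`, `e = ± 1`, i.e. `ωm = -(ωp e)`.  Write `ω(β) = ωp` for `β > 0`, `ωm` for `β < 0`.
`β' = 1/(16β)`, `t = 1/(1 + 8sβ)`, `β'' = β' + s/2 = 1/(16 β t)`, `β2 = 1/(16 β'') = β t`.
(1) `CL.shift` (`VCusp.lean`): `CL (fh b) M (4 + iτ) β v`, `β = 1/(16 β')`.  `near_two_all` at `β'` and `refl_cusp2` (`k = 16`, `√16 = 4`):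
`CL (dh b) M (4 - iτ) β' V1`, `V1 = -(α √2) ω(β') I (4β') (16β'²)^(-iτ) conj v`.
(2) `CL.dh_add` (`s = 1`), `CL.dh_sub` (`s = -1`): `CL (dh b) M (4 - iτ) β'' (-V1)`.
(3) `near_one_all` at `β2` and `refl_cusp2` with `-τ` (`4 + (-τ) i = 4 - τ i`): `CL (fh b) M (4 + iτ) β2 V2`,
`V2 = -(α/√2) ω(β2) I (4β2) (16β2²)^(iτ) conj (-V1)
 = - (α conj α) ω(β2) conj ω(β') (16 β2 β') (16β2²)^(iτ) (16β'²)^(iτ) v = - ω(β2) conj ω(β') t (t²)^(iτ) v`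
(`I conj I = 1`, `16 β2 β' = t`, `conj ((x : ℝ)^(-iτ)) = x^(iτ)` and `x^(iτ) y^(iτ) = (xy)^(iτ)` for positive reals).
`t > 0`: `β2`, `β'` have the same sign, `ω conj ω = 1`.  `t < 0`: opposite signs, `ωp conj ωm = -conj e = -e`, `ωm conj ωp = -e` (`e = ± 1` from `e * e = 1`) and `t = -|t|`.
(4) `CL.unshift`.
-/

set_option autoImplicit false

namespace H25.QP

open Complex Filter Topology Pool.Agent.H11.Selberg Pool.Agent.H11.SC Pool.Agent.H39.Pol Pool.Agent.H11.SC6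

private theorem conj_rpow_aux {x : ℝ} (hx : 0 < x) (τ : ℝ) :
    (starRingEnd ℂ) (((x : ℝ) : ℂ) ^ (-(τ * I))) = ((x : ℝ) : ℂ) ^ (τ * I) := by
  have hxc : (x : ℂ) ≠ 0 := by exact_mod_cast hx.ne'
  rw [cpow_def_of_ne_zero hxc, cpow_def_of_ne_zero hxc, ← Complex.exp_conj]
  congr 1
  rw [← Complex.ofReal_log hx.le, map_mul, map_neg, map_mul, conj_ofReal, conj_ofReal, conj_I]
  ring

private theorem mul_cpow_aux {x y : ℝ} (hx : 0 < x) (hy : 0 < y) (c : ℂ) :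
    ((x : ℝ) : ℂ) ^ c * ((y : ℝ) : ℂ) ^ c = ((x * y : ℝ) : ℂ) ^ c := by
  rw [Complex.ofReal_mul, Complex.mul_cpow_ofReal_nonneg hx.le hy.le]

private theorem om_conj {z : ℂ} (h : ‖z‖ = 1) : z * (starRingEnd ℂ) z = 1 := by
  rw [Complex.mul_conj, Complex.normSq_eq_norm_sq, h]
  norm_num

/-- the signs -/
private theorem sign_aux {ωp ωm e : ℂ} (hp : ‖ωp‖ = 1) (hm : ‖ωm‖ = 1) (he : e * e = 1) (hω : ωm = -(ωp * e))
    {β u : ℝ} (hβ : β ≠ 0) (hu : u ≠ 0) :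
    (if 0 < β / u then ωp else ωm) * (starRingEnd ℂ) (if 0 < 1 / (16 * β) then ωp else ωm) * ((1 / u : ℝ) : ℂ) =
      (if 0 < u then 1 else e) * ((|1 / u| : ℝ) : ℂ) := by
  have he' : (starRingEnd ℂ) e = e := by
    have h1 : (e - 1) * (e + 1) = 0 := by linear_combination he
    rcases mul_eq_zero.1 h1 with h2 | h2
    · rw [sub_eq_zero.1 h2, map_one]
    · rw [eq_neg_of_add_eq_zero_left h2, map_neg, map_one]
  have hpp := om_conj hp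
  have hmm := om_conj hm
  have hpm : ωm * (starRingEnd ℂ) ωp = -e := by
    rw [hω]
    linear_combination (-e) * hpp
  have hmp : ωp * (starRingEnd ℂ) ωm = -e := by
    rw [hω, map_neg, map_mul, he']
    linear_combination (-e) * hpp
  rcases lt_or_gt_of_ne hu with h1 | h1
  · rw [if_neg (not_lt.2 h1.le), abs_of_neg (one_div_neg.2 h1)]
    rcases lt_or_gt_of_ne hβ with h2 | h2
    · rw [if_pos (div_pos_of_neg_of_neg h2 h1), if_neg (not_lt.2 (one_div_neg.2 (by linarith)).le), hmp]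
      push_cast
      ring
    · rw [if_neg (not_lt.2 (div_neg_of_pos_of_neg h2 h1).le), if_pos (by positivity), hpm]
      push_cast
      ring
  · rw [if_pos h1, abs_of_pos (one_div_pos.2 h1)]
    rcases lt_or_gt_of_ne hβ with h2 | h2
    · rw [if_neg (not_lt.2 (div_neg_of_neg_of_pos h2 h1).le), if_neg (not_lt.2 (one_div_neg.2 (by linarith)).le), hmm]
    · rw [if_pos (div_pos h2 h1), if_pos (by positivity), hpp]

private theorem value_aux {ωp ωm e α : ℂ} (hp : ‖ωp‖ = 1) (hm : ‖ωm‖ = 1) (he : e * e = 1) (hω : ωm = -(ωp * e))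
    (hα : ‖α‖ = 1) {β u : ℝ} (hβ : β ≠ 0) (hu : u ≠ 0) (τ : ℝ) (v : ℂ) :
    -(α / ((Real.sqrt 2 : ℝ) : ℂ)) * (if 0 < β / u then ωp else ωm) * I * ((Real.sqrt 16 * (β / u) : ℝ) : ℂ) *
      ((16 * (β / u) ^ 2 : ℝ) : ℂ) ^ (-(((-τ : ℝ) : ℂ) * I)) *
      (starRingEnd ℂ) (-(-(α * ((Real.sqrt 2 : ℝ) : ℂ)) * (if 0 < 1 / (16 * β) then ωp else ωm) * I *
        ((Real.sqrt 16 * (1 / (16 * β)) : ℝ) : ℂ) * ((16 * (1 / (16 * β)) ^ 2 : ℝ) : ℂ) ^ (-(τ * I)) *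
        (starRingEnd ℂ) v)) =
    -((if 0 < u then 1 else e) * ((|1 / u| : ℝ) : ℂ) * (((1 / u) ^ 2 : ℝ) : ℂ) ^ (τ * I) * v) := by
  have hx' : 0 < 16 * (1 / (16 * β)) ^ 2 := by positivity
  have hx2 : 0 < 16 * (β / u) ^ 2 := by positivity
  have hs2 : (Real.sqrt 2) ≠ 0 := by positivity
  have hs2c : ((Real.sqrt 2 : ℝ) : ℂ) ≠ 0 := by exact_mod_cast hs2
  have h16 : Real.sqrt 16 = 4 := by
    rw [show (16 : ℝ) = 4 ^ 2 by norm_num]
    exact Real.sqrt_sq (by norm_num)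
  have hprod : (16 * (β / u) ^ 2) * (16 * (1 / (16 * β)) ^ 2) = (1 / u) ^ 2 := by
    field_simp
  have e1 : -(((-τ : ℝ) : ℂ) * I) = (τ : ℂ) * I := by
    push_cast
    ring
  have e2 := mul_cpow_aux hx2 hx' ((τ : ℂ) * I)
  rw [hprod] at e2
  have e3 := sign_aux hp hm he hω hβ hu
  have e4 := om_conj hα
  have e5 : ((4 * (β / u) : ℝ) : ℂ) * ((4 * (1 / (16 * β)) : ℝ) : ℂ) = ((1 / u : ℝ) : ℂ) := by
    rw [← Complex.ofReal_mul]
    congr 1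
    field_simp
    norm_num
  rw [map_neg, map_mul, map_mul, map_mul, map_mul, map_mul, map_neg, map_mul, conj_ofReal, conj_ofReal, conj_I, conj_conj,
    conj_rpow_aux hx', e1, h16, ← e2, ← e3, ← e5]
  generalize (if 0 < β / u then ωp else ωm) = W
  generalize (starRingEnd ℂ) (if 0 < 1 / (16 * β) then ωp else ωm) = W'
  generalize ((4 * (β / u) : ℝ) : ℂ) = P
  generalize ((4 * (1 / (16 * β)) : ℝ) : ℂ) = P'
  generalize ((16 * (β / u) ^ 2 : ℝ) : ℂ) ^ ((τ : ℂ) * I) = X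
  generalize ((16 * (1 / (16 * β)) ^ 2 : ℝ) : ℂ) ^ ((τ : ℂ) * I) = X'
  field_simp
  linear_combination (W * P * X * W' * P' * X' * v) * (α * (starRingEnd ℂ) α * I_sq - e4)

theorem par_cusp {b : ℕ → ℂ} {sq : ℝ} {M : ℕ} {θ : ℝ} {ωp ωm : ℂ} {Rp Rm : Polynomial ℂ} {C : ℝ}
    (h : Inv2 b sq M θ ωp ωm Rp Rm C) (hsq : sq ^ 2 = 8) (α : ℂ) (hα : ‖α‖ = 1) (hrel : HRel b (-α) 0)
    (e : ℂ) (he : e * e = 1) (hω : ωm = -(ωp * e)) (β τ s : ℝ) (hs : s = 1 ∨ s = -1) (v : ℂ) (hβ : β ≠ 0)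
    (h1 : 1 + 8 * s * β ≠ 0) (hv : CL (gs b 3) M (4 + τ * I) (1 / 2 + β) v) :
    CL (gs b 3) M (4 + τ * I) (1 / 2 + β / (1 + 8 * s * β))
      (-((if 0 < 1 + 8 * s * β then 1 else e) * ((|1 / (1 + 8 * s * β)| : ℝ) : ℂ) *
        (((1 / (1 + 8 * s * β)) ^ 2 : ℝ) : ℂ) ^ (τ * I) * v)) := by
  have hβ' : 1 / (16 * β) ≠ 0 := by
    refine one_div_ne_zero ?_
    positivity
  have hβ2 : β / (1 + 8 * s * β) ≠ 0 := div_ne_zero hβ h1
  have a1 : CL (fh b) M (4 + τ * I) β v := CL.shift (s := 1 / 2) (β := β) hv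
  have a2 : CL (fh b) M (4 + τ * I) (1 / (16 * (1 / (16 * β)))) v := by
    have e0 : 1 / (16 * (1 / (16 * β))) = β := by field_simp
    rw [e0]
    exact a1
  obtain ⟨C1, hC1, n1⟩ := near_two_all h hsq α hα hrel (1 / (16 * β)) hβ'
  have a3 := refl_cusp2 (dh b) (fh b) 16 (by norm_num) M _ (1 / (16 * β)) τ C1 v hC1 hβ' n1 a2
  obtain ⟨V1, hV1⟩ : ∃ V1, V1 = -(α * ((Real.sqrt 2 : ℝ) : ℂ)) * (if 0 < 1 / (16 * β) then ωp else ωm) * I *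
        ((Real.sqrt 16 * (1 / (16 * β)) : ℝ) : ℂ) * ((16 * (1 / (16 * β)) ^ 2 : ℝ) : ℂ) ^ (-(τ * I)) *
        (starRingEnd ℂ) v := ⟨_, rfl⟩
  rw [← hV1] at a3
  have a4 : CL (dh b) M (4 - τ * I) (1 / (16 * (β / (1 + 8 * s * β)))) (-V1) := by
    rcases hs with rfl | rfl
    · have e0 : 1 / (16 * (β / (1 + 8 * 1 * β))) = 1 / (16 * β) + 1 / 2 := by
        field_simp
        ring
      rw [e0]
      exact CL.dh_add a3
    · have e0 : 1 / (16 * (β / (1 + 8 * (-1) * β))) = 1 / (16 * β) - 1 / 2 := by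
        field_simp
        ring
      rw [e0]
      exact CL.dh_sub a3
  have e5 : (4 - τ * I : ℂ) = 4 + ((-τ : ℝ) : ℂ) * I := by
    push_cast
    ring
  rw [e5] at a4
  obtain ⟨C2, hC2, n2⟩ := near_one_all h hsq α hα hrel (β / (1 + 8 * s * β)) hβ2
  have a5 := refl_cusp2 (fh b) (dh b) 16 (by norm_num) M _ (β / (1 + 8 * s * β)) (-τ) C2 (-V1) hC2 hβ2 n2 a4
  have e6 : (4 - ((-τ : ℝ) : ℂ) * I : ℂ) = 4 + τ * I := by
    push_cast
    ring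
  rw [e6, hV1, value_aux h.hp h.hm he hω hα hβ h1 τ v] at a5
  exact CL.unshift a5

end H25.QP
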