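import Pool.Agent.H25.QE.Mid
import Pool.Agent.H25.QE.Ee

/-!
# QP-PH8: the phases for the Euler factor `1/(1 - α X)`

`mid` (H25/QE/Mid.lean) with `m = 1`, `i = 0`, `r = 2` (`a 1 = 1`), `A k = a (2^k)`:
`(I/√2) (conj ωp ee (1/8) - conj ωm ee (-1/8)) conj (XX (l2 c) A 2 1 2) = XX (l4 c (a 2)) A 2 0 2`.
`XX (l2 c) A 2 1 2 = ∑_k [2 ≤ 1 + k] l2_k conj (A (k-1)) 2^(-k) = l2_1/2 = -c 1` (`k = 1`; `l2_k = -2 c_k = 0` for `k ≥ 2`; `A 0 = 1`).
`XX (l4 c (a 2)) A 2 0 2 = ∑_k [2 ≤ k] l4_k conj (A (k-2)) 2^(-k) = l4_2/4 = (c 1)²` (`l4_2 = -2 c_2 - 4 (a 2) c_1 = 4 c_1²`, because `a 2 = -c 1` from `hl.inv 1`;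
`l4_k = 0` for `k ≥ 3`).
Norms: `‖conj ωp ee (1/8) - conj ωm ee (-1/8)‖ = √2`.  With `P = conj ωp`, `R = conj ωm`: `2 - 2 Re (P conj R ee (1/4)) = 2`, `ee (1/4) = I`, so `Im (P conj R) = 0`,
`‖P conj R‖ = 1`, `P conj R = ± 1`, `P = ± R`, `ωm = ± ωp`.
-/

set_option autoImplicit false

namespace H25.QP

open Complex Pool.Agent.H11.SC H25.QE

private theorem ee_quarter : ee (1 / 8) * ee (1 / 8) = I := by
  rw [← ee_add']
  unfold ee
  rw [show 2 * (Real.pi : ℂ) * I * (1 / 8 + 1 / 8) = (Real.pi : ℂ) / 2 * I by ring]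
  exact Complex.exp_pi_div_two_mul_I

theorem phase8 {a c : ℕ → ℂ} {ωm ωp : ℂ} (hl : Loc2 a c) (h : CStep 8 a ωm ωp) (ham : Ram a)
    (h2 : ∀ k : ℕ, 2 ≤ k → c k = 0) (h1 : ‖c 1‖ = 1) : ωm = ωp ∨ ωm = -ωp := by
  have hm := mid hl h ham 1 odd_one 0 2
  have c0 : c 0 = 1 := by
    have h0 := hl.inv 0
    simpa [hl.one] using h0
  have a2 : a 2 = -c 1 := by
    have h0 := hl.inv 1
    rw [Finset.sum_range_succ, Finset.sum_range_one] at h0
    norm_num [hl.one, c0] at h0
    linear_combination h0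
  have hX : XX (l2 c) (fun k => a (2 ^ k)) 2 (0 + 1) 2 = -c 1 := by
    unfold XX
    rw [tsum_eq_single 1]
    · simp [l2, hl.one]
      ring
    · intro k hk
      rcases Nat.lt_or_ge k 1 with h0 | h0
      · have : k = 0 := by omega
        subst this
        simp
      · have hk2 : 2 ≤ k := by omega
        rw [if_pos (by omega)]
        unfold l2
        rw [if_neg (by omega), h2 k hk2]
        simp
  have hY : XX (l4 c (a 2)) (fun k => a (2 ^ k)) 2 0 2 = (c 1) ^ 2 := by
    unfold XX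
    rw [tsum_eq_single 2]
    · simp [l4, hl.one, h2 2 le_rfl, a2]
      ring
    · intro k hk
      rcases Nat.lt_or_ge k 2 with h0 | h0
      · rw [if_neg (by omega)]
      · have hk2 : 3 ≤ k := by omega
        rw [if_pos (by omega)]
        unfold l4
        rw [if_neg (by omega), if_neg (by omega), h2 k (by omega), h2 (k - 1) (by omega)]
        simp
  rw [hX, hY, hl.one] at hm
  have e1 : ((1 : ℕ) : ℂ) * 2 ^ 0 / 2 ^ 2 / 2 = 1 / 8 := by norm_num
  rw [e1, map_one, one_mul, mul_one, map_neg] at hm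
  set P : ℂ := (starRingEnd ℂ) ωp with hP
  set R : ℂ := (starRingEnd ℂ) ωm with hR
  have hPn : ‖P‖ = 1 := by rw [hP, RCLike.norm_conj]; exact h.hp
  have hRn : ‖R‖ = 1 := by rw [hR, RCLike.norm_conj]; exact h.hm
  have hs2 : ‖((Real.sqrt 2 : ℝ) : ℂ)‖ = Real.sqrt 2 := by
    rw [Complex.norm_real, Real.norm_of_nonneg (Real.sqrt_nonneg _)]
  have hn : ‖P * ee (1 / 8) - R * ee (-(1 / 8))‖ = Real.sqrt 2 := by
    have h3 := congrArg norm hm
    rw [norm_mul, norm_mul, norm_div, norm_I, norm_neg, RCLike.norm_conj, h1, norm_pow, h1, hs2] at h3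
    have h4 : (0 : ℝ) < Real.sqrt 2 := by positivity
    field_simp at h3
    linarith
  -- `‖P u - R u⁻¹‖ = ‖P I - R‖`
  have hu : ‖ee (1 / 8)‖ = 1 := by
    have := ee_norm (1 / 8)
    simpa using this
  have hn2 : ‖P * I - R‖ = Real.sqrt 2 := by
    have h3 : P * I - R = (P * ee (1 / 8) - R * ee (-(1 / 8))) * ee (1 / 8) := by
      have h4 := ee_mul_neg (1 / 8)
      linear_combination (-P) * ee_quarter + R * h4
    rw [h3, norm_mul, hu, mul_one, hn]
  have hP2 : P.re * P.re + P.im * P.im = 1 := by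
    have := Complex.normSq_eq_norm_sq P
    rw [hPn, Complex.normSq_apply] at this
    linarith
  have hR2 : R.re * R.re + R.im * R.im = 1 := by
    have := Complex.normSq_eq_norm_sq R
    rw [hRn, Complex.normSq_apply] at this
    linarith
  have h5 : (P * I - R).re * (P * I - R).re + (P * I - R).im * (P * I - R).im = 2 := by
    have := Complex.normSq_eq_norm_sq (P * I - R)
    rw [hn2, Complex.normSq_apply, Real.sq_sqrt (by norm_num)] at this
    linarith
  have hre : (P * I - R).re = -P.im - R.re := by simp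
  have him : (P * I - R).im = P.re - R.im := by simp
  rw [hre, him] at h5
  have h6 : P.im * R.re - P.re * R.im = 0 := by linear_combination (1 / 2) * h5 - (1 / 2) * hP2 - (1 / 2) * hR2
  have h7 : (P.re * R.re + P.im * R.im) * (P.re * R.re + P.im * R.im) = 1 := by
    have : (P.re * R.re + P.im * R.im) * (P.re * R.re + P.im * R.im) =
        (P.re * P.re + P.im * P.im) * (R.re * R.re + R.im * R.im) -
          (P.im * R.re - P.re * R.im) * (P.im * R.re - P.re * R.im) := by ring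
    rw [this, hP2, hR2, h6]
    ring
  have key : ∀ δ : ℝ, P.re * R.re + P.im * R.im = δ → δ * δ = 1 → P.re = δ * R.re ∧ P.im = δ * R.im := by
    intro δ h8 h9
    have a1 : (P.re - δ * R.re) * (P.re - δ * R.re) + (P.im - δ * R.im) * (P.im - δ * R.im) = 0 := by
      have : (P.re - δ * R.re) * (P.re - δ * R.re) + (P.im - δ * R.im) * (P.im - δ * R.im) =
          (P.re * P.re + P.im * P.im) + δ * δ * (R.re * R.re + R.im * R.im) -
            2 * δ * (P.re * R.re + P.im * R.im) := by ring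
      rw [this, hP2, hR2, h8]
      linarith
    obtain ⟨a2, a3⟩ := mul_self_add_mul_self_eq_zero.mp a1
    constructor <;> linarith
  rcases mul_self_eq_one_iff.1 h7 with h8 | h8
  · left
    obtain ⟨b1, b2⟩ := key 1 h8 (by norm_num)
    have h9 : P = R := Complex.ext (by linarith) (by linarith)
    rw [hP, hR] at h9
    exact ((starRingEnd ℂ).injective h9).symm
  · right
    obtain ⟨b1, b2⟩ := key (-1) h8 (by norm_num)
    have h9 : P = -R := Complex.ext (by rw [Complex.neg_re]; linarith) (by rw [Complex.neg_im]; linarith)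
    rw [hP, hR, ← map_neg] at h9
    have h10 := (starRingEnd ℂ).injective h9
    rw [h10, neg_neg]

end H25.QP
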