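import Pool.Agent.H25.QP.Df
import Pool.Agent.H39.Pol.RRL

/-!
# QP-SCL: the values of `f(2ξ)`, `f(ξ + i/2)`, `dh` at the cusp `0`

`CL.scale0`: in `cone R 0` (invariant under `ξ ↦ 2ξ`), `Re ξ > 0`: `f(2ξ) ξ^κ / (log 1/‖ξ‖)^M = f(2ξ) (2ξ)^κ/(log 1/‖2ξ‖)^M · 2^(-κ) · (log 1/‖2ξ‖ / log 1/‖ξ‖)^M`,
the last factor tends to `1` (`log 1/‖ξ‖ → ∞`; see `RR.scale`, `log_ratio` in `H39/Pol/RRL.lean` and `hq1` in `refl_cusp`).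
`fh_zero`: `fh ξ = -f(ξ) + 16 α f(2ξ)` (`hrel`, `c2 = 0`), `CL.smul'`, `CL.add'`: the value is `-ρ + 16 α 2^(-(4+iθ)) ρ = ρ (α 2^(-iθ) - 1)`.
`dh_zero`: `dh ξ = -2 f(ξ) + 16 α f(2ξ)`: `ρ (α 2^(-iθ) - 2)`.
`cl_half`: `fh_zero` and `CL.unshift`.
-/

set_option autoImplicit false

namespace H25.QP

open Complex Filter Topology Pool.Agent.H11.Selberg Pool.Agent.H11.SC Pool.Agent.H39.Pol Pool.Agent.H11.SC6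

private theorem scl_mul_cpow {x y : ℂ} (hx : 0 < x.re) (hy : 0 < y.re) (c : ℂ) :
    (x * y) ^ c = x ^ c * y ^ c := by
  have hx0 : x ≠ 0 := by
    rintro rfl
    simp at hx
  have hy0 : y ≠ 0 := by
    rintro rfl
    simp at hy
  have h1 := abs_lt.1 (Complex.abs_arg_lt_pi_div_two_iff.2 (Or.inl hx))
  have h2 := abs_lt.1 (Complex.abs_arg_lt_pi_div_two_iff.2 (Or.inl hy))
  rw [cpow_def_of_ne_zero (mul_ne_zero hx0 hy0), cpow_def_of_ne_zero hx0, cpow_def_of_ne_zero hy0,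
    Complex.log_mul hx0 hy0 ⟨by linarith [h1.1, h2.1], by linarith [h1.2, h2.2]⟩, add_mul,
    Complex.exp_add]

theorem CL.scale0 {f : ℂ → ℂ} {M : ℕ} {κ : ℂ} {v : ℂ} (h : CL f M κ 0 v) :
    CL (fun ξ => f (2 * ξ)) M κ 0 (v * ((2 : ℝ) : ℂ) ^ (-κ)) := by
  intro R hR
  have h1 := h R hR
  obtain ⟨𝓕, h𝓕⟩ : ∃ 𝓕, 𝓕 = nhdsWithin (((0 : ℝ) : ℂ) * I) (cone R 0) := ⟨_, rfl⟩
  rw [← h𝓕] at h1 ⊢
  have e0 : ((0 : ℝ) : ℂ) * I = 0 := by simp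
  have hcone : ∀ᶠ ξ in 𝓕, ξ ∈ cone R 0 := by
    rw [h𝓕]
    exact self_mem_nhdsWithin
  have h2 : Tendsto (fun ξ : ℂ => 2 * ξ) 𝓕 𝓕 := by
    conv_rhs => rw [h𝓕]
    refine tendsto_nhdsWithin_iff.2 ⟨?_, ?_⟩
    · have h3 : Continuous (fun ξ : ℂ => 2 * ξ) := by fun_prop
      have h4 := h3.tendsto (((0 : ℝ) : ℂ) * I)
      have e : (2 : ℂ) * (((0 : ℝ) : ℂ) * I) = ((0 : ℝ) : ℂ) * I := by simp
      rw [e] at h4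
      rw [h𝓕]
      exact h4.mono_left nhdsWithin_le_nhds
    · filter_upwards [hcone] with ξ hξ
      obtain ⟨h3, h4⟩ := hξ
      have e1 : (2 * ξ : ℂ).re = 2 * ξ.re := by simp
      have e2 : (2 * ξ : ℂ).im = 2 * ξ.im := by simp
      refine ⟨by rw [e1]; linarith, ?_⟩
      rw [e1, e2]
      have e3 : 2 * ξ.im - 0 = 2 * (ξ.im - 0) := by ring
      rw [e3, abs_mul, abs_of_pos (by norm_num : (0 : ℝ) < 2)]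
      linarith
  have h3 := h1.comp h2
  have hn : Tendsto (fun ξ : ℂ => ‖ξ‖) 𝓕 (𝓝[>] 0) := by
    refine tendsto_nhdsWithin_iff.2 ⟨?_, ?_⟩
    · have h3 := (continuous_norm (E := ℂ)).tendsto (((0 : ℝ) : ℂ) * I)
      rw [e0, norm_zero] at h3
      rw [h𝓕, e0]
      exact h3.mono_left nhdsWithin_le_nhds
    · filter_upwards [hcone] with ξ hξ
      refine norm_pos_iff.2 (fun h0 => ?_)
      have h4 := hξ.1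
      rw [h0] at h4
      simp at h4
  have hr := (log_ratio 2 (by norm_num)).comp hn
  have hr2 := hr.pow M
  rw [one_pow] at hr2
  have hr3 : Tendsto (fun ξ : ℂ =>
      (((Real.log (1 / (2 * ‖ξ‖)) / Real.log (1 / ‖ξ‖)) ^ M : ℝ) : ℂ)) 𝓕 (𝓝 1) := by
    have := (continuous_ofReal.tendsto (1 : ℝ)).comp hr2
    rw [ofReal_one] at this
    exact this
  have h5 := (h3.mul_const (((2 : ℝ) : ℂ) ^ (-κ))).mul hr3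
  rw [mul_one] at h5
  refine h5.congr' ?_
  have hL : ∀ᶠ ξ in 𝓕, 0 < Real.log (1 / ‖ξ‖) :=
    (tendsto_log_inv.comp hn).eventually_gt_atTop 0
  have hL2 : ∀ᶠ ξ in 𝓕, 0 < Real.log (1 / (2 * ‖ξ‖)) :=
    (tendsto_log_inv.comp ((tendsto_scale 2 (by norm_num)).comp hn)).eventually_gt_atTop 0
  filter_upwards [hL, hL2, hcone] with ξ ha hb hξ
  have ha' : (((Real.log (1 / ‖ξ‖)) ^ M : ℝ) : ℂ) ≠ 0 := by exact_mod_cast (pow_pos ha M).ne'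
  have hb' : (((Real.log (1 / (2 * ‖ξ‖))) ^ M : ℝ) : ℂ) ≠ 0 := by
    exact_mod_cast (pow_pos hb M).ne'
  have e2 : (2 : ℂ) = ((2 : ℝ) : ℂ) := by norm_num
  have h22 : (((2 : ℝ) : ℂ)) ≠ 0 := by norm_num
  have e3 : (2 * ξ : ℂ) ^ κ = ((2 : ℝ) : ℂ) ^ κ * ξ ^ κ := by
    rw [e2]
    exact scl_mul_cpow (by norm_num) hξ.1 κ
  have e4 : ((2 : ℝ) : ℂ) ^ κ * ((2 : ℝ) : ℂ) ^ (-κ) = 1 := by
    rw [← cpow_add _ _ h22, add_neg_cancel, cpow_zero]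
  have e5 : ‖(2 * ξ : ℂ)‖ = 2 * ‖ξ‖ := by
    rw [norm_mul]
    norm_num
  show f (2 * ξ) * (2 * ξ - ((0 : ℝ) : ℂ) * I) ^ κ /
      (((Real.log (1 / ‖2 * ξ - ((0 : ℝ) : ℂ) * I‖)) ^ M : ℝ) : ℂ) * ((2 : ℝ) : ℂ) ^ (-κ) *
      (((Real.log (1 / (2 * ‖ξ‖)) / Real.log (1 / ‖ξ‖)) ^ M : ℝ) : ℂ) =
    f (2 * ξ) * (ξ - ((0 : ℝ) : ℂ) * I) ^ κ /
      (((Real.log (1 / ‖ξ - ((0 : ℝ) : ℂ) * I‖)) ^ M : ℝ) : ℂ)
  rw [e0, sub_zero, sub_zero, e3, e5, div_pow, ofReal_div]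
  calc f (2 * ξ) * (((2 : ℝ) : ℂ) ^ κ * ξ ^ κ) / (((Real.log (1 / (2 * ‖ξ‖))) ^ M : ℝ) : ℂ) *
        ((2 : ℝ) : ℂ) ^ (-κ) * ((((Real.log (1 / (2 * ‖ξ‖))) ^ M : ℝ) : ℂ) /
          (((Real.log (1 / ‖ξ‖)) ^ M : ℝ) : ℂ))
      = (((2 : ℝ) : ℂ) ^ κ * ((2 : ℝ) : ℂ) ^ (-κ)) * (f (2 * ξ) * ξ ^ κ /
          (((Real.log (1 / ‖ξ‖)) ^ M : ℝ) : ℂ)) := by
        field_simp
    _ = _ := by rw [e4, one_mul]

private theorem scl_const (θ : ℝ) :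
    ((2 : ℝ) : ℂ) ^ (-(4 + θ * I)) = (1 / 16 : ℂ) * ((2 : ℝ) : ℂ) ^ (-(θ * I)) := by
  have h22 : (((2 : ℝ) : ℂ)) ≠ 0 := by norm_num
  have e2 : (-(4 + θ * I) : ℂ) = -((4 : ℕ) : ℂ) + -((θ : ℂ) * I) := by push_cast; ring
  rw [e2, cpow_add _ _ h22, cpow_neg, cpow_natCast]
  norm_num

theorem fh_zero {b : ℕ → ℂ} {M : ℕ} {θ : ℝ} {ρ : ℂ} (α : ℂ) (hrel : HRel b (-α) 0) (h0 : CL (gs b 3) M (4 + θ * I) 0 ρ) :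
    CL (fh b) M (4 + θ * I) 0 (ρ * (α * ((2 : ℝ) : ℂ) ^ (-(θ * I)) - 1)) := by
  have h1 := CL.add' (CL.smul' h0 (-1)) (CL.smul' (CL.scale0 h0) (16 * α))
  have e : -1 * ρ + 16 * α * (ρ * ((2 : ℝ) : ℂ) ^ (-(4 + θ * I))) =
      ρ * (α * ((2 : ℝ) : ℂ) ^ (-(θ * I)) - 1) := by
    rw [scl_const]
    ring
  rw [e] at h1
  refine CL.congr' h1 (fun ξ hξ => ?_)
  unfold fh
  rw [hrel ξ hξ]
  ring

theorem cl_half {b : ℕ → ℂ} {M : ℕ} {θ : ℝ} {ρ : ℂ} (α : ℂ) (hrel : HRel b (-α) 0) (h0 : CL (gs b 3) M (4 + θ * I) 0 ρ) :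
    CL (gs b 3) M (4 + θ * I) (1 / 2) (ρ * (α * ((2 : ℝ) : ℂ) ^ (-(θ * I)) - 1)) := by
  have h1 : CL (fun ξ => gs b 3 (ξ + ((1 / 2 : ℝ) : ℂ) * I)) M (4 + θ * I) 0
      (ρ * (α * ((2 : ℝ) : ℂ) ^ (-(θ * I)) - 1)) := fh_zero α hrel h0
  have h2 := CL.unshift h1
  rwa [add_zero] at h2

theorem dh_zero {b : ℕ → ℂ} {M : ℕ} {θ : ℝ} {ρ : ℂ} (α : ℂ) (hrel : HRel b (-α) 0) (h0 : CL (gs b 3) M (4 + θ * I) 0 ρ) :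
    CL (dh b) M (4 + θ * I) 0 (ρ * (α * ((2 : ℝ) : ℂ) ^ (-(θ * I)) - 2)) := by
  have h1 := CL.add' (CL.smul' h0 (-2)) (CL.smul' (CL.scale0 h0) (16 * α))
  have e : -2 * ρ + 16 * α * (ρ * ((2 : ℝ) : ℂ) ^ (-(4 + θ * I))) =
      ρ * (α * ((2 : ℝ) : ℂ) ^ (-(θ * I)) - 2) := by
    rw [scl_const]
    ring
  rw [e] at h1
  refine CL.congr' h1 (fun ξ hξ => ?_)
  unfold dh
  rw [hrel ξ hξ]
  ring

end H25.QP
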