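import Pool.Agent.H25.QP.Na
import Pool.Agent.H25.QP.Rf2
import Pool.Agent.H25.QP.Scl

/-!
# QP-TRM: the values at `3/8` and `5/8`

`ηp = I ωp`, `ηm = -(I ωm)`, `α 2^(-iθ) = 1`.  `dh_zero` (Scl): `CL (dh b) M (4 + iθ) 0 (-ρ)`; `CL.dh_add`, `CL.dh_sub`: value `ρ` at `± 1/2`.  `near_one_all` at `± 1/8`
(`1/(16 (± 1/8)) = ± 1/2`), `refl_cusp2` (`k = 16`, `√16 = 4`): `CL (fh b) M (4 - iθ) (± 1/8) V`,
`V = -(α/√2) ω I (± 1/2) (1/4)^(-iθ) conj ρ = -(α/(2√2)) η± 4^(iθ) conj ρ` (`I ωp = ηp`, `-(I ωm) = ηm`).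
`α = 2^(iθ)`, `2^(iθ) 4^(iθ) = 8^(iθ)`, `1/(2√2) = √8/8`: this is `conj ρ x (√8/8) (8²/8)^(iθ)` with `x = -η±` (`Minus`; `CL.unshift`, `5/8 = 1/2 + 1/8`,
`3/8 = 1/2 - 1/8`).
-/

set_option autoImplicit false

namespace H25.QP

open Complex Filter Topology Pool.Agent.H11.Selberg Pool.Agent.H11.SC Pool.Agent.H39.Pol Pool.Agent.H11.SC6

private theorem trm_alpha {α : ℂ} {θ : ℝ} (hα1 : α * ((2 : ℝ) : ℂ) ^ (-(θ * I)) = 1) :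
    α = ((2 : ℝ) : ℂ) ^ (θ * I) := by
  have h2 : ((2 : ℝ) : ℂ) ≠ 0 := by norm_num
  have h3 : ((2 : ℝ) : ℂ) ^ (-(θ * I)) * ((2 : ℝ) : ℂ) ^ (θ * I) = 1 := by
    rw [← cpow_add _ _ h2, neg_add_cancel, cpow_zero]
  calc α = α * (((2 : ℝ) : ℂ) ^ (-(θ * I)) * ((2 : ℝ) : ℂ) ^ (θ * I)) := by rw [h3, mul_one]
    _ = (α * ((2 : ℝ) : ℂ) ^ (-(θ * I))) * ((2 : ℝ) : ℂ) ^ (θ * I) := by ring
    _ = _ := by rw [hα1, one_mul]

private theorem trm_pow {α : ℂ} {θ : ℝ} (hα1 : α * ((2 : ℝ) : ℂ) ^ (-(θ * I)) = 1) :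
    α * ((1 / 4 : ℝ) : ℂ) ^ (-(θ * I)) = ((8 : ℝ) : ℂ) ^ (θ * I) := by
  rw [trm_alpha hα1]
  have h2 : ((2 : ℝ) : ℂ) ≠ 0 := by norm_num
  have h4 : ((1 / 4 : ℝ) : ℂ) ≠ 0 := by norm_num
  have h8 : ((8 : ℝ) : ℂ) ≠ 0 := by norm_num
  rw [cpow_def_of_ne_zero h2, cpow_def_of_ne_zero h4, cpow_def_of_ne_zero h8, ← Complex.exp_add,
    ← ofReal_log (by norm_num), ← ofReal_log (by norm_num), ← ofReal_log (by norm_num)]
  have e1 : Real.log (1 / 4) = -(2 * Real.log 2) := by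
    rw [one_div, Real.log_inv, show (4 : ℝ) = 2 ^ 2 by norm_num, Real.log_pow]
    norm_num
  have e2 : Real.log 8 = 3 * Real.log 2 := by
    rw [show (8 : ℝ) = 2 ^ 3 by norm_num, Real.log_pow]
    norm_num
  rw [e1, e2]
  congr 1
  push_cast
  ring

private theorem trm_sqrt : ((Real.sqrt 2 : ℝ) : ℂ)⁻¹ * (1 / 2) = ((Real.sqrt 8 / 8 : ℝ) : ℂ) := by
  have h8 : Real.sqrt 8 = 2 * Real.sqrt 2 := by
    rw [show (8 : ℝ) = 2 ^ 2 * 2 by norm_num, Real.sqrt_mul (by norm_num), Real.sqrt_sq (by norm_num)]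
  have h2 : Real.sqrt 2 * Real.sqrt 2 = 2 := Real.mul_self_sqrt (by norm_num)
  have h0 : Real.sqrt 2 ≠ 0 := by positivity
  have h3 : (Real.sqrt 2)⁻¹ * (1 / 2) = Real.sqrt 8 / 8 := by
    rw [h8]
    field_simp
    nlinarith
  rw [← h3]
  push_cast
  ring

private theorem trm_sixteen : Real.sqrt 16 = 4 := by
  rw [show (16 : ℝ) = 4 ^ 2 by norm_num, Real.sqrt_sq (by norm_num)]

private theorem trm_cst {α : ℂ} {θ : ℝ} (hα1 : α * ((2 : ℝ) : ℂ) ^ (-(θ * I)) = 1) (ω ρ' : ℂ) (s : ℝ)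
    (hs : s ^ 2 = 1) :
    -(α / ((Real.sqrt 2 : ℝ) : ℂ)) * ω * I * ((Real.sqrt 16 * (s * (1 / 8)) : ℝ) : ℂ) *
      ((16 * (s * (1 / 8)) ^ 2 : ℝ) : ℂ) ^ (-(θ * I)) * ρ' =
    ρ' * (-((s : ℂ) * (I * ω))) * ((Real.sqrt 8 / 8 : ℝ) : ℂ) * ((8 : ℝ) : ℂ) ^ (θ * I) := by
  have e1 : (16 : ℝ) * (s * (1 / 8)) ^ 2 = 1 / 4 := by
    rw [mul_pow, hs]
    norm_num
  rw [e1, trm_sixteen, ← trm_pow hα1, ← trm_sqrt]
  push_cast
  ring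

theorem trm_cusp {b : ℕ → ℂ} {sq : ℝ} {M : ℕ} {θ : ℝ} {ωp ωm : ℂ} {Rp Rm : Polynomial ℂ} {C : ℝ}
    (h : Inv2 b sq M θ ωp ωm Rp Rm C) (hsq : sq ^ 2 = 8) (α : ℂ) (hα : ‖α‖ = 1) (hrel : HRel b (-α) 0)
    (hα1 : α * ((2 : ℝ) : ℂ) ^ (-(θ * I)) = 1) (ρ : ℂ) (h0 : CL (gs b 3) M (4 + θ * I) 0 ρ) :
    Minus b 8 M θ ρ 5 8 (-(I * ωp)) ∧ Minus b 8 M θ ρ 3 8 (-(-(I * ωm))) := by
  have hd := dh_zero α hrel h0
  have e0 : ρ * (α * ((2 : ℝ) : ℂ) ^ (-(θ * I)) - 2) = -ρ := by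
    rw [hα1]
    ring
  rw [e0] at hd
  have hp := CL.dh_add hd
  have hm := CL.dh_sub hd
  rw [neg_neg] at hp hm
  constructor
  · obtain ⟨C1, hC1, hN⟩ := near_one_all h hsq α hα hrel (1 / 8) (by norm_num)
    rw [if_pos (by norm_num)] at hN
    have hv : CL (dh b) M (4 + θ * I) (1 / (16 * (1 / 8))) ρ := by
      have e : (1 : ℝ) / (16 * (1 / 8)) = 0 + 1 / 2 := by norm_num
      rw [e]
      exact hp
    have h1 := refl_cusp2 (fh b) (dh b) 16 (by norm_num) M _ (1 / 8) θ C1 ρ hC1 (by norm_num) hN hv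
    have h2 := CL.unshift (f := gs b 3) (s := 1 / 2) h1
    unfold Minus
    have e1 : (((5 : ℤ) : ℝ) / ((8 : ℕ) : ℝ)) = 1 / 2 + 1 / 8 := by norm_num
    rw [e1]
    have e2 := trm_cst hα1 ωp ((starRingEnd ℂ) ρ) 1 (by norm_num)
    rw [one_mul] at e2
    rw [e2] at h2
    convert h2 using 2
    · push_cast
      ring_nf
    · push_cast
      norm_num
  · obtain ⟨C1, hC1, hN⟩ := near_one_all h hsq α hα hrel (-(1 / 8)) (by norm_num)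
    rw [if_neg (by norm_num)] at hN
    have hv : CL (dh b) M (4 + θ * I) (1 / (16 * (-(1 / 8)))) ρ := by
      have e : (1 : ℝ) / (16 * (-(1 / 8))) = 0 - 1 / 2 := by norm_num
      rw [e]
      exact hm
    have h1 := refl_cusp2 (fh b) (dh b) 16 (by norm_num) M _ (-(1 / 8)) θ C1 ρ hC1 (by norm_num) hN hv
    have h2 := CL.unshift (f := gs b 3) (s := 1 / 2) h1
    unfold Minus
    have e1 : (((3 : ℤ) : ℝ) / ((8 : ℕ) : ℝ)) = 1 / 2 + -(1 / 8) := by norm_num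
    rw [e1]
    have e2 := trm_cst hα1 ωm ((starRingEnd ℂ) ρ) (-1) (by norm_num)
    rw [neg_one_mul] at e2
    rw [e2] at h2
    convert h2 using 2
    · push_cast
      ring_nf
    · push_cast
      norm_num

end H25.QP
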