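import Pool.Agent.H25.QP.Par
import Pool.Agent.H25.QP.Trm
import Pool.Agent.H25.QP.CasA
import Pool.Agent.H25.QP.CasB
import Pool.Agent.H25.QP.Ph8
import Pool.Agent.H25.QP.Cal8
import Pool.Agent.H25.QE.Eu8
import Pool.Agent.H11.SC6.Pole567

/-!
# QP-POL8: the coefficients of an element of conductor `8` with a pole

See `pole_coeff567` (`Pool/Agent/H11/SC6/Pole567.lean`): `inv_data` (`q = 8`), `loc6_exists`, `Loc6.twist δ`, `H25.QE.Loc2.of_loc6`, `cstep_of_inv2`: `CStep 8 b ωp ωm`; `b n = a n n^(-iδ)`, type `θ = -δ`.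
`H25.QE.euler8`: two cases.  `half_rel` (`c2' k = 0` for `k ≥ 3`): `HRel b (c2' 1) (c2' 2)`.
CASE 1, `c k = 0` for `k ≥ 1`: `HRel b 0 0`, `dat_of` (H39/Pol/Dat.lean; or the `Dat` built as in `datV_of`): `no_pole_A`, contradiction.
CASE 2, `c k = 0` for `k ≥ 2`, `‖c 1‖ = 1`: `α = -c 1`, `HRel b (-α) 0`.  `Dat b 8 M θ ρ ηp ηm` with `ηp = I ωp`, `ηm = -(I ωm)` exactly as in `datV_of` (`zero_cusp`, `w_cusp`; `half` is void for
`q = 8`).  `phase8`: `ωp = ωm` or `ωp = -ωm`, so `ηm = ∓ ηp`, `e = -1` or `e = 1` (`ηm = ηp e`, `ωm = -(ωp e)`).  `rel4_of`, `alpha_one`: `α 2^(-iθ) = 1`.  `par_cusp`, `trm_cusp`: `Dat8`.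
`chr8`, `calc8`; `ev_p_gen` (H39/Pol/EvG.lean) for odd `p` with `X c = χ c` (`Nat.Coprime p 8`, norm `1` on units).  `p = 2`: `b (2^k) = α^k` (`hl.inv`, induction: `b(2^(k+1)) = -c 1 b(2^k)`),
`b (2^k) (tp 2 θ)^k = (α 2^(-iθ))^k = 1`, and `χ 2 = 0`: the sum is `1` (`Finset.sum_range_succ'`).
Untwist as in `pole_coeff567` (`tp_sq`, `untwist`): `τ = 2 θ = -2δ`.
-/

set_option autoImplicit false

namespace H25.QP

open Complex Filter Topology Pool.Agent.H11.Selberg Pool.Agent.H11.SC Pool.Agent.H39.Pol Pool.Agent.H11.SC6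

theorem dat_exp {b : ℕ → ℂ} {sq : ℝ} {M : ℕ} {θ : ℝ} {ωp ωm : ℂ} {Rp Rm : Polynomial ℂ} {C : ℝ}
    (h : Inv2 b sq M θ ωp ωm Rp Rm C) (q : ℕ) (hq4 : q ≠ 4) (hsq : sq ^ 2 = q) (one : b 1 = 1)
    (mul : ∀ m n : ℕ, Nat.Coprime m n → b (m * n) = b m * b n)
    (loc : ∀ p : ℕ, p.Prime → ∀ X : ℂ, ‖X‖ ≤ (p : ℝ) ^ (-(1 / 2) : ℝ) →
      ∑' k : ℕ, b (p ^ k) * X ^ k ≠ 0)
    (two : ∃ c : ℕ → ℂ, TwoRel b c) : ∃ ρ : ℂ, Dat b q M θ ρ (I * ωp) (-(I * ωm)) := by
  have hs : sq = Real.sqrt q := by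
    rw [← hsq, Real.sqrt_sq h.sq0.le]
  obtain ⟨ρ, hρ, hz⟩ := zero_cusp h
  refine ⟨ρ, ⟨one, mul, h.ram, loc, two, hρ, ?_, ?_, hz, ?_, fun h4 => absurd h4 hq4⟩⟩
  · rw [norm_mul, h.hp, norm_I, mul_one]
  · rw [norm_neg, norm_mul, h.hm, norm_I, mul_one]
  · intro β τ v hβ hβ1 hv
    rw [← hsq] at hv ⊢
    have h1 := w_cusp h β τ v hβ hβ1 hv
    rw [Real.sqrt_sq h.sq0.le]
    exact h1

theorem pole_coeff8 (a : ℕ → ℂ) (F : ℂ → ℂ) (hS : IsSelberg a F)
    (hpole : ¬ ∃ G : ℂ → ℂ, Differentiable ℂ G ∧ ∀ s, s ≠ 1 → G s = F s)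
    (Q : ℝ) (r : ℕ) (lam : Fin r → ℝ) (mu : Fin r → ℂ) (ε : ℂ)
    (hQ : 0 < Q) (hlam : ∀ j, 0 < lam j) (hmu : ∀ j, 0 ≤ (mu j).re) (hε : ‖ε‖ = 1)
    (hfe : ∀ s : ℂ, 0 < s.re → s.re < 1 →
      completed Q lam mu F s =
        ε * (starRingEnd ℂ) (completed Q lam mu F (1 - (starRingEnd ℂ) s)))
    (hdeg : 2 * ∑ j, lam j = 2)
    (hcond : (2 * Real.pi) ^ 2 * Q ^ 2 * ∏ j, (lam j) ^ (2 * lam j) = 8) :
    ∃ (τ : ℝ) (χ : DirichletCharacter ℂ 8), χ ≠ 1 ∧ χ.IsPrimitive ∧ ∀ p : ℕ, p.Prime → ∀ k : ℕ,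
      a (p ^ k) = ∑ i ∈ Finset.range (k + 1),
        (χ (p : ZMod 8) * (p : ℂ) ^ (-((τ : ℝ) * I) : ℂ)) ^ i := by
  obtain ⟨δ, M, ωp, ωm, Rp, Rm, C, h, one, mul, loc, two⟩ :=
    inv_data a F hS hpole Q r lam mu ε hQ hlam hmu hε hfe hdeg 8 hcond
  set b : ℕ → ℂ := fun n => a n * (n : ℂ) ^ (-(δ * I) : ℂ) with hb
  obtain ⟨c2, c3, hl⟩ := loc6_exists a F hS
  obtain ⟨c2', c3', hl'⟩ := hl.twist δ
  have hst := cstep_of_inv2 h
  have hsq : Real.sqrt (8 : ℝ) ^ 2 = 8 := Real.sq_sqrt (by norm_num)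
  rw [hsq] at hst
  have hram := h.ram
  have hram1 : ∃ C : ℝ, ∀ n : ℕ, 1 ≤ n → ‖b n‖ ≤ C * (n : ℝ) ^ (1 : ℝ) := hram 1 one_pos
  have hL : H25.QE.Loc2 b c2' := H25.QE.Loc2.of_loc6 hl'
  obtain ⟨ρ, hD⟩ := dat_exp h 8 (by norm_num) (by rw [hsq]; norm_num) one mul loc two
  rcases H25.QE.euler8 hL hst hram with h1 | ⟨h2, hn⟩
  · exfalso
    have hrel := half_rel b c2' c3' hl' (fun k hk => h1 k (by omega)) hram1
    rw [h1 1 le_rfl, h1 2 (by norm_num)] at hrel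
    exact no_pole_A hD hrel
  · have hrel := half_rel b c2' c3' hl' (fun k hk => h2 k (by omega)) hram1
    rw [h2 2 le_rfl] at hrel
    set α : ℂ := -c2' 1 with hα
    have hαn : ‖α‖ = 1 := by rw [hα, norm_neg, hn]
    have hrel' : HRel b (-α) 0 := by
      rw [hα, neg_neg]
      exact hrel
    have h4 : Rel4 b α := rel4_of hL hram1 h2
    have hph := phase8 hL hst hram h2 hn
    -- the sign `e`
    obtain ⟨e, he, hω, hη⟩ : ∃ e : ℂ, e * e = 1 ∧ ωm = -(ωp * e) ∧ -(I * ωm) = I * ωp * e := by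
      rcases hph with h5 | h5
      · exact ⟨-1, by norm_num, by rw [h5]; ring, by rw [h5]; ring⟩
      · exact ⟨1, by norm_num, by rw [h5]; ring, by rw [h5]; ring⟩
    have he' : -(I * ωm) = I * ωp ∨ -(I * ωm) = -(I * ωp) := by
      rcases hph with h5 | h5
      · right
        rw [h5]
      · left
        rw [h5]
        ring
    have hα1 := alpha_one hD α hαn hrel' h4 he'
    obtain ⟨t5, t3⟩ := trm_cusp h hsq α hαn hrel' hα1 ρ hD.zero
    have E : Dat8 b M (-δ) ρ (I * ωp) (-(I * ωm)) e := by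
      refine ⟨hD, he, hη, ?_, t5, t3⟩
      intro β τ s v hs hβ h1 hv
      exact par_cusp h hsq α hαn hrel' e he hω β τ s hs v hβ h1 hv
    obtain ⟨χ, hχ1, hχ5⟩ := chr8 e (mul_self_eq_one_iff.1 he)
    obtain ⟨hP, -⟩ := calc8 E χ hχ1 hχ5
    have hcast : ∀ m : ℕ, Nat.Coprime m 8 → ‖χ ((m : ℕ) : ZMod 8)‖ = 1 := by
      intro m hm
      have h6 := DirichletCharacter.unit_norm_eq_one χ (ZMod.unitOfCoprime m hm)
      simpa using h6
    have main : ∀ p : ℕ, p.Prime → ∀ k : ℕ, b (p ^ k) * (tp p (-δ)) ^ k =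
        ∑ i ∈ Finset.range (k + 1), (χ (p : ZMod 8) * (tp p (-δ)) ^ 2) ^ i := by
      intro p hpp k
      by_cases hpq : Nat.Coprime p 8
      · exact ev_p_gen E.dat (fun c => χ (c : ZMod 8)) (by simp)
          (fun m n _ _ => by rw [Nat.cast_mul, map_mul]) hcast hP p hpp hpq k
      · have hp2 : p = 2 := by
          have h6 : ¬ Nat.Coprime p 2 := by
            intro h7
            exact hpq (by
              have := h7.pow_right 3
              norm_num at this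
              exact this)
          rw [Nat.coprime_primes hpp Nat.prime_two, not_not] at h6
          exact h6
        subst hp2
        have hχ2 : χ (((2 : ℕ)) : ZMod 8) = 0 := χ.map_nonunit (by decide)
        have c0 : c2' 0 = 1 := by
          have h0 := hL.inv 0
          simpa [hL.one] using h0
        have hbk : ∀ k : ℕ, b (2 ^ k) = α ^ k := by
          intro k
          induction k with
          | zero => simpa using hL.one
          | succ k ih =>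
            have h6 := hL.inv (k + 1)
            rw [if_neg (by omega), Finset.sum_range_succ', Finset.sum_eq_single_of_mem 0 (Finset.mem_range.2 (by omega))] at h6
            · rw [c0, one_mul, Nat.sub_zero] at h6
              have h7 : k + 1 - (0 + 1) = k := by omega
              rw [h7, ih] at h6
              rw [pow_succ α k]
              rw [hα] at h6 ⊢
              linear_combination h6
            · intro j _ hj0
              rw [h2 (j + 1) (by omega), zero_mul]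
        rw [hbk, ← mul_pow]
        have h8 : α * tp 2 (-δ) = 1 := by
          rw [← hα1]
          unfold tp
          norm_num
        rw [h8, one_pow, hχ2, Finset.sum_range_succ']
        simp
    refine ⟨2 * (-δ), χ, chr8_ne hχ5, chr8_prim hχ5, ?_⟩
    intro p hp k
    rw [← tp_sq p hp (-δ), ← untwist a δ p hp k]
    exact main p hp k

end H25.QP
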