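import Pool.Agent.H25.QP.Pol8
import Pool.Agent.H25.QE.Fin

/-!
# QP-PRM8: every primitive element of degree `2` and integer conductor at most `8`

`pole_not_primitive8`: `N ≤ 7`: `pole_not_primitive` (`H11/SC6/Prim7.lean`); `N = 8`: `pole_coeff8` and `not_primitive_L`.
`primitive_eight`: as `primitive_seven` (`H11/SC6/Final7.lean`) with `H25.QE.entire_eight`.
-/

set_option autoImplicit false

namespace H25.QP

open Complex Pool.Agent.H11.Selberg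

theorem pole_not_primitive8 (a : ℕ → ℂ) (F : ℂ → ℂ) (hS : IsSelberg a F)
    (hpole : ¬ ∃ G : ℂ → ℂ, Differentiable ℂ G ∧ ∀ s, s ≠ 1 → G s = F s)
    (Q : ℝ) (r : ℕ) (lam : Fin r → ℝ) (mu : Fin r → ℂ) (ε : ℂ)
    (hQ : 0 < Q) (hlam : ∀ j, 0 < lam j) (hmu : ∀ j, 0 ≤ (mu j).re) (hε : ‖ε‖ = 1)
    (hfe : ∀ s : ℂ, 0 < s.re → s.re < 1 →
      completed Q lam mu F s =
        ε * (starRingEnd ℂ) (completed Q lam mu F (1 - (starRingEnd ℂ) s)))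
    (hdeg : 2 * ∑ j, lam j = 2) (N : ℕ) (hN : N ≤ 8)
    (hcond : (2 * Real.pi) ^ 2 * Q ^ 2 * ∏ j, (lam j) ^ (2 * lam j) = N) :
    ¬ IsPrimitive a F := by
  rcases Nat.lt_or_ge N 8 with h | h
  · exact Pool.Agent.H11.SC6.pole_not_primitive a F hS hpole Q r lam mu ε hQ hlam hmu hε hfe hdeg N (by omega) hcond
  · obtain rfl : N = 8 := by omega
    obtain ⟨τ, χ, h1, h2, hc⟩ := pole_coeff8 a F hS hpole Q r lam mu ε hQ hlam hmu hε hfe hdeg (by rw [hcond]; norm_num)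
    exact Pool.Agent.H11.SC6.not_primitive_L a F hS χ h2 h1 τ hc

theorem primitive_eight (a : ℕ → ℂ) (F : ℂ → ℂ) (hP : IsPrimitive a F)
    (Q : ℝ) (r : ℕ) (lam : Fin r → ℝ) (mu : Fin r → ℂ) (ε : ℂ)
    (hQ : 0 < Q) (hlam : ∀ j, 0 < lam j) (hmu : ∀ j, 0 ≤ (mu j).re) (hε : ‖ε‖ = 1)
    (hfe : ∀ s : ℂ, 0 < s.re → s.re < 1 →
      completed Q lam mu F s =
        ε * (starRingEnd ℂ) (completed Q lam mu F (1 - (starRingEnd ℂ) s)))
    (hdeg : 2 * ∑ j, lam j = 2) (N : ℕ) (hN : N ≤ 8)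
    (hcond : (2 * Real.pi) ^ 2 * Q ^ 2 * ∏ j, (lam j) ^ (2 * lam j) = N) :
    ∃ C : ℝ, ∀ x : ℝ, 2 ≤ x → |S a x - Real.log (Real.log x)| ≤ C := by
  by_cases hpole : ∃ G : ℂ → ℂ, Differentiable ℂ G ∧ ∀ s, s ≠ 1 → G s = F s
  · obtain ⟨G, hG, hGF⟩ := hpole
    exact H25.QE.entire_eight a F G hP.1 hG hGF Q r lam mu ε hQ hlam hmu hε hfe hdeg N hN hcond
  · exact absurd hP (pole_not_primitive8 a F hP.1 hpole Q r lam mu ε hQ hlam hmu hε hfe hdeg N hN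
      hcond)

end H25.QP
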